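import Pool.Agent.Sib.Basic2

/-!
# The ultrapower: a countably saturated extension (module SAT)
-/

namespace Pool.Agent.Sib

open Set Filter

namespace SatAux

/-- The ultrafilter. -/
noncomputable abbrev UF : Ultrafilter ℕ := hyperfilter ℕ

theorem exists_lim {T : Type} [Finite T] (φ : ℕ → T) : ∃ τ, ∀ᶠ t in (UF : Filter ℕ), φ t = τ := by
  obtain ⟨τ, hτ⟩ := Ultrafilter.eq_pure_of_finite (Ultrafilter.map φ UF)
  refine ⟨τ, ?_⟩
  have h : {τ} ∈ Ultrafilter.map φ UF := by rw [hτ]; exact rfl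
  exact h

/-- The ultralimit of a function with finitely many values. -/
noncomputable def lim {T : Type} [Finite T] (φ : ℕ → T) : T := (exists_lim φ).choose

theorem lim_spec {T : Type} [Finite T] (φ : ℕ → T) : ∀ᶠ t in (UF : Filter ℕ), φ t = lim φ :=
  (exists_lim φ).choose_spec

theorem lim_eq {T : Type} [Finite T] {φ : ℕ → T} {τ : T}
    (h : ∀ᶠ t in (UF : Filter ℕ), φ t = τ) : lim φ = τ := by
  obtain ⟨t, h1, h2⟩ := ((lim_spec φ).and h).exists
  exact h1.symm.trans h2

variable {U : Type}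

/-- The ultrapower. -/
abbrev GU (U : Type) : Type := Germ (UF : Filter ℕ) U

/-- A representative. -/
noncomputable def rep (a : GU U) : ℕ → U := Quotient.out a

theorem coe_rep (a : GU U) : ((rep a : ℕ → U) : GU U) = a := Quotient.out_eq a

theorem rep_coe (a : ℕ → U) : ∀ᶠ t in (UF : Filter ℕ), rep (a : GU U) t = a t :=
  Germ.coe_eq.1 (coe_rep (a : GU U))

/-- The colouring of the ultrapower. -/
noncomputable def ucol {r : ℕ} {T : Type} [Finite T] (colU : (Fin r → U) → T)
    (u : Fin r → GU U) : T := lim fun t => colU fun i => rep (u i) t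

theorem ucol_eq {r : ℕ} {T : Type} [Finite T] (colU : (Fin r → U) → T)
    (u : Fin r → GU U) (a : Fin r → ℕ → U) (h : ∀ i, ∀ᶠ t in (UF : Filter ℕ), rep (u i) t = a i t) :
    ∀ᶠ t in (UF : Filter ℕ), colU (fun i => a i t) = ucol colU u := by
  have h' : ∀ᶠ t in (UF : Filter ℕ), ∀ i, rep (u i) t = a i t := eventually_all.2 h
  filter_upwards [h', lim_spec fun t => colU fun i => rep (u i) t] with t h1 h2
  rw [ucol, ← h2]
  congr 1
  funext i
  exact (h1 i).symm

theorem ucol_spec {r : ℕ} {T : Type} [Finite T] (colU : (Fin r → U) → T) (u : Fin r → GU U) :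
    ∀ᶠ t in (UF : Filter ℕ), colU (fun i => rep (u i) t) = ucol colU u :=
  ucol_eq colU u _ fun _ => Eventually.of_forall fun _ => rfl

theorem sat_ucol {r : ℕ} {T : Type} [Finite T] (colU : (Fin r → U) → T) :
    Sat (ucol colU) := by
  classical
  intro V J _ _ S hS hF
  rcases isEmpty_or_nonempty J with hJ | hJ
  · obtain ⟨v, _⟩ := hF ∅
    exact ⟨v, fun j => (hJ.false j).elim⟩
  obtain ⟨e, he⟩ := exists_surjective_nat J
  have hv : ∀ n : ℕ, ∃ v : V → GU U, ∀ i ≤ n, v ∈ S (e i) := by
    intro n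
    obtain ⟨v, hv⟩ := hF ((Finset.range (n + 1)).image e)
    refine ⟨v, fun i hi => hv _ ?_⟩
    exact Finset.mem_image_of_mem e (Finset.mem_range.2 (by omega))
  choose w hw using hv
  choose A I hA hI hAI using fun i => hS (e i)
  let Good : ℕ → ℕ → ℕ → Prop := fun i n t => ∀ f : Fin r → A i ⊕ I i,
    colU (fun k => rep (Sum.elim (fun b : A i => (b : GU U)) (fun a : I i => w n a) (f k)) t) =
      ucol colU (Sum.elim (fun b : A i => (b : GU U)) (fun a : I i => w n a) ∘ f)
  have hGood : ∀ i n, ∀ᶠ t in (UF : Filter ℕ), Good i n t := by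
    intro i n
    have := (hA i).to_subtype
    have := (hI i).to_subtype
    exact eventually_all.2 fun f => ucol_spec colU
      (Sum.elim (fun b : A i => (b : GU U)) (fun a : I i => w n a) ∘ f)
  let P : ℕ → ℕ → Prop := fun t n => ∀ i ≤ n, Good i n t
  let g : ℕ → ℕ := fun t => Nat.findGreatest (P t) t
  have hg : ∀ n, ∀ᶠ t in (UF : Filter ℕ), n ≤ g t ∧ P t (g t) := by
    intro n
    have h1 : ∀ᶠ t in (UF : Filter ℕ), P t n := by
      have : ∀ᶠ t in (UF : Filter ℕ), ∀ i ∈ Set.Iic n, Good i n t :=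
        (Set.finite_Iic n).eventually_all.2 fun i _ => hGood i n
      exact this
    have h2 : ∀ᶠ t in (UF : Filter ℕ), n ≤ t := by
      have : ∀ᶠ t in (Filter.cofinite : Filter ℕ), n ≤ t := by
        rw [Nat.cofinite_eq_atTop]; exact eventually_ge_atTop n
      exact this.filter_mono (hyperfilter_le_cofinite)
    filter_upwards [h1, h2] with t ht1 ht2
    exact ⟨Nat.le_findGreatest ht2 ht1, Nat.findGreatest_spec ht2 ht1⟩
  let v : V → GU U := fun k => ((fun t => rep (w (g t) k) t : ℕ → U) : GU U)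
  refine ⟨v, fun j => ?_⟩
  obtain ⟨i, rfl⟩ := he j
  have hAf := (hA i).to_subtype
  have hIf := (hI i).to_subtype
  have key : ∀ᶠ t in (UF : Filter ℕ), ∀ f : Fin r → A i ⊕ I i,
      colU (fun k => Sum.elim (fun b : A i => rep (b : GU U) t)
        (fun a : I i => rep (w (g t) a) t) (f k)) =
      ucol colU (Sum.elim (fun b : A i => (b : GU U)) (fun a : I i => v a) ∘ f) := by
    refine eventually_all.2 fun f => ?_
    apply ucol_eq colU (Sum.elim (fun b : A i => (b : GU U)) (fun a : I i => v a) ∘ f)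
      (fun k t => Sum.elim (fun b : A i => rep (b : GU U) t)
        (fun a : I i => rep (w (g t) a) t) (f k))
    intro k
    rcases hk : f k with b | a
    · simp [hk]
    · simp only [Function.comp_apply, hk, Sum.elim_inr]
      exact rep_coe _
  obtain ⟨t, h1, h2, h3⟩ := (key.and (hg i)).exists
  apply hAI i (w (g t)) v _ (hw _ _ h2)
  rw [teq_iff]
  intro f
  rw [← h1 f, ← h3 i h2 f]
  congr 1
  funext k
  rcases f k with b | a <;> rfl

end SatAux

open SatAux

theorem exists_dom {r : ℕ} {U T : Type} [Finite T] [Nonempty U] (hr : 2 ≤ r)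
    (colU : (Fin r → U) → T)
    (heq : ∀ u v : Fin r → U, colU u = colU v → ∀ i j, u i = u j → v i = v j) :
    ∃ (M : Type) (col : (Fin r → M) → T) (δ : U → M), Dom col ∧ (∀ u, col (δ ∘ u) = colU u) ∧
      ∀ (n : ℕ) (u : Fin n → M), ∃ u' : Fin n → U, tp col u = tp colU u' := by
  refine ⟨GU U, ucol colU, fun b => ((fun _ => b : ℕ → U) : GU U), ?_, ?_, ?_⟩
  · refine ⟨hr, inferInstance, ?_, ?_, sat_ucol colU⟩
    · exact ⟨((fun _ => Classical.arbitrary U : ℕ → U) : GU U)⟩
    · intro u v huv i j hij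
      have h : ∀ᶠ t in (UF : Filter ℕ), rep (v i) t = rep (v j) t := by
        filter_upwards [ucol_spec colU u, ucol_spec colU v] with t h1 h2
        exact heq _ _ (h1.trans (huv.trans h2.symm)) i j (by rw [hij])
      rw [← coe_rep (v i), ← coe_rep (v j)]
      exact Germ.coe_eq.2 h
  · intro u
    obtain ⟨t, ht⟩ := (ucol_eq colU ((fun b => ((fun _ => b : ℕ → U) : GU U)) ∘ u)
      (fun i _ => u i) (fun i => rep_coe _)).exists
    exact ht.symm
  · intro n u
    have h : ∀ᶠ t in (UF : Filter ℕ), ∀ f : Fin r → Fin n,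
        colU (fun i => rep ((u ∘ f) i) t) = ucol colU (u ∘ f) :=
      eventually_all.2 fun f => ucol_spec colU (u ∘ f)
    obtain ⟨t, ht⟩ := h.exists
    refine ⟨fun i => rep (u i) t, ?_⟩
    funext f
    exact (ht f).symm

end Pool.Agent.Sib
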