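import Pool.Agent.Sib.Basic2
import Pool.Agent.Sib.Sat

/-!
# Coding of relational structures by colourings of `r`-tuples
-/

namespace Pool.Agent.Sib

open Set FirstOrder FirstOrder.Language FirstOrder.Language.Structure

/-- The colours: quantifier-free types of `r`-tuples. -/
abbrev Colr (L : FirstOrder.Language.{0, 0}) (r : ℕ) : Type :=
  ((s : Σ n, L.Relations n) → (Fin s.1 → Fin r) → Prop) × (Fin r → Fin r → Prop)

/-- The colouring of the `r`-tuples of an `L`-structure. -/
def colOf (L : FirstOrder.Language.{0, 0}) (r : ℕ) (M : Type) [L.Structure M] (u : Fin r → M) : Colr L r :=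
  (fun s t => RelMap s.2 (u ∘ t), fun i j => u i = u j)

variable {L : FirstOrder.Language.{0, 0}} {r : ℕ}

theorem finite_colr [Finite (Σ n, L.Relations n)] : Finite (Colr L r) := by
  unfold Colr
  infer_instance

variable {M N U : Type} [L.Structure M] [L.Structure N] [L.Structure U]

theorem colOf_comp (f : M ↪[L] N) (u : Fin r → M) :
    colOf L r N (f ∘ u) = colOf L r M u := by
  unfold colOf
  congr 1
  · funext s t
    exact propext (f.map_rel s.2 (u ∘ t))
  · funext i j
    exact propext f.injective.eq_iff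

theorem colOf_eq {u v : Fin r → M} (h : colOf L r M u = colOf L r M v) (i j : Fin r)
    (hij : u i = u j) : v i = v j := by
  have := congrFun (congrFun (congrArg Prod.snd h) i) j
  exact (Eq.to_iff this).1 hij

/-- A map between structures preserving the colours, from a nonempty structure, is an
embedding. -/
theorem exists_embedding [L.IsRelational] [Nonempty M] (hr : 2 ≤ r)
    (har : ∀ s : Σ n, L.Relations n, s.1 ≤ r) (f : M → N)
    (hf : ∀ u : Fin r → M, colOf L r N (f ∘ u) = colOf L r M u) :
    ∃ g : M ↪[L] N, ⇑g = f := by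
  obtain ⟨m₀⟩ := ‹Nonempty M›
  have hinj : Function.Injective f := by
    intro a b hab
    let u : Fin r → M := fun k => if (k : ℕ) = 0 then a else b
    have h1 := congrFun (congrFun (congrArg Prod.snd (hf u)) ⟨0, by omega⟩) ⟨1, by omega⟩
    have h2 : (f ∘ u) ⟨0, by omega⟩ = (f ∘ u) ⟨1, by omega⟩ := by simp [u, hab]
    have h3 : u ⟨0, by omega⟩ = u ⟨1, by omega⟩ := (Eq.to_iff h1).1 h2
    simpa [u] using h3
  refine ⟨⟨⟨f, hinj⟩, fun {n} g x => isEmptyElim g, fun {n} R x => ?_⟩, rfl⟩
  let u : Fin r → M := fun i => if h : (i : ℕ) < n then x ⟨i, h⟩ else m₀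
  let s : Fin n → Fin r := Fin.castLE (har ⟨n, R⟩)
  have hs : u ∘ s = x := by
    funext i
    simp [u, s]
  have h1 := congrFun (congrFun (congrArg Prod.fst (hf u)) ⟨n, R⟩) s
  have h2 : RelMap R ((f ∘ u) ∘ s) ↔ RelMap R (u ∘ s) := Eq.to_iff h1
  rw [hs] at h2
  rw [Function.comp_assoc, hs] at h2
  exact h2

/-- The induced structure on a subset. -/
@[reducible] def indStr [L.IsRelational] (S : Set M) : L.Structure S where
  funMap := fun {n} f => isEmptyElim f
  RelMap := fun {n} R x => RelMap R (fun i => (x i : M))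

attribute [local instance] indStr

/-- The inclusion of a subset. -/
def indIncl [L.IsRelational] (S : Set M) : S ↪[L] M :=
  ⟨⟨Subtype.val, Subtype.val_injective⟩, fun {n} f _ => isEmptyElim f, fun {n} R x => Iff.rfl⟩

theorem colOf_val [L.IsRelational] (S : Set M) (u : Fin r → S) :
    colOf L r S u = colOf L r M (fun i => (u i : M)) :=
  (colOf_comp (indIncl (L := L) S) u).symm

/-- Every embedding with range in `S` is an embedding into `S`. -/
theorem exists_codRestrict [L.IsRelational] (f : N ↪[L] M) (S : Set M) (hS : ∀ x, f x ∈ S) :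
    Nonempty (N ↪[L] S) :=
  ⟨⟨⟨fun x => ⟨f x, hS x⟩, fun a b h => f.injective (congrArg Subtype.val h)⟩,
    fun {n} g _ => isEmptyElim g, fun {n} R x => f.map_rel R x⟩⟩

/-- Every finite tuple of `N` is realised in `U`. -/
def Rlz (L : FirstOrder.Language.{0, 0}) (r : ℕ) (N U : Type) [L.Structure N] [L.Structure U] : Prop :=
  ∀ (n : ℕ) (t : Fin n → N), ∃ t' : Fin n → U, tp (colOf L r U) t' = tp (colOf L r N) t

theorem Rlz.trans {N U M : Type} [L.Structure N] [L.Structure U] [L.Structure M]
    (h : Rlz L r N U) (h' : Rlz L r U M) : Rlz L r N M := by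
  intro n t
  obtain ⟨t', ht'⟩ := h n t
  obtain ⟨t'', ht''⟩ := h' n t'
  exact ⟨t'', ht''.trans ht'⟩

/-- A realised finite nonempty set embeds. -/
theorem Rlz.exists_emb [L.IsRelational] (hr : 2 ≤ r)
    (har : ∀ s : Σ n, L.Relations n, s.1 ≤ r) (h : Rlz L r N U) (S : Set N) (hS : S.Finite)
    (hne : S.Nonempty) : Nonempty (S ↪[L] U) := by
  have := hS.to_subtype
  have := hne.to_subtype
  obtain ⟨n, ⟨e⟩⟩ := Finite.exists_equiv_fin S
  obtain ⟨t', ht'⟩ := h n (fun i => (e.symm i : N))
  obtain ⟨g, -⟩ := exists_embedding (L := L) (r := r) hr har (fun x : S => t' (e x)) (by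
    intro u
    have h1 := congrFun ht' (fun i => e (u i))
    unfold tp at h1
    rw [colOf_val]
    refine h1.trans (congrArg _ ?_)
    funext i
    simp)
  exact ⟨g⟩

/-- The class of finite structures embedding into `M`. -/
def ageOf (L : FirstOrder.Language.{0, 0}) (M : Type) [L.Structure M] :
    Set (CategoryTheory.Bundled.{0} L.Structure) :=
  {A | Finite A ∧ Nonempty (A ↪[L] M)}

theorem ageOf_subset_of_rlz [L.IsRelational] (hr : 2 ≤ r)
    (har : ∀ s : Σ n, L.Relations n, s.1 ≤ r) [Nonempty N] (h : Rlz L r N U) :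
    ageOf L N ⊆ ageOf L U := by
  rintro A ⟨hA, ⟨f⟩⟩
  refine ⟨hA, ?_⟩
  obtain ⟨n₀⟩ := ‹Nonempty N›
  obtain ⟨g⟩ := h.exists_emb hr har (insert n₀ (range f)) ((finite_range f).insert n₀)
    (insert_nonempty _ _)
  obtain ⟨f'⟩ := exists_codRestrict f (insert n₀ (range f)) (fun x => Or.inr (mem_range_self x))
  exact ⟨g.comp f'⟩

theorem rlz_of_ageOf_subset [L.IsRelational] (h : ageOf L N ⊆ ageOf L U) : Rlz L r N U := by
  intro n t
  have h1 : (CategoryTheory.Bundled.of (range t) : CategoryTheory.Bundled L.Structure) ∈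
      ageOf L N := ⟨(finite_range t).to_subtype, ⟨indIncl (range t)⟩⟩
  obtain ⟨-, ⟨f⟩⟩ := h h1
  refine ⟨fun i => f ⟨t i, mem_range_self i⟩, ?_⟩
  funext g
  unfold tp
  have h2 := colOf_comp (r := r) f (fun i => (⟨t (g i), mem_range_self _⟩ : range t))
  exact h2.trans (colOf_val (L := L) (range t) _)

/-- The universal domain as an `L`-structure. -/
theorem exists_domain [L.IsRelational] [Finite (Σ n, L.Relations n)] (hr : 2 ≤ r)
    (U : Type) [L.Structure U] [Nonempty U] :
    ∃ (M : Type) (_ : L.Structure M), Dom (colOf L r M) ∧ Rlz L r M U ∧ Rlz L r U M := by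
  have := finite_colr (L := L) (r := r)
  obtain ⟨M, col, δ, hD, hδ, hreal⟩ := exists_dom hr (colOf L r U)
    (fun u v h i j hij => colOf_eq h i j hij)
  -- `δ` is injective
  have hδi : Function.Injective δ := by
    intro a b hab
    let u : Fin r → U := fun k => if (k : ℕ) = 0 then a else b
    let w : Fin r → U := fun k => b
    have h1 : δ ∘ u = δ ∘ w := by
      funext k
      simp only [Function.comp, u, w]
      split_ifs
      · exact hab
      · rfl
    have h2 : colOf L r U w = colOf L r U u := by rw [← hδ, ← hδ, h1]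
    have h3 := colOf_eq h2 ⟨0, by omega⟩ ⟨1, by omega⟩ rfl
    simpa [u] using h3
  -- cross comparison of equalities
  have hcross : ∀ {ι : Type} [Finite ι] (u : ι → M), ∃ u' : ι → U,
      (∀ f : Fin r → ι, col (u ∘ f) = colOf L r U (u' ∘ f)) ∧ ∀ i j, u i = u j ↔ u' i = u' j := by
    intro ι _ u
    obtain ⟨n, ⟨e⟩⟩ := Finite.exists_equiv_fin ι
    obtain ⟨u', hu'⟩ := hreal n (u ∘ e.symm)
    have h1 : ∀ f : Fin r → ι, col (u ∘ f) = colOf L r U ((u' ∘ e) ∘ f) := by
      intro f
      have := congrFun hu' (e ∘ f)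
      unfold tp at this
      have h2 : (u ∘ e.symm) ∘ (e ∘ f) = u ∘ f := by
        funext i
        simp
      rw [h2] at this
      exact this
    refine ⟨u' ∘ e, h1, ?_⟩
    have h3 : tp col u = tp col (δ ∘ (u' ∘ e)) := by
      funext f
      unfold tp
      rw [h1 f, ← hδ]
      rfl
    intro i j
    rw [hD.tp_eq_iff h3 i j]
    exact hδi.eq_iff
  let strM : L.Structure M :=
    { funMap := fun {n} f => isEmptyElim f
      RelMap := fun {n} R t => ∃ (u : Fin r → M) (s : Fin n → Fin r), u ∘ s = t ∧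
        (col u).1 ⟨n, R⟩ s }
  have hcol : colOf L r M = col := by
    funext u
    obtain ⟨u', hu', heq⟩ := hcross u
    have hu0 : col u = colOf L r U u' := hu' id
    refine Prod.ext ?_ ?_
    · funext s t
      apply propext
      change (∃ (w : Fin r → M) (s' : Fin s.1 → Fin r), w ∘ s' = u ∘ t ∧
        (col w).1 ⟨s.1, s.2⟩ s') ↔ (col u).1 s t
      constructor
      · rintro ⟨w, s', h1, h2⟩
        obtain ⟨v', hv', hveq⟩ := hcross (Sum.elim u w)
        have e1 : col u = colOf L r U (v' ∘ Sum.inl) := hv' Sum.inl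
        have e2 : col w = colOf L r U (v' ∘ Sum.inr) := hv' Sum.inr
        rw [e1]
        rw [e2] at h2
        change RelMap s.2 ((v' ∘ Sum.inr) ∘ s') at h2
        change RelMap s.2 ((v' ∘ Sum.inl) ∘ t)
        convert h2 using 1
        funext i
        have := congrFun h1 i
        simp only [Function.comp] at this ⊢
        rw [← hveq]
        simpa using this.symm
      · intro h
        exact ⟨u, t, rfl, h⟩
    · funext i j
      apply propext
      change u i = u j ↔ (col u).2 i j
      rw [hu0]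
      exact heq i j
  refine ⟨M, strM, ?_, ?_, ?_⟩
  · rw [hcol]
    exact hD
  · intro n t
    obtain ⟨t', ht'⟩ := hreal n t
    exact ⟨t', by rw [hcol]; exact ht'.symm⟩
  · intro n t
    refine ⟨δ ∘ t, ?_⟩
    rw [hcol]
    funext f
    exact hδ (t ∘ f)

/-- A countable structure whose finite parts are realised in the domain embeds into it. -/
theorem exists_map (hD : Dom (colOf L r M)) [Countable N] (h : Rlz L r N M) :
    ∃ v : N → M, ∀ u : Fin r → N, colOf L r M (v ∘ u) = colOf L r N u := by
  classical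
  obtain ⟨v, hv⟩ := hD.sat N (Finset N)
    (fun F => {v | tp (colOf L r M) (fun i : F => v i) =
      tp (colOf L r N) (fun i : F => (i : N))})
    (fun F => isCond_of_inv (fun i : F => (i : N)) finite_empty
      (fun w => tp (colOf L r M) w = tp (colOf L r N) (fun i : F => (i : N)))
      (fun w w' hw hw1 => (teq_empty_iff.1 hw).symm.trans hw1)) (by
    intro F
    let S : Finset N := F.sup id
    obtain ⟨n, ⟨e⟩⟩ := Finite.exists_equiv_fin S
    obtain ⟨t', ht'⟩ := h n (fun i => (e.symm i : N))
    obtain ⟨m₀⟩ := hD.ne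
    refine ⟨fun x => if hx : x ∈ S then t' (e ⟨x, hx⟩) else m₀, ?_⟩
    intro F' hF'
    have hsub : F' ⊆ S := Finset.le_sup (f := id) hF'
    funext f
    have h1 := congrFun ht' (fun i => e ⟨(f i : N), hsub (f i).2⟩)
    unfold tp at h1 ⊢
    convert h1 using 2
    · funext i
      simp [hsub (f i).2]
    · funext i
      simp)
  refine ⟨v, fun u => ?_⟩
  have h1 := hv (Finset.univ.image u)
  have h2 := congrFun h1 (fun i => ⟨u i, Finset.mem_image_of_mem u (Finset.mem_univ i)⟩)
  exact h2

end Pool.Agent.Sib
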