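import Pool.Agent.Sib.Bound

/-!
# Module BIG: boundedly many free types, stationarity
-/

namespace Pool.Agent.Sib

open Set

variable {r : ℕ} {M T : Type} {col : (Fin r → M) → T}

/-- Two tuples with the same types with all `r`-tuples of a nonempty set have the same type over
this set. -/
theorem teq_of_forall_tp {ι : Type} {B : Set M} [hne : Nonempty B] {x x' : ι → M}
    (h : ∀ b : Fin r → B, tp col (Sum.elim (fun i => (b i : M)) x) =
      tp col (Sum.elim (fun i => (b i : M)) x')) : TEq col B x x' := by
  classical
  rw [teq_iff_forall]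
  intro u u' hu
  obtain ⟨b₀⟩ := hne
  have h1 := (teq_range_iff (fun i => ((if hi : u i ∈ B then (⟨u i, hi⟩ : B) else b₀ : B) : M))).2
    (h (fun i => if hi : u i ∈ B then (⟨u i, hi⟩ : B) else b₀))
  apply h1.elim
  intro i
  rcases hu i with ⟨h2, h3⟩ | h2
  · refine Or.inl ⟨h2, i, ?_⟩
    show ((if hi : u i ∈ B then (⟨u i, hi⟩ : B) else b₀ : B) : M) = u i
    rw [dif_pos h3]
  · exact Or.inr h2

theorem big_bound (hD : Dom col) (hU : ¬ Unb col 0 (Fin r)) :
    ∃ n, ∀ N B : Set M, B.Finite → ¬ Big col N B n := by
  classical
  have := hD.fin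
  have hMne := hD.ne
  unfold Unb at hU
  push Not at hU
  obtain ⟨m₀, L₀, hm₀⟩ := hU
  obtain ⟨n, hn⟩ : ∃ n, n = Nat.card ((Fin r → Fin r) → T) +
      Nat.card ((Fin r → Fin r ⊕ Fin r) → T) ^ m₀ + 1 := ⟨_, rfl⟩
  refine ⟨n, ?_⟩
  intro N B hB hBig
  obtain ⟨x, hx1, hx2⟩ := hBig
  rcases B.eq_empty_or_nonempty with hBe | hBne
  · -- types over the empty set
    subst hBe
    have hinj : Function.Injective (fun l : Fin n => tp col (x l)) := by
      intro l l' hl
      by_contra hne
      exact hx2 l l' hne (teq_empty_iff.2 hl)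
    have := Nat.card_le_card_of_injective _ hinj
    rw [Nat.card_fin] at this
    omega
  · have hBne' : Nonempty B := hBne.to_subtype
    let φ : (Fin r → B) → Fin n → ((Fin r → Fin r ⊕ Fin r) → T) :=
      fun b l => tp col (Sum.elim (fun i => (b i : M)) (x l))
    have hex : ∃ b : Fin m₀ → (Fin r → B), Function.Injective (fun i => φ (b i)) := by
      by_contra hcon
      have hlt : Nat.card (range φ) < m₀ := by
        by_contra hle
        push Not at hle
        have : Fintype (range φ) := Fintype.ofFinite _
        have hc : Fintype.card (Fin m₀) ≤ Fintype.card (range φ) := by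
          rw [Fintype.card_fin, ← Nat.card_eq_fintype_card]
          exact hle
        obtain ⟨e⟩ := Function.Embedding.nonempty_of_card_le hc
        apply hcon
        refine ⟨fun i => (e i).2.choose, ?_⟩
        intro i j hij
        simp only at hij
        rw [(e i).2.choose_spec, (e j).2.choose_spec] at hij
        exact e.injective (Subtype.ext hij)
      have hinj : Function.Injective (fun (l : Fin n) (ψ : range φ) => ψ.1 l) := by
        intro l l' hl
        by_contra hne
        apply hx2 l l' hne
        apply teq_of_forall_tp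
        intro b
        exact congrFun hl ⟨φ b, mem_range_self b⟩
      have h1 := Nat.card_le_card_of_injective _ hinj
      rw [Nat.card_fin, Nat.card_fun] at h1
      have hT : Nonempty ((Fin r → Fin r ⊕ Fin r) → T) := by
        obtain ⟨c⟩ := hMne
        exact ⟨fun _ => col (fun _ => c)⟩
      have h2 : Nat.card ((Fin r → Fin r ⊕ Fin r) → T) ^ Nat.card (range φ) ≤
          Nat.card ((Fin r → Fin r ⊕ Fin r) → T) ^ m₀ :=
        Nat.pow_le_pow_right Nat.card_pos hlt.le
      omega
    obtain ⟨b, hb⟩ := hex
    have key : ∀ i j : Fin m₀, i ≠ j → ∃ d : ℕ → Fin r → M,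
        (∀ ν, ¬ TEq col (range (d ν)) (fun s => (b i s : M)) (fun s => (b j s : M))) ∧
        ∀ ν ν', ν ≠ ν' → ∀ s s', d ν s ≠ d ν' s' := by
      intro i j hij
      have h1 : ∃ l, φ (b i) l ≠ φ (b j) l := by
        by_contra hcon
        push Not at hcon
        exact hij (hb (funext hcon))
      obtain ⟨l, hl⟩ := h1
      have h2 : ¬ TEq col (∅ ∪ range (x l)) (fun s => (b i s : M)) (fun s => (b j s : M)) := by
        rw [← teq_adjoin, teq_empty_iff]
        exact hl
      obtain ⟨d, hd1, _, hd3⟩ := exists_disj_seq
        (fun d : Fin r → M => ¬ TEq col (range d) (fun s => (b i s : M)) (fun s => (b j s : M)))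
        (by
          intro G hG
          obtain ⟨x', hx'1, hx'2⟩ := hx1 l G hG
          refine ⟨x', fun s => (hx'1 s).2, ?_⟩
          have h3 : TEq col (∅ ∪ (range (fun s => (b i s : M)) ∪ range (fun s => (b j s : M))))
              (x l) x' := by
            apply hx'2.mono
            rintro c (hc | ⟨s, rfl⟩ | ⟨s, rfl⟩)
            · exact absurd hc (by simp)
            · exact (b i s).2
            · exact (b j s).2
          rw [teq_exchange h3, empty_union] at h2
          exact h2) ∅ finite_empty
      exact ⟨d, hd1, hd3⟩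
    choose! d hd1 hd2 using key
    obtain ⟨i, j, hij, hbad⟩ := hm₀ Fin.elim0 (fun i s => (b i s : M)) (fun i j ν => d i j ν)
    have hr : range (Fin.elim0 : Fin 0 → M) = ∅ := range_eq_empty _
    obtain ⟨ν, ν', hνν, s, s', he⟩ := hbad (fun ν => by
      rw [hr, empty_union]
      exact hd1 i j hij ν)
    exact hd2 i j hij ν ν' (fun h => hνν (Fin.ext h)) s s' he

theorem stat (hD : Dom col) {ν : ℕ} (hmax : ∀ N B : Set M, B.Finite → ¬ Big col N B (ν + 1))
    {N Q B : Set M} (hQ : Big col N Q ν) (hQB : Q ⊆ B) (hB : B.Finite) {ι : Type} [Finite ι]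
    {x x' : ι → M} (hx : Free col N B x) (hx' : Free col N B x') (h : TEq col Q x x') :
    TEq col B x x' := by
  classical
  have main : ∀ x x' : Fin r → M, Free col N B x → Free col N B x' → TEq col Q x x' →
      TEq col B x x' := by
    intro x x' hx hx' h
    obtain ⟨xs, hxs1, hxs2⟩ := hQ
    have hQf : Q.Finite := hB.subset hQB
    -- the type of `x` over `Q` is one of the given ones
    have hi₀ : ∃ i₀, TEq col Q (xs i₀) x := by
      by_contra hcon
      push Not at hcon
      apply hmax N Q hQf
      refine ⟨Fin.cons x xs, ?_, ?_⟩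
      · intro i
        refine Fin.cases ?_ (fun j => ?_) i
        · simpa using hx.mono_base hQB
        · simpa using hxs1 j
      · intro i
        refine Fin.cases ?_ (fun i' => ?_) i
        · intro j
          refine Fin.cases ?_ (fun j' => ?_) j
          · intro hh; exact absurd rfl hh
          · intro _ hT
            simp only [Fin.cons_zero, Fin.cons_succ] at hT
            exact hcon j' hT.symm
        · intro j
          refine Fin.cases ?_ (fun j' => ?_) j
          · intro _ hT
            simp only [Fin.cons_zero, Fin.cons_succ] at hT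
            exact hcon i' hT
          · intro hh hT
            simp only [Fin.cons_succ] at hT
            exact hxs2 i' j' (fun he => hh (by rw [he])) hT
    obtain ⟨i₀, hi₀⟩ := hi₀
    by_contra hne
    have hext : ∀ j, ∃ y : Fin r → M, TEq col Q (xs j) y ∧ Free col N B y := by
      intro j
      obtain ⟨y, _, h2, h3⟩ := (hxs1 j).exists_ext hD hB ∅ finite_empty
      exact ⟨y, h2, h3⟩
    choose y hy1 hy2 using hext
    set w : Fin ν → Fin r → M := Function.update y i₀ x' with hw
    have hw1 : ∀ j, TEq col Q (xs j) (w j) := by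
      intro j
      by_cases hj : j = i₀
      · subst hj
        simp only [hw, Function.update_self]
        exact hi₀.trans h
      · simp only [hw, Function.update_of_ne hj]
        exact hy1 j
    have hw2 : ∀ j, Free col N B (w j) := by
      intro j
      by_cases hj : j = i₀
      · subst hj
        simp only [hw, Function.update_self]
        exact hx'
      · simp only [hw, Function.update_of_ne hj]
        exact hy2 j
    have hw3 : ∀ j, ¬ TEq col B x (w j) := by
      intro j hT
      by_cases hj : j = i₀
      · subst hj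
        simp only [hw, Function.update_self] at hT
        exact hne hT
      · apply hxs2 i₀ j (fun he => hj he.symm)
        exact (hi₀.trans (hT.mono hQB)).trans (hw1 j).symm
    have hw4 : ∀ i j, i ≠ j → ¬ TEq col B (w i) (w j) := by
      intro i j hij hT
      exact hxs2 i j hij (((hw1 i).trans (hT.mono hQB)).trans (hw1 j).symm)
    apply hmax N B hB
    refine ⟨Fin.cons x w, ?_, ?_⟩
    · intro i
      refine Fin.cases ?_ (fun j => ?_) i
      · simpa using hx
      · simpa using hw2 j
    · intro i
      refine Fin.cases ?_ (fun i' => ?_) i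
      · intro j
        refine Fin.cases ?_ (fun j' => ?_) j
        · intro hh; exact absurd rfl hh
        · intro _ hT
          simp only [Fin.cons_zero, Fin.cons_succ] at hT
          exact hw3 j' hT
      · intro j
        refine Fin.cases ?_ (fun j' => ?_) j
        · intro _ hT
          simp only [Fin.cons_zero, Fin.cons_succ] at hT
          exact hw3 i' hT.symm
        · intro hh hT
          simp only [Fin.cons_succ] at hT
          exact hw4 i' j' (fun he => hh (by rw [he])) hT
  rcases isEmpty_or_nonempty ι with he | hne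
  · have : x = x' := Subsingleton.elim _ _
    rw [this]
    exact TEq.refl _ _
  · exact teq_local (fun g => main _ _ (hx.comp g) (hx'.comp g) (h.comp g))

theorem exists_ctx (hD : Dom col) (hU : ∀ a k, ¬ Unb col a (Fin k)) :
    ∃ Q ν H, Ctx col Q ν H := by
  classical
  obtain ⟨n₀, hn₀⟩ := big_bound hD (hU 0 r)
  let P : ℕ → Prop := fun n => ∃ B : Set M, B.Finite ∧ Big col univ B n
  have hP0 : P 0 := ⟨∅, finite_empty, Fin.elim0, fun i => i.elim0, fun i => i.elim0⟩
  have h1 : P (Nat.findGreatest P n₀) := Nat.findGreatest_spec (Nat.zero_le n₀) hP0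
  have h2 : Nat.findGreatest P n₀ ≤ n₀ := Nat.findGreatest_le n₀
  set ν := Nat.findGreatest P n₀ with hν
  have h3 : ν ≠ n₀ := by
    intro he
    rw [he] at h1
    obtain ⟨B, hB, hBig⟩ := h1
    exact hn₀ univ B hB hBig
  have h4 : ¬ P (ν + 1) :=
    Nat.findGreatest_is_greatest (P := P) (n := n₀) (Nat.lt_succ_self _)
      (by
        change ν + 1 ≤ n₀
        omega)
  obtain ⟨Q, hQ, hQB⟩ := h1
  obtain ⟨H, hH1, hH2, hH3⟩ := exists_H hD (fun a => hU a r)
  refine ⟨Q, ν, H, ⟨hD, hU, hQ, hQB, ?_, hH1, hH2, hH3⟩⟩
  rintro N B hB ⟨x, hx1, hx2⟩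
  exact h4 ⟨B, hB, x, fun i => (hx1 i).mono_set (subset_univ N), hx2⟩

end Pool.Agent.Sib
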