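import Pool.Agent.Sib.TightB

/-!
# Long chains of tight sets and systems of strips
-/

namespace Pool.Agent.Sib

open Set

variable {r : ℕ} {M T : Type} {col : (Fin r → M) → T} {Q : Set M} {ν : ℕ} {H : Set M → Set M}




/-! ### Chains -/

theorem Tight.finite {Mm e : Set M} (h : Tight col Q Mm e) : e.Finite :=
  finite_of_encard_le_coe h.2.1

theorem rch_mem {Mm : Set M} {a b : M} (ha : a ∈ Mm) : ∀ {n : ℕ}, Rch col Q Mm n a b → b ∈ Mm
  | 0, h => by
    have : a = b := h
    exact this ▸ ha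
  | n + 1, h => by
    obtain ⟨c, -, e, he, -, hb⟩ := h
    exact he.2.2.1 hb

theorem rch_succ (hC : Ctx col Q ν H) {a b : M} (ha : a ∉ H Q) {n : ℕ}
    (h : Rch col Q (H Q)ᶜ n a b) : Rch col Q (H Q)ᶜ (n + 1) a b :=
  ⟨b, h, {b}, tight_singleton hC (rch_mem (Mm := (H Q)ᶜ) ha h), rfl, rfl⟩

theorem rch_mono (hC : Ctx col Q ν H) {a b : M} (ha : a ∉ H Q) {n n' : ℕ} (hn : n ≤ n')
    (h : Rch col Q (H Q)ᶜ n a b) : Rch col Q (H Q)ᶜ n' a b := by
  induction n', hn using Nat.le_induction with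
  | base => exact h
  | succ k _ ih => exact rch_succ hC ha ih

/-- A path of tight sets. -/
theorem rch_path {Mm : Set M} {a : M} : ∀ {n : ℕ} {b : M}, Rch col Q Mm n a b →
    ∃ (p : ℕ → M) (e : ℕ → Set M), p 0 = a ∧ p n = b ∧
      ∀ j < n, Tight col Q Mm (e j) ∧ p j ∈ e j ∧ p (j + 1) ∈ e j
  | 0, b, h => by
    have h' : a = b := h
    exact ⟨fun _ => a, fun _ => ∅, rfl, h', fun j hj => absurd hj (Nat.not_lt_zero _)⟩
  | n + 1, b, h => by
    classical
    obtain ⟨c, h1, e₀, he₀, hc, hb⟩ := h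
    obtain ⟨p, e, hp0, hpn, hpe⟩ := rch_path h1
    refine ⟨fun j => if j = n + 1 then b else p j, fun j => if j = n then e₀ else e j, ?_, ?_, ?_⟩
    · simp [hp0]
    · simp
    · intro j hj
      rcases Nat.lt_succ_iff_lt_or_eq.1 hj with h2 | h2
      · obtain ⟨h3, h4, h5⟩ := hpe j h2
        have e1 : j ≠ n + 1 := by omega
        have e2 : j ≠ n := by omega
        have e3 : j + 1 ≠ n + 1 := by omega
        simp only [e1, e2, e3, if_false]
        exact ⟨h3, h4, h5⟩
      · subst h2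
        have e1 : j ≠ j + 1 := by omega
        simp only [e1, if_false, if_true]
        exact ⟨he₀, hpn ▸ hc, hb⟩

theorem rch_of_path {Mm : Set M} {p : ℕ → M} {e : ℕ → Set M} {n : ℕ}
    (hpe : ∀ j < n, Tight col Q Mm (e j) ∧ p j ∈ e j ∧ p (j + 1) ∈ e j) {a : M} {i j k : ℕ}
    (h : Rch col Q Mm i a (p j)) (hk : j + k ≤ n) : Rch col Q Mm (i + k) a (p (j + k)) := by
  induction k with
  | zero => exact h
  | succ k ih =>
    obtain ⟨h3, h4, h5⟩ := hpe (j + k) (by omega)
    exact ⟨p (j + k), ih (by omega), e (j + k), h3, h4, h5⟩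

theorem exists_chain (hC : Ctx col Q ν H) (h : ¬ BddRch col Q (H Q)ᶜ) (n : ℕ) :
    ∃ e : ℕ → Set M, (∀ j, j < n → Tight col Q (H Q)ᶜ (e j)) ∧
      (∀ j, j + 1 < n → (e j ∩ e (j + 1)).Nonempty) ∧
      ∀ i j, i + 3 ≤ j → j < n → ∀ e', Tight col Q (H Q)ᶜ e' → (e' ∩ e i).Nonempty →
        (e' ∩ e j).Nonempty → False := by
  unfold BddRch at h
  push Not at h
  obtain ⟨a, ha, b, hab, hab'⟩ := h n
  have ha' : a ∉ H Q := ha
  obtain ⟨p, e, hp0, hpn, hpe⟩ := rch_path hab
  have hR0 : Rch col Q (H Q)ᶜ 0 a (p 0) := by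
    change a = p 0
    exact hp0.symm
  have hR : ∀ j ≤ n + 1, Rch col Q (H Q)ᶜ j a (p j) := by
    intro j hj
    have := rch_of_path hpe hR0 (k := j) (by omega)
    simpa using this
  have hN : ∀ i j, i < j → j ≤ n + 1 → ¬ Rch col Q (H Q)ᶜ i a (p j) := by
    intro i j hij hj hr
    have h1 := rch_of_path hpe hr (k := n + 1 - j) (by omega)
    have e1 : j + (n + 1 - j) = n + 1 := by omega
    rw [e1, hpn] at h1
    exact hab' (rch_mono hC ha' (by omega) h1)
  refine ⟨e, fun j hj => (hpe j (by omega)).1, fun j hj => ?_, ?_⟩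
  · exact ⟨p (j + 1), (hpe j (by omega)).2.2, (hpe (j + 1) (by omega)).2.1⟩
  · rintro i j hij hj e' he' ⟨u, hu1, hu2⟩ ⟨w, hw1, hw2⟩
    apply hN (i + 3) (j + 1) (by omega) (by omega)
    obtain ⟨h3, h4, h5⟩ := hpe i (by omega)
    obtain ⟨h3', h4', h5'⟩ := hpe j (by omega)
    exact ⟨w, ⟨u, ⟨p i, hR i (by omega), e i, h3, h4, hu2⟩, e', he', hu1, hw1⟩, e j, h3', hw2, h5'⟩

/-- Long chains avoiding a finite set. -/
theorem exists_chain_avoid (hC : Ctx col Q ν H) (h : ¬ BddRch col Q (H Q)ᶜ) {G : Set M}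
    (hG : G.Finite) : ∀ n : ℕ,
    ∃ e : ℕ → Set M, (∀ j, j < n → Tight col Q (H Q)ᶜ (e j)) ∧
      (∀ j, j + 1 < n → (e j ∩ e (j + 1)).Nonempty) ∧
      (∀ i j, i + 3 ≤ j → j < n → ∀ e', Tight col Q (H Q)ᶜ e' → (e' ∩ e i).Nonempty →
        (e' ∩ e j).Nonempty → False) ∧ ∀ j, j < n → ∀ g ∈ G, g ∉ e j := by
  induction G, hG using Set.Finite.induction_on with
  | empty =>
    intro n
    obtain ⟨e, h1, h2, h3⟩ := exists_chain hC h n
    exact ⟨e, h1, h2, h3, fun j _ g hg => absurd hg (notMem_empty g)⟩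
  | @insert g G _ _ ih =>
    intro n
    obtain ⟨e, h1, h2, h3, h4⟩ := ih (2 * n + 3)
    by_cases hw : ∃ w < n, g ∈ e w
    · obtain ⟨w, hw, hgw⟩ := hw
      refine ⟨fun j => e (j + (n + 2)), fun j hj => h1 _ (by omega), fun j hj => ?_, ?_, ?_⟩
      · have := h2 (j + (n + 2)) (by omega)
        have e1 : j + 1 + (n + 2) = j + (n + 2) + 1 := by omega
        change (e (j + (n + 2)) ∩ e (j + 1 + (n + 2))).Nonempty
        rw [e1]
        exact this
      · intro i j hij hj e' he' h5 h6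
        exact h3 (i + (n + 2)) (j + (n + 2)) (by omega) (by omega) e' he' h5 h6
      · intro j hj g' hg' hge
        rcases hg' with rfl | hg'
        · exact h3 w (j + (n + 2)) (by omega) (by omega) (e w) (h1 w (by omega))
            ⟨g', hgw, hgw⟩ ⟨g', hgw, hge⟩
        · exact h4 (j + (n + 2)) (by omega) g' hg' hge
    · push Not at hw
      refine ⟨e, fun j hj => h1 _ (by omega), fun j hj => h2 _ (by omega), ?_, ?_⟩
      · intro i j hij hj
        exact h3 i j hij (by omega)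
      · intro j hj g' hg' hge
        rcases hg' with rfl | hg'
        · exact hw j hj hge
        · exact h4 j (by omega) g' hg' hge

/-- Finitely many long chains, mutually separated, avoiding a finite set. -/
theorem exists_chains (hC : Ctx col Q ν H) (h : ¬ BddRch col Q (H Q)ᶜ) (n : ℕ) {G : Set M}
    (hG : G.Finite) : ∀ m : ℕ,
    ∃ e : ℕ → ℕ → Set M, (∀ s < m, ∀ j < n, Tight col Q (H Q)ᶜ (e s j)) ∧
      (∀ s < m, ∀ j, j + 1 < n → (e s j ∩ e s (j + 1)).Nonempty) ∧
      (∀ s < m, ∀ s' < m, ∀ i < n, ∀ j < n, (s ≠ s' ∨ i + 3 ≤ j) →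
        ∀ e', Tight col Q (H Q)ᶜ e' → (e' ∩ e s i).Nonempty → (e' ∩ e s' j).Nonempty → False) ∧
      ∀ s < m, ∀ j < n, ∀ g ∈ G, g ∉ e s j
  | 0 => ⟨fun _ _ => ∅, fun s hs => absurd hs (Nat.not_lt_zero _),
      fun s hs => absurd hs (Nat.not_lt_zero _), fun s hs => absurd hs (Nat.not_lt_zero _),
      fun s hs => absurd hs (Nat.not_lt_zero _)⟩
  | m + 1 => by
    classical
    obtain ⟨e, h1, h2, h3, h4⟩ := exists_chains hC h n hG m
    set P : Set M := ⋃ s ∈ Iio m, ⋃ j ∈ Iio n, e s j with hP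
    have hPf : P.Finite := by
      apply (finite_Iio m).biUnion
      intro s hs
      apply (finite_Iio n).biUnion
      intro j hj
      exact (h1 s hs j hj).finite
    have hPm : ∀ s < m, ∀ j < n, e s j ⊆ P := by
      intro s hs j hj u hu
      simp only [hP, mem_iUnion]
      exact ⟨s, hs, j, hj, hu⟩
    set G' : Set M := ⋃₀ {e | Tight col Q (H Q)ᶜ e ∧ (e ∩ P).Nonempty} with hG'
    have hG'f : G'.Finite := (tight_finite hC hPf).sUnion (fun e' he' => he'.1.finite)
    obtain ⟨e₀, k1, k2, k3, k4⟩ := exists_chain_avoid hC h (hG.union hG'f) n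
    have key : ∀ s < m, ∀ i < n, ∀ j < n, ∀ e', Tight col Q (H Q)ᶜ e' →
        (e' ∩ e s i).Nonempty → (e' ∩ e₀ j).Nonempty → False := by
      rintro s hs i hi j hj e' he' ⟨u, hu1, hu2⟩ ⟨w, hw1, hw2⟩
      apply k4 j hj w (Or.inr ?_) hw2
      exact ⟨e', ⟨he', ⟨u, hu1, hPm s hs i hi hu2⟩⟩, hw1⟩
    refine ⟨fun s => if s = m then e₀ else e s, ?_, ?_, ?_, ?_⟩
    · intro s hs j hj
      rcases Nat.lt_succ_iff_lt_or_eq.1 hs with h5 | rfl
      · simp only [h5.ne, if_false]; exact h1 s h5 j hj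
      · simp only [if_true]; exact k1 j hj
    · intro s hs j hj
      rcases Nat.lt_succ_iff_lt_or_eq.1 hs with h5 | rfl
      · simp only [h5.ne, if_false]; exact h2 s h5 j hj
      · simp only [if_true]; exact k2 j hj
    · intro s hs s' hs' i hi j hj hss e' he' hu hw
      rcases Nat.lt_succ_iff_lt_or_eq.1 hs with h5 | rfl
      · simp only [h5.ne, if_false] at hu
        rcases Nat.lt_succ_iff_lt_or_eq.1 hs' with h6 | rfl
        · simp only [h6.ne, if_false] at hw
          exact h3 s h5 s' h6 i hi j hj hss e' he' hu hw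
        · simp only [if_true] at hw
          exact key s h5 i hi j hj e' he' hu hw
      · simp only [if_true] at hu
        rcases Nat.lt_succ_iff_lt_or_eq.1 hs' with h6 | h6
        · simp only [h6.ne, if_false] at hw
          exact key s' h6 j hj i hi e' he' hw hu
        · subst h6
          simp only [if_true] at hw
          rcases hss with hss | hss
          · exact hss rfl
          · exact k3 i j hss hj e' he' hu hw
    · intro s hs j hj g hg
      rcases Nat.lt_succ_iff_lt_or_eq.1 hs with h5 | rfl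
      · simp only [h5.ne, if_false]; exact h4 s h5 j hj g hg
      · simp only [if_true]; exact k4 j hj g (Or.inl hg)

/-- A tight set is the range of an `r`-tuple. -/
theorem Tight.exists_range {Mm e : Set M} (h : Tight col Q Mm e) :
    ∃ w : Fin r → M, range w = e := by
  classical
  obtain ⟨hne, hcard, -, -⟩ := h
  have hf : e.Finite := finite_of_encard_le_coe hcard
  have := hf.fintype
  have hc : Fintype.card e ≤ Fintype.card (Fin r) := by
    have h1 : e.encard = (Fintype.card e : ℕ∞) := by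
      rw [Set.encard_eq_coe_toFinset_card, Set.toFinset_card]
    rw [h1] at hcard
    rw [Fintype.card_fin]
    exact Nat.cast_le.1 hcard
  obtain ⟨f⟩ := Function.Embedding.nonempty_of_card_le hc
  have : Nonempty e := hne.to_subtype
  refine ⟨fun i => (Function.invFun f i : e), ?_⟩
  ext u
  constructor
  · rintro ⟨i, rfl⟩
    exact (Function.invFun f i : e).2
  · intro hu
    refine ⟨f ⟨u, hu⟩, ?_⟩
    change ((Function.invFun f (f ⟨u, hu⟩) : e) : M) = u
    rw [Function.leftInverse_invFun f.injective]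

/-- The conditions describing strips, up to level `n`. -/
def SP (col : (Fin r → M) → T) (Q : Set M) (H : Set M → Set M) (c : ℕ → M) (m n : ℕ)
    (v : Fin m × ℕ × Fin r → M) : Prop :=
  (∀ s j, j ≤ n → Tight col Q (H Q)ᶜ (range fun l => v (s, j, l))) ∧
  (∀ s j, j ≤ n → ∃ l l', v (s, j, l) = v (s, j + 1, l')) ∧
  (∀ s j l t, j ≤ n → t ≤ n → v (s, j, l) ≠ c t) ∧
  ∀ s s' i j, i ≤ n → j ≤ n → (s ≠ s' ∨ i + 3 ≤ j) → ∀ f : Fin r → Fin m × ℕ × Fin r,
    (∀ a, (f a).2.1 ≤ n) → Tight col Q (H Q)ᶜ (range fun a => v (f a)) →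
    ∀ a l a' l', v (f a) = v (s, i, l) → v (f a') = v (s', j, l') → False

theorem isCond_SP (hC : Ctx col Q ν H) (c : ℕ → M) (m n : ℕ) :
    IsCond col {v | SP col Q H c m n v} := by
  have hD := hC.dom
  refine ⟨(Q ∪ H Q) ∪ c '' Iic n, {a | a.2.1 ≤ n + 1},
    (hC.Qfin.union (hC.Hfin _ hC.Qfin)).union ((finite_Iic n).image c), ?_, ?_⟩
  · have : ({a | a.2.1 ≤ n + 1} : Set (Fin m × ℕ × Fin r)) =
        univ ×ˢ (Iic (n + 1) ×ˢ univ) := by
      ext ⟨s, j, l⟩
      simp
    rw [this]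
    exact finite_univ.prod ((finite_Iic _).prod finite_univ)
  · intro v v' hT hv
    obtain ⟨h1, h2, h3, h4⟩ := hv
    have hT1 : ∀ {κ : Type} (g : κ → Fin m × ℕ × Fin r), (∀ k, (g k).2.1 ≤ n + 1) →
        TEq col (Q ∪ H Q) (fun k => v (g k)) (fun k => v' (g k)) := by
      intro κ g hg
      exact (hT.mono subset_union_left).comp
        (fun k => (⟨g k, hg k⟩ : {a : Fin m × ℕ × Fin r | a.2.1 ≤ n + 1}))
    have hE : ∀ a b : Fin m × ℕ × Fin r, a.2.1 ≤ n + 1 → b.2.1 ≤ n + 1 →
        (v a = v b ↔ v' a = v' b) := by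
      intro a b ha hb
      exact hT.eq_iff hD ⟨a, ha⟩ ⟨b, hb⟩
    refine ⟨?_, ?_, ?_, ?_⟩
    · intro s j hj
      exact tight_inv hC (hT1 (fun l : Fin r => (s, j, l)) (fun _ => by simp; omega)) (h1 s j hj)
    · intro s j hj
      obtain ⟨l, l', hl⟩ := h2 s j hj
      exact ⟨l, l', (hE _ _ (by simp; omega) (by simp; omega)).1 hl⟩
    · intro s j l t hj ht he
      have hmem : c t ∈ (Q ∪ H Q) ∪ c '' Iic n := Or.inr ⟨t, ht, rfl⟩
      exact h3 s j l t hj ht ((hT.eq_mem_iff hD hmem ⟨(s, j, l), by simp; omega⟩).2 he)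
    · intro s s' i j hi hj hss f hf ht a l a' l' ha ha'
      have ht' : Tight col Q (H Q)ᶜ (range fun a => v (f a)) :=
        tight_inv hC (hT1 f (fun k => (hf k).trans (Nat.le_succ n))).symm ht
      exact h4 s s' i j hi hj hss f hf ht' a l a' l'
        ((hE _ _ ((hf a).trans (Nat.le_succ n)) (by simp; omega)).2 ha)
        ((hE _ _ ((hf a').trans (Nat.le_succ n)) (by simp; omega)).2 ha')

theorem exists_strips (hC : Ctx col Q ν H) (h : ¬ BddRch col Q (H Q)ᶜ) (m : ℕ) {C : Set M}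
    (hCc : C.Countable) :
    ∃ e : Fin m → ℕ → Set M, StripSys col Q (H Q)ᶜ m e ∧ Disjoint (Strips m e) C := by
  classical
  have hD := hC.dom
  obtain ⟨c₀⟩ := hD.ne
  obtain ⟨c, hc⟩ := (hCc.insert c₀).exists_eq_range (insert_nonempty c₀ C)
  obtain ⟨v, hv⟩ := hD.sat_seq (V := Fin m × ℕ × Fin r) (fun n => {v | SP col Q H c m n v})
    (fun n => isCond_SP hC c m n) (by
      intro n
      obtain ⟨e, h1, h2, h3, h4⟩ := exists_chains hC h (n + 2) ((finite_Iic n).image c) m
      have hex : ∀ s < m, ∀ j < n + 2, ∃ w : Fin r → M, range w = e s j :=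
        fun s hs j hj => (h1 s hs j hj).exists_range
      have : ∃ w : Fin m → ℕ → Fin r → M, ∀ s j, j < n + 2 → range (w s j) = e s j := by
        have : ∀ (s : Fin m) (j : ℕ), ∃ w : Fin r → M, j < n + 2 → range w = e s j := by
          intro s j
          by_cases hj : j < n + 2
          · obtain ⟨w, hw⟩ := hex s s.2 j hj
            exact ⟨w, fun _ => hw⟩
          · exact ⟨fun _ => c₀, fun h => absurd h hj⟩
        choose w hw using this
        exact ⟨w, hw⟩
      obtain ⟨w, hw⟩ := this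
      refine ⟨fun a => w a.1 a.2.1 a.2.2, ?_⟩
      intro k hk
      refine ⟨?_, ?_, ?_, ?_⟩
      · intro s j hj
        have : (range fun l => w s j l) = e s j := hw s j (by omega)
        change Tight col Q (H Q)ᶜ (range fun l => w s j l)
        rw [this]
        exact h1 s s.2 j (by omega)
      · intro s j hj
        obtain ⟨u, hu1, hu2⟩ := h2 s s.2 j (by omega)
        rw [← hw s j (by omega)] at hu1
        rw [← hw s (j + 1) (by omega)] at hu2
        obtain ⟨l, hl⟩ := hu1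
        obtain ⟨l', hl'⟩ := hu2
        exact ⟨l, l', hl.trans hl'.symm⟩
      · intro s j l t hj ht he
        apply h4 s s.2 j (by omega) (c t) ⟨t, by simp; omega, rfl⟩
        rw [← hw s j (by omega), ← he]
        exact mem_range_self l
      · intro s s' i j hi hj hss f hf ht a l a' l' ha ha'
        have hss' : (s : ℕ) ≠ s' ∨ i + 3 ≤ j := hss.imp (fun h h' => h (Fin.ext h')) id
        refine h3 s s.2 s' s'.2 i (by omega) j (by omega) hss' _ ht ⟨_, mem_range_self a, ?_⟩
          ⟨_, mem_range_self a', ?_⟩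
        · rw [← hw s i (by omega)]
          simp only at ha ⊢
          rw [ha]
          exact mem_range_self l
        · rw [← hw s' j (by omega)]
          simp only at ha' ⊢
          rw [ha']
          exact mem_range_self l')
  refine ⟨fun s j => range fun l => v (s, j, l), ⟨?_, ?_, ?_⟩, ?_⟩
  · intro s j
    exact (hv j).1 s j le_rfl
  · intro s j
    obtain ⟨l, l', hl⟩ := (hv j).2.1 s j le_rfl
    exact ⟨v (s, j, l), mem_range_self l, hl ▸ mem_range_self l'⟩
  · rintro s s' i j hss e' he' hsub ⟨u, hu1, l, hl⟩ ⟨u', hu1', l', hl'⟩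
    obtain ⟨w, hw⟩ := he'.exists_range
    have hf : ∀ a : Fin r, ∃ b : Fin m × ℕ × Fin r, v b = w a := by
      intro a
      have : w a ∈ Strips m (fun s j => range fun l => v (s, j, l)) :=
        hsub (hw ▸ mem_range_self a)
      simp only [Strips, mem_iUnion, mem_range] at this
      obtain ⟨s₁, j₁, l₁, h₁⟩ := this
      exact ⟨(s₁, j₁, l₁), h₁⟩
    choose f hf using hf
    have hfw : (fun a => v (f a)) = w := funext hf
    rw [← hw] at hu1 hu1'
    obtain ⟨a, ha⟩ := hu1
    obtain ⟨a', ha'⟩ := hu1'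
    set n := max (max i j) (Finset.univ.sup fun a : Fin r => (f a).2.1) with hn
    refine (hv n).2.2.2 s s' i j ?_ ?_ hss f ?_ (by rw [hfw, hw]; exact he') a l a' l' ?_ ?_
    · exact (le_max_left _ _).trans (le_max_left _ _)
    · exact (le_max_right _ _).trans (le_max_left _ _)
    · intro b
      exact (Finset.le_sup (f := fun a : Fin r => (f a).2.1) (Finset.mem_univ b)).trans
        (le_max_right _ _)
    · rw [hf, ha]; exact hl.symm
    · rw [hf, ha']; exact hl'.symm
  · rw [Set.disjoint_left]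
    intro u hu huC
    simp only [Strips, mem_iUnion, mem_range] at hu
    obtain ⟨s, j, l, hl⟩ := hu
    have : u ∈ range c := hc ▸ Or.inr huC
    obtain ⟨t, ht⟩ := this
    exact (hv (max j t)).2.2.1 s j l t (le_max_left _ _) (le_max_right _ _) (hl.trans ht.symm)

end Pool.Agent.Sib
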