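import Pool.Agent.Sib.Build
import Pool.Agent.Sib.Strips

/-!
# The whole system of the bounded case
-/

namespace Pool.Agent.Sib

open Set

variable {r : ℕ} {M T : Type} {col : (Fin r → M) → T}

section Build

variable {Q : Set M} {ν : ℕ} {H : Set M → Set M}

/-- Assembly: the whole system. -/
theorem exists_sys (hC : Ctx col Q ν H) (h : ¬ BddRch col Q (H Q)ᶜ) (m : ℕ) :
    ∃ (E : ℕ → Set M) (e : Fin m → ℕ → Set M), Sys col Q H (Ker col univ) E m e := by
  obtain ⟨E, hE⟩ := exists_base hC
  have hKc : (Ker col (univ : Set M)).Countable := ker_countable hC.dom full_univ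
  have hc : (Ker col univ ∪ Q ∪ ⋃ l, E l).Countable :=
    (hKc.union hC.Qfin.countable).union (countable_iUnion (fun l => (hE.fin l).countable))
  obtain ⟨C, hCc, hCp⟩ := exists_far hC hc
  obtain ⟨e, he, hd⟩ := exists_strips hC h m hCc
  refine ⟨E, e, ⟨hE, he, ?_, ?_⟩⟩
  · intro B hBf hB
    exact hd.mono_right (hCp B hB hBf).1
  · intro z hz hzs
    refine (hCp Q ?_ hC.Qfin).2 z hz (hd.mono_left hzs)
    exact fun b hb => Or.inl (Or.inr hb)

end Build

end Pool.Agent.Sib
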