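import Pool.Agent.Sib.Basic2

/-!
# Cellularity from twins
-/

namespace Pool.Agent.Sib

open Set

variable {r : ℕ} {M T : Type} {col : (Fin r → M) → T}

/-- If exchanging two cells of the same kind preserves types over the rest, then every permutation
of the cells preserves types. -/
theorem cell_swap {n : ℕ} {k : Fin n → ℕ} (c : (Σ i : Fin n, ℕ × Fin (k i)) → M) (K : Set M)
    (hstep : ∀ (i : Fin n) (j j' : ℕ), j ≠ j' →
      TEq col {b | b ∈ K ∨ ∃ s : (Σ i : Fin n, ℕ × Fin (k i)), c s = b ∧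
          ¬ (s.1 = i ∧ (s.2.1 = j ∨ s.2.1 = j'))}
        (fun l : Fin (k i) => c ⟨i, j, l⟩) (fun l : Fin (k i) => c ⟨i, j', l⟩))
    (σ : Fin n → Equiv.Perm ℕ) (g : M → M) (hgK : ∀ b ∈ K, g b = b)
    (hgc : ∀ i j l, g (c ⟨i, j, l⟩) = c ⟨i, σ i j, l⟩) : PE col (K ∪ range c) g := by
  classical
  intro u hu
  have hw : ∀ a, ∃ w : M ⊕ (Σ i : Fin n, ℕ × Fin (k i)), (∀ b, w = Sum.inl b → b ∈ K) ∧
      u a = Sum.elim id c w := by
    intro a
    rcases hu a with h | ⟨s, hs⟩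
    · exact ⟨Sum.inl (u a), by rintro b h'; rw [← Sum.inl.inj h']; exact h, rfl⟩
    · exact ⟨Sum.inr s, by simp, hs.symm⟩
  choose w hwK hwu using hw
  let act : (Fin n → ℕ → ℕ) → (M ⊕ (Σ i : Fin n, ℕ × Fin (k i))) → M :=
    fun α => Sum.elim id (fun s => c ⟨s.1, α s.1 s.2.1, s.2.2⟩)
  let S : Finset (Fin n × ℕ) := Finset.univ.biUnion (fun a =>
    Sum.elim (fun _ => ∅) (fun s => {(s.1, s.2.1)}) (w a))
  have hS : ∀ a s, w a = Sum.inr s → (s.1, s.2.1) ∈ S := by
    intro a s h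
    refine Finset.mem_biUnion.2 ⟨a, Finset.mem_univ _, ?_⟩
    rw [h]
    simp
  let Inj : (Fin n → ℕ → ℕ) → Prop := fun α =>
    ∀ p ∈ S, ∀ q ∈ S, p.1 = q.1 → α p.1 p.2 = α q.1 q.2 → p = q
  have step : ∀ (α β : Fin n → ℕ → ℕ) (p₀ : Fin n × ℕ), p₀ ∈ S → Inj α → Inj β →
      (∀ p ∈ S, p ≠ p₀ → α p.1 p.2 = β p.1 p.2) → col (act α ∘ w) = col (act β ∘ w) := by
    intro α β p₀ hp₀ hα hβ hαβ
    by_cases he : α p₀.1 p₀.2 = β p₀.1 p₀.2
    · congr 1
      funext a
      simp only [Function.comp]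
      rcases hwa : w a with b | s
      · rfl
      · have hs := hS a s hwa
        have : α s.1 s.2.1 = β s.1 s.2.1 := by
          by_cases h : (s.1, s.2.1) = p₀
          · rw [← h] at he; exact he
          · exact hαβ _ hs h
        simp only [act, Sum.elim_inr, this]
    · apply (hstep p₀.1 _ _ he).elim
      intro a
      simp only [Function.comp]
      rcases hwa : w a with b | s
      · left
        exact ⟨rfl, Or.inl (hwK a b hwa)⟩
      · have hs := hS a s hwa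
        by_cases h : (s.1, s.2.1) = p₀
        · right
          obtain ⟨i, j, l⟩ := s
          subst h
          exact ⟨l, rfl, rfl⟩
        · left
          have h' := hαβ _ hs h
          simp only at h'
          refine ⟨by simp only [act, Sum.elim_inr, h'], Or.inr ⟨_, rfl, ?_⟩⟩
          rintro ⟨h1, h2 | h2⟩
          · exact h (hα _ hs _ hp₀ h1 h2)
          · exact h (hβ _ hs _ hp₀ h1 (h'.symm.trans h2))
  have path : ∀ (α β : Fin n → ℕ → ℕ), Inj α → Inj β →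
      (∀ p ∈ S, ∀ q ∈ S, p.1 = q.1 → α p.1 p.2 ≠ β q.1 q.2) →
      col (act α ∘ w) = col (act β ∘ w) := by
    intro α β hα hβ hαβ
    let γ : Finset (Fin n × ℕ) → Fin n → ℕ → ℕ := fun R i j =>
      if (i, j) ∈ R then β i j else α i j
    have hγ : ∀ R, Inj (γ R) := by
      intro R p hp q hq hpq h
      simp only [γ, Prod.mk.eta] at h
      split_ifs at h with h1 h2 h2
      · exact hβ p hp q hq hpq h
      · exact absurd h.symm (hαβ q hq p hp hpq.symm)
      · exact absurd h (hαβ p hp q hq hpq)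
      · exact hα p hp q hq hpq h
    have key : ∀ R : Finset (Fin n × ℕ), R ⊆ S → col (act α ∘ w) = col (act (γ R) ∘ w) := by
      intro R
      induction R using Finset.induction_on with
      | empty => intro _; simp [γ]
      | insert p R hp ih =>
        intro hR
        rw [ih (fun x hx => hR (Finset.mem_insert_of_mem hx))]
        apply step _ _ p (hR (Finset.mem_insert_self _ _)) (hγ _) (hγ _)
        intro q hq hqp
        simp [γ, Finset.mem_insert, hqp]
    rw [key S subset_rfl]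
    congr 1
    funext a
    simp only [Function.comp]
    rcases hwa : w a with b | s
    · rfl
    · have hs := hS a s hwa
      simp only [act, Sum.elim_inr, γ, hs, if_true]
  -- the two functions to be compared
  let α : Fin n → ℕ → ℕ := fun i j => σ i j
  let β : Fin n → ℕ → ℕ := fun _ j => j
  let B : ℕ := S.sup (fun p => σ p.1 p.2 + p.2) + 1
  have hB : ∀ p ∈ S, σ p.1 p.2 + p.2 < B := by
    intro p hp
    exact Nat.lt_succ_of_le (Finset.le_sup (f := fun p : Fin n × ℕ => σ p.1 p.2 + p.2) hp)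
  let γ : Fin n → ℕ → ℕ := fun _ j => B + j
  have hα : Inj α := by
    intro p _ q _ h h'
    obtain ⟨i, j⟩ := p
    obtain ⟨i', j'⟩ := q
    simp only at h
    subst h
    have h2 : j = j' := (σ i).injective h'
    rw [h2]
  have hβ : Inj β := by
    intro p _ q _ h h'
    exact Prod.ext h h'
  have hγ : Inj γ := by
    intro p _ q _ h h'
    exact Prod.ext h (Nat.add_left_cancel h')
  have e1 : col (act α ∘ w) = col (act γ ∘ w) := by
    apply path _ _ hα hγ
    intro p hp q hq _ h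
    have := hB p hp
    simp only [α, γ] at h
    omega
  have e2 : col (act β ∘ w) = col (act γ ∘ w) := by
    apply path _ _ hβ hγ
    intro p hp q hq _ h
    have := hB p hp
    simp only [β, γ] at h
    omega
  have e3 : g ∘ u = act α ∘ w := by
    funext a
    simp only [Function.comp]
    rw [hwu]
    rcases hwa : w a with b | s
    · exact hgK b (hwK a b hwa)
    · exact hgc _ _ _
  have e4 : u = act β ∘ w := by
    funext a
    simp only [Function.comp]
    rw [hwu]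
  rw [e3, e1, ← e2, ← e4]

theorem cell_exists_enum [Nonempty M] {S : Set M} (hS : S.Finite) :
    ∃ t : ℕ → M, (∀ l < S.ncard, t l ∈ S) ∧
      (∀ l < S.ncard, ∀ l' < S.ncard, t l = t l' → l = l') ∧
      ∀ x ∈ S, ∃ l < S.ncard, t l = x := by
  classical
  have := hS.to_subtype
  have hc : Nat.card S = S.ncard := rfl
  let e : S ≃ Fin S.ncard := Finite.equivFinOfCardEq hc
  obtain ⟨b⟩ := ‹Nonempty M›
  refine ⟨fun l => if h : l < S.ncard then (e.symm ⟨l, h⟩ : M) else b, ?_, ?_, ?_⟩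
  · intro l hl
    simp only [hl, dif_pos]
    exact (e.symm ⟨l, hl⟩).2
  · intro l hl l' hl' h
    simp only [hl, hl', dif_pos] at h
    have h1 := e.symm.injective (Subtype.ext h)
    simpa using h1
  · intro x hx
    refine ⟨e ⟨x, hx⟩, (e ⟨x, hx⟩).2, ?_⟩
    simp

theorem cell_of_twins (hD : Dom col) {Cp : M → Set M} {D Q : Set M} {s : ℕ} (hQ : Q.Finite)
    (hDf : D.Finite) (h1 : ∀ b ∉ D, b ∈ Cp b) (h2 : ∀ b ∉ D, Disjoint (Cp b) D)
    (h3 : ∀ b, (Cp b).encard ≤ s) (h4 : ∀ b b', b' ∈ Cp b → Cp b' = Cp b)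
    (h5 : ∀ b ∉ D, ∀ b' ∉ D, Cp b ≠ Cp b' → ∀ (k : ℕ) (t t' : Fin k → M),
      (∀ i, t i ∈ Cp b) → (∀ i, t' i ∈ Cp b') → TEq col Q t t' →
      TEq col (Cp b ∪ Cp b')ᶜ t t') {N : Set M} (hN : N.Countable) : CellSet col N := by
  classical
  have := hD.ne
  -- the cells
  let X := {C : Set M // ∃ b ∈ N, b ∉ D ∧ Cp b = C}
  have hXc : Countable X := by
    have : Countable N := hN.to_subtype
    have hsub : Countable {b : M // b ∈ N ∧ b ∉ D} :=
      Set.Countable.to_subtype (hN.mono (fun b hb => hb.1))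
    refine Function.Surjective.countable
      (f := fun b : {b : M // b ∈ N ∧ b ∉ D} => (⟨Cp b.1, b.1, b.2.1, b.2.2, rfl⟩ : X)) ?_
    rintro ⟨C, b, hb1, hb2, rfl⟩
    exact ⟨⟨b, hb1, hb2⟩, rfl⟩
  have hXfin : ∀ C : X, (C.1 ∩ N).Finite ∧ (C.1 ∩ N).ncard ≤ s := by
    rintro ⟨C, b, hb1, hb2, rfl⟩
    rw [← encard_le_coe_iff_finite_ncard_le]
    exact (encard_le_encard inter_subset_left).trans (h3 b)
  have hXeq : ∀ (C C' : X) (x : M), x ∈ C.1 → x ∈ C'.1 → C = C' := by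
    rintro ⟨C, b, hb1, hb2, rfl⟩ ⟨C', b', hb1', hb2', rfl⟩ x hx hx'
    exact Subtype.ext ((h4 _ _ hx).symm.trans (h4 _ _ hx'))
  have hXD : ∀ C : X, Disjoint C.1 D := by
    rintro ⟨C, b, hb1, hb2, rfl⟩
    exact h2 b hb2
  choose t ht1 ht2 ht3 using fun C : X => cell_exists_enum (hXfin C).1
  choose nk cls hcls using fun k : Fin (s + 1) => hD.exists_class hQ (Fin (k : ℕ))
  let ty : X → Σ k : Fin (s + 1), Fin (nk k) := fun C =>
    ⟨⟨(C.1 ∩ N).ncard, Nat.lt_succ_of_le (hXfin C).2⟩,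
      cls _ (fun l : Fin (C.1 ∩ N).ncard => t C l)⟩
  have hty1 : ∀ C φ, ty C = φ → (C.1 ∩ N).ncard = φ.1 := by
    rintro C _ rfl; rfl
  have hty2 : ∀ C φ, ty C = φ → cls φ.1 (fun l : Fin (φ.1 : ℕ) => t C l) = φ.2 := by
    rintro C _ rfl; rfl
  let F := {φ : Σ k : Fin (s + 1), Fin (nk k) // (ty ⁻¹' {φ}).Infinite}
  obtain ⟨n, ⟨e⟩⟩ := Finite.exists_equiv_fin F
  have hψ : ∀ i : Fin n, ∃ ψ : ℕ ≃ (ty ⁻¹' {(e.symm i).1}), True := by
    intro i
    have : Infinite (ty ⁻¹' {(e.symm i).1}) := (e.symm i).2.to_subtype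
    obtain ⟨d⟩ := nonempty_denumerable (ty ⁻¹' {(e.symm i).1})
    exact ⟨(Denumerable.eqv _).symm, trivial⟩
  choose ψ _ using hψ
  have hψty : ∀ i j, ty (ψ i j).1 = (e.symm i).1 := fun i j => (ψ i j).2
  have hψeq : ∀ i j i' j', (ψ i j).1 = (ψ i' j').1 → i = i' ∧ j = j' := by
    intro i j i' j' h
    have h6 : i = i' := by
      apply e.symm.injective
      apply Subtype.ext
      rw [← hψty i j, ← hψty i' j', h]
    subst h6
    exact ⟨rfl, (ψ i).injective (Subtype.ext h)⟩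
  let k : Fin n → ℕ := fun i => ((e.symm i).1.1 : ℕ)
  have hk : ∀ i j, ((ψ i j).1.1 ∩ N).ncard = k i := fun i j => hty1 _ _ (hψty i j)
  let c : (Σ i : Fin n, ℕ × Fin (k i)) → M := fun x => t (ψ x.1 x.2.1).1 x.2.2
  have hcmem : ∀ x : (Σ i : Fin n, ℕ × Fin (k i)), c x ∈ (ψ x.1 x.2.1).1.1 ∩ N := by
    intro x
    apply ht1
    rw [hk]
    exact x.2.2.2
  let K : Set M := (N ∩ D) ∪ ⋃ φ ∈ {φ | (ty ⁻¹' {φ}).Finite}, ⋃ C ∈ ty ⁻¹' {φ}, C.1 ∩ N
  -- elements of `K` do not lie in the cells of infinite kind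
  have hKC : ∀ b ∈ K, ∀ i j, b ∉ (ψ i j).1.1 := by
    intro b hb i j hbC
    rcases hb with hb | hb
    · exact disjoint_left.1 (hXD _) hbC hb.2
    · simp only [mem_iUnion, mem_ofPred_eq, exists_prop] at hb
      obtain ⟨φ, hφ, C, hC, hbC'⟩ := hb
      have h6 := hXeq _ _ _ hbC hbC'.1
      have h7 : ty C = φ := hC
      rw [← h6, hψty] at h7
      rw [← h7] at hφ
      exact (e.symm i).2 hφ
  refine ⟨K, n, k, c, ?_, ?_, ?_, ?_, ?_⟩
  · refine (hDf.inter_of_right N).union ?_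
    refine (toFinite _).biUnion ?_
    intro φ hφ
    exact Finite.biUnion hφ (fun C _ => (hXfin C).1)
  · rintro ⟨i, j, l⟩ ⟨i', j', l'⟩ h
    have m1 := hcmem ⟨i, j, l⟩
    have m2 := hcmem ⟨i', j', l'⟩
    rw [← h] at m2
    obtain ⟨rfl, rfl⟩ := hψeq _ _ _ _ (hXeq _ _ _ m1.1 m2.1)
    have h6 := ht2 (ψ i j).1 l (by rw [hk]; exact l.2) l' (by rw [hk]; exact l'.2) h
    rw [Fin.ext h6]
  · rw [disjoint_left]
    rintro b hb ⟨x, rfl⟩
    exact hKC _ hb _ _ (hcmem x).1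
  · apply Subset.antisymm
    · intro b hb
      by_cases hbD : b ∈ D
      · exact Or.inl (Or.inl ⟨hb, hbD⟩)
      let C : X := ⟨Cp b, b, hb, hbD, rfl⟩
      by_cases hfin : (ty ⁻¹' {ty C}).Finite
      · left; right
        simp only [mem_iUnion, mem_ofPred_eq, exists_prop]
        exact ⟨ty C, hfin, C, rfl, h1 b hbD, hb⟩
      · right
        let φ : F := ⟨ty C, hfin⟩
        have h6 : ∃ i, e.symm i = φ := ⟨e φ, e.symm_apply_apply φ⟩
        obtain ⟨i, hi⟩ := h6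
        have h7 : C ∈ ty ⁻¹' {(e.symm i).1} := by rw [hi]; rfl
        obtain ⟨j, hj⟩ := (ψ i).surjective ⟨C, h7⟩
        have h8 : (ψ i j).1 = C := by rw [hj]
        obtain ⟨l, hl, hlb⟩ := ht3 (ψ i j).1 b (by rw [h8]; exact ⟨h1 b hbD, hb⟩)
        rw [hk] at hl
        exact ⟨⟨i, j, ⟨l, hl⟩⟩, hlb⟩
    · rintro b (hb | ⟨x, rfl⟩)
      · rcases hb with hb | hb
        · exact hb.1
        · simp only [mem_iUnion, mem_ofPred_eq, exists_prop] at hb
          obtain ⟨φ, hφ, C, hC, hbC'⟩ := hb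
          exact hbC'.2
      · exact (hcmem x).2
  · intro σ g hgK hgc
    have hN' : N ⊆ K ∪ range c := by
      intro b hb
      by_cases hbD : b ∈ D
      · exact Or.inl (Or.inl ⟨hb, hbD⟩)
      let C : X := ⟨Cp b, b, hb, hbD, rfl⟩
      by_cases hfin : (ty ⁻¹' {ty C}).Finite
      · left; right
        simp only [mem_iUnion, mem_ofPred_eq, exists_prop]
        exact ⟨ty C, hfin, C, rfl, h1 b hbD, hb⟩
      · right
        let φ : F := ⟨ty C, hfin⟩
        have h6 : ∃ i, e.symm i = φ := ⟨e φ, e.symm_apply_apply φ⟩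
        obtain ⟨i, hi⟩ := h6
        have h7 : C ∈ ty ⁻¹' {(e.symm i).1} := by rw [hi]; rfl
        obtain ⟨j, hj⟩ := (ψ i).surjective ⟨C, h7⟩
        have h8 : (ψ i j).1 = C := by rw [hj]
        obtain ⟨l, hl, hlb⟩ := ht3 (ψ i j).1 b (by rw [h8]; exact ⟨h1 b hbD, hb⟩)
        rw [hk] at hl
        exact ⟨⟨i, j, ⟨l, hl⟩⟩, hlb⟩
    refine PE.mono hN' (cell_swap c K ?_ σ g hgK hgc)
    intro i j j' hj
    have hne : (ψ i j).1 ≠ (ψ i j').1 := fun h => hj (hψeq _ _ _ _ h).2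
    have hQt : TEq col Q (fun l : Fin (k i) => t (ψ i j).1 l)
        (fun l : Fin (k i) => t (ψ i j').1 l) := by
      rw [← hcls]
      rw [hty2 _ _ (hψty i j), hty2 _ _ (hψty i j')]
    obtain ⟨b, hb1, hb2, hb3⟩ := (ψ i j).1.2
    obtain ⟨b', hb1', hb2', hb3'⟩ := (ψ i j').1.2
    have h6 := h5 b hb2 b' hb2' (by rw [hb3, hb3']; exact fun h => hne (Subtype.ext h)) (k i)
      (fun l : Fin (k i) => t (ψ i j).1 l) (fun l : Fin (k i) => t (ψ i j').1 l)
      (fun l => by rw [hb3]; exact (hcmem ⟨i, j, l⟩).1)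
      (fun l => by rw [hb3']; exact (hcmem ⟨i, j', l⟩).1) hQt
    refine h6.mono ?_
    rw [hb3, hb3']
    rintro x (hx | ⟨y, rfl, hy⟩)
    · rintro (h | h)
      · exact hKC x hx _ _ h
      · exact hKC x hx _ _ h
    · apply mt _ hy
      rintro (h | h)
      · have h7 := hψeq _ _ _ _ (hXeq _ _ _ (hcmem y).1 h)
        exact ⟨h7.1, Or.inl h7.2⟩
      · have h7 := hψeq _ _ _ _ (hXeq _ _ _ (hcmem y).1 h)
        exact ⟨h7.1, Or.inr h7.2⟩

end Pool.Agent.Sib
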