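import Pool.Agent.Sib.TightB

namespace Pool.Agent.Sib

open Set

variable {r : ℕ} {M T : Type} {col : (Fin r → M) → T}

section Calc

variable {Q : Set M} {ν : ℕ} {H : Set M → Set M}



theorem encard_biUnion_le_mul {α β : Type*} {A : Set α} {m n : ℕ} (hA : A.encard ≤ m)
    {F : α → Set β} (hF : ∀ a ∈ A, (F a).encard ≤ n) :
    (⋃ a ∈ A, F a).encard ≤ ((m * n : ℕ) : ℕ∞) := by
  classical
  have hAf : A.Finite := finite_of_encard_le_coe hA
  have key : ∀ (B : Set α), B.Finite → B ⊆ A → (⋃ a ∈ B, F a).encard ≤ B.encard * n := by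
    intro B hB
    refine Set.Finite.induction_on B hB (fun _ => by simp) ?_
    intro a s has hs ih hsub
    rw [biUnion_insert, encard_insert_of_notMem has, add_mul, one_mul, add_comm]
    refine (encard_union_le _ _).trans ?_
    gcongr
    · exact hF a (hsub (mem_insert _ _))
    · exact ih (fun b hb => hsub (mem_insert_of_mem _ hb))
  refine (key A hAf subset_rfl).trans ?_
  push_cast
  gcongr

theorem comp_rch_mem {Mm : Set M} {k : ℕ} {a b : M} (ha : a ∈ Mm) (h : Rch col Q Mm k a b) :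
    b ∈ Mm := by
  cases k with
  | zero =>
    have : a = b := h
    exact this ▸ ha
  | succ k =>
    obtain ⟨c, -, e, he, -, hb⟩ := h
    exact he.2.2.1 hb

theorem rch_trans {Mm : Set M} {k l : ℕ} {a b c : M} (h : Rch col Q Mm k a b)
    (h' : Rch col Q Mm l b c) : Rch col Q Mm (k + l) a c := by
  induction l generalizing c with
  | zero =>
    have : b = c := h'
    exact this ▸ h
  | succ l ih =>
    obtain ⟨d, hd, e, he, h1, h2⟩ := h'
    exact ⟨d, ih hd, e, he, h1, h2⟩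

theorem rch_symm {Mm : Set M} {k : ℕ} {a b : M} (h : Rch col Q Mm k a b) :
    Rch col Q Mm k b a := by
  induction k generalizing b with
  | zero =>
    have : a = b := h
    exact this.symm
  | succ k ih =>
    obtain ⟨c, hc, e, he, h1, h2⟩ := h
    have h3 : Rch col Q Mm 1 b c := ⟨b, rfl, e, he, h2, h1⟩
    have := rch_trans h3 (ih hc)
    rwa [add_comm] at this

theorem comp_rch_mono (hC : Ctx col Q ν H) {k l : ℕ} (hkl : k ≤ l) {a b : M} (ha : a ∈ (H Q)ᶜ)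
    (h : Rch col Q (H Q)ᶜ k a b) : Rch col Q (H Q)ᶜ l a b := by
  induction l, hkl using Nat.le_induction with
  | base => exact h
  | succ l hl ih =>
    exact ⟨b, ih, {b}, tight_singleton hC (comp_rch_mem ha ih), rfl, rfl⟩

theorem rch_bdd (hC : Ctx col Q ν H) {n : ℕ}
    (hn : ∀ a ∈ (H Q)ᶜ, ∀ b, Rch col Q (H Q)ᶜ (n + 1) a b → Rch col Q (H Q)ᶜ n a b)
    {k : ℕ} {a b : M} (ha : a ∈ (H Q)ᶜ) (h : Rch col Q (H Q)ᶜ k a b) :
    Rch col Q (H Q)ᶜ n a b := by
  induction k generalizing b with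
  | zero => exact comp_rch_mono hC (Nat.zero_le _) ha h
  | succ k ih =>
    obtain ⟨c, hc, e, he, h1, h2⟩ := h
    exact hn a ha b ⟨c, ih hc, e, he, h1, h2⟩

theorem rch_encard (hC : Ctx col Q ν H) (k : ℕ) :
    ∃ s : ℕ, ∀ a, {b | Rch col Q (H Q)ᶜ k a b}.encard ≤ s := by
  induction k with
  | zero =>
    refine ⟨1, fun a => ?_⟩
    have : {b | Rch col Q (H Q)ᶜ 0 a b} ⊆ {a} := by
      intro b hb
      have : a = b := hb
      exact this.symm
    exact (encard_le_encard this).trans (by simp)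
  | succ k ih =>
    obtain ⟨s, hs⟩ := ih
    obtain ⟨n, hn⟩ := tight_bound hC
    refine ⟨s * (n * r), fun a => ?_⟩
    have hsub : {b | Rch col Q (H Q)ᶜ (k + 1) a b} ⊆
        ⋃ c ∈ {b | Rch col Q (H Q)ᶜ k a b},
          ⋃ e ∈ {e | Tight col Q (H Q)ᶜ e ∧ c ∈ e}, e := by
      rintro b ⟨c, hc, e, he, h1, h2⟩
      simp only [mem_iUnion]
      exact ⟨c, hc, e, ⟨he, h1⟩, h2⟩
    refine (encard_le_encard hsub).trans ?_
    refine encard_biUnion_le_mul (hs a) (fun c _ => ?_)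
    exact encard_biUnion_le_mul (hn c) (fun e he => he.1.2.1)

/-! ## MODULE COMP (uses TIGHT) -/

theorem exists_comp (hC : Ctx col Q ν H) (h : BddRch col Q (H Q)ᶜ) :
    ∃ (Cp : M → Set M) (s : ℕ), (∀ b ∉ H Q, b ∈ Cp b) ∧ (∀ b, Cp b ⊆ (H Q)ᶜ) ∧
      (∀ b, (Cp b).encard ≤ s) ∧ (∀ b b', b' ∈ Cp b → Cp b' = Cp b) ∧
      ∀ b e', Tight col Q (H Q)ᶜ e' → (e' ∩ Cp b).Nonempty → e' ⊆ Cp b := by
  classical
  obtain ⟨n, hn⟩ := h
  obtain ⟨s, hs⟩ := rch_encard hC n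
  refine ⟨fun b => {c | b ∉ H Q ∧ Rch col Q (H Q)ᶜ n b c}, s, ?_, ?_, ?_, ?_, ?_⟩
  · intro b hb
    exact ⟨hb, comp_rch_mono hC (Nat.zero_le n) hb rfl⟩
  · rintro b c ⟨hb, hc⟩
    exact comp_rch_mem (Mm := (H Q)ᶜ) hb hc
  · intro b
    exact (encard_le_encard (fun c hc => hc.2)).trans (hs b)
  · rintro b b' ⟨hb, hbb'⟩
    have hb' : b' ∉ H Q := comp_rch_mem (Mm := (H Q)ᶜ) hb hbb'
    ext c
    constructor
    · rintro ⟨-, hc⟩
      exact ⟨hb, rch_bdd hC hn hb (rch_trans hbb' hc)⟩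
    · rintro ⟨-, hc⟩
      exact ⟨hb', rch_bdd hC hn hb' (rch_trans (rch_symm hbb') hc)⟩
  · rintro b e' he' ⟨c, hce, hb, hc⟩ d hd
    refine ⟨hb, rch_bdd hC hn hb (k := n + 1) ⟨c, hc, e', he', hce, hd⟩⟩

end Calc

end Pool.Agent.Sib
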