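import Pool.Agent.Sib.Ramsey

/-!
# Extraction of indiscernible sequences (module INDISC)
-/

namespace Pool.Agent.Sib

open Set

variable {r : ℕ} {M T : Type} {col : (Fin r → M) → T}

namespace IndiscAux

theorem exists_exhaust {C : Set M} (hC : C.Countable) :
    ∃ Cn : ℕ → Set M, (∀ n, (Cn n).Finite) ∧ Monotone Cn ∧ (∀ n, Cn n ⊆ C) ∧
      ∀ A : Set M, A.Finite → A ⊆ C → ∃ n, A ⊆ Cn n := by
  rcases C.eq_empty_or_nonempty with h | h
  · refine ⟨fun _ => ∅, fun _ => finite_empty, fun _ _ _ => le_rfl, fun _ => empty_subset _,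
      fun A _ hA => ⟨0, by rw [h] at hA; exact hA⟩⟩
  · obtain ⟨c, rfl⟩ := hC.exists_eq_range h
    refine ⟨fun n => c '' Iio n, fun n => (finite_Iio n).image c,
      fun m n hmn => image_mono (Iio_subset_Iio hmn), fun n => image_subset_range _ _, ?_⟩
    intro A hA hAC
    choose! i hi using fun (a : M) (ha : a ∈ A) => hAC ha
    obtain ⟨n, hn⟩ := (hA.image i).bddAbove
    refine ⟨n + 1, fun a ha => ⟨i a, ?_, hi a ha⟩⟩
    exact Nat.lt_succ_of_le (hn (mem_image_of_mem i ha))

/-- Extension of order equivalent tuples to strictly increasing ones. -/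
theorem exists_mono (H H' : Fin r → ℕ) (hH : ∀ i j, H i < H j ↔ H' i < H' j) :
    ∃ (k k' : Fin r → ℕ) (ρ : Fin r → Fin r), StrictMono k ∧ StrictMono k' ∧
      (∀ i, k (ρ i) = H i) ∧ ∀ i, k' (ρ i) = H' i := by
  classical
  have hEq : ∀ i j, H i = H j ↔ H' i = H' j := by
    intro i j
    have h1 := hH i j
    have h2 := hH j i
    constructor <;> intro h <;> omega
  -- general construction
  have gen : ∀ H : Fin r → ℕ, ∃ k : ℕ → ℕ, StrictMono k ∧
      ∀ i, k (((Finset.univ.filter fun j => H j < H i).image H).card) = H i := by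
    intro H
    obtain ⟨N, hN⟩ := (finite_range H).bddAbove
    let p : ℕ → Prop := fun n => (∃ i, H i = n) ∨ N < n
    have hinf : {n | p n}.Infinite := by
      refine Set.Infinite.mono (s := Ioi N) (fun n hn => Or.inr hn) (Ioi_infinite N)
    refine ⟨Nat.nth p, Nat.nth_strictMono hinf, fun i => ?_⟩
    have h1 : Nat.count p (H i) = ((Finset.univ.filter fun j => H j < H i).image H).card := by
      rw [Nat.count_eq_card_filter_range]
      congr 1
      ext n
      simp only [Finset.mem_filter, Finset.mem_range, Finset.mem_image, Finset.mem_univ, true_and]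
      constructor
      · rintro ⟨hn, ⟨j, rfl⟩ | hn'⟩
        · exact ⟨j, hn, rfl⟩
        · have := hN (mem_range_self i)
          omega
      · rintro ⟨j, hj, rfl⟩
        exact ⟨hj, Or.inl ⟨j, rfl⟩⟩
    rw [← h1]
    exact Nat.nth_count (Or.inl ⟨i, rfl⟩)
  obtain ⟨k, hk, hk2⟩ := gen H
  obtain ⟨k', hk', hk2'⟩ := gen H'
  have hcard : ∀ i, ((Finset.univ.filter fun j => H j < H i).image H).card =
      ((Finset.univ.filter fun j => H' j < H' i).image H').card := by
    intro i
    have e1 : (Finset.univ.filter fun j => H' j < H' i) =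
        (Finset.univ.filter fun j => H j < H i) := by
      ext j; simp [hH j i]
    rw [e1]
    set J := Finset.univ.filter fun j => H j < H i
    have a1 : (J.image H).card = (J.image fun j => (H j, H' j)).card := by
      have : J.image H = (J.image fun j => (H j, H' j)).image Prod.fst := by
        rw [Finset.image_image]; rfl
      rw [this]
      apply Finset.card_image_of_injOn
      intro x hx y hy hxy
      simp only [Finset.coe_image, mem_image] at hx hy
      obtain ⟨a, _, rfl⟩ := hx
      obtain ⟨b, _, rfl⟩ := hy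
      simp only at hxy
      rw [hxy, (hEq a b).1 hxy]
    have a2 : (J.image H').card = (J.image fun j => (H j, H' j)).card := by
      have : J.image H' = (J.image fun j => (H j, H' j)).image Prod.snd := by
        rw [Finset.image_image]; rfl
      rw [this]
      apply Finset.card_image_of_injOn
      intro x hx y hy hxy
      simp only [Finset.coe_image, mem_image] at hx hy
      obtain ⟨a, _, rfl⟩ := hx
      obtain ⟨b, _, rfl⟩ := hy
      simp only at hxy
      rw [hxy, (hEq a b).2 hxy]
    rw [a1, a2]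
  have hlt : ∀ i, ((Finset.univ.filter fun j => H j < H i).image H).card < r := by
    intro i
    have h1 : ((Finset.univ.filter fun j => H j < H i).image H) ⊂ Finset.univ.image H := by
      refine (Finset.ssubset_iff_of_subset (Finset.image_subset_image (Finset.filter_subset _ _))).2
        ⟨H i, Finset.mem_image_of_mem H (Finset.mem_univ i), ?_⟩
      simp only [Finset.mem_image, Finset.mem_filter, Finset.mem_univ, true_and, not_exists,
        not_and]
      intro j hj
      omega
    calc _ < (Finset.univ.image H).card := Finset.card_lt_card h1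
      _ ≤ (Finset.univ : Finset (Fin r)).card := Finset.card_image_le
      _ = r := by simp
  refine ⟨fun i => k i, fun i => k' i, fun i => ⟨_, hlt i⟩, fun a b hab => hk hab,
    fun a b hab => hk' hab, fun i => hk2 i, fun i => ?_⟩
  simp only [hcard]
  exact hk2' i

end IndiscAux

open IndiscAux

theorem exists_indisc (hD : Dom col) {C : Set M} (hC : C.Countable) {q : Type} [Finite q]
    (d : ℕ → q → M) :
    ∃ d' : ℕ → q → M,
      (∀ (ι : Type) [Finite ι] (h h' : ι → ℕ), (∀ i j, h i < h j ↔ h' i < h' j) →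
        TEq col C (fun s : ι × q => d' (h s.1) s.2) (fun s => d' (h' s.1) s.2)) ∧
      (∀ (n : ℕ) (A : Set M), A.Finite → A ⊆ C → ∃ h : ℕ → ℕ, StrictMono h ∧
        TEq col A (fun s : Fin n × q => d' s.1 s.2) (fun s => d (h s.1) s.2)) := by
  classical
  obtain ⟨Cn, hCf, hCm, hCs, hCex⟩ := exists_exhaust hC
  let Φ : (n : ℕ) → (Fin n × q → M) → Prop := fun n w =>
    (∀ h h' : Fin r → Fin n, StrictMono h → StrictMono h' →
      TEq col (Cn n) (fun s : Fin r × q => w (h s.1, s.2)) (fun s => w (h' s.1, s.2))) ∧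
    ∃ h : ℕ → ℕ, StrictMono h ∧ TEq col (Cn n) w (fun s => d (h s.1) s.2)
  let gg : (n : ℕ) → Fin n × q → ℕ × q := fun n s => (s.1, s.2)
  obtain ⟨v, hv⟩ := hD.sat_seq (fun n => {v : ℕ × q → M | Φ n (v ∘ gg n)})
    (fun n => isCond_of_inv (gg n) (hCf n) (Φ n) (by
      rintro w w' hww ⟨h1, h, hh, h2⟩
      refine ⟨fun k k' hk hk' => ?_, h, hh, hww.symm.trans h2⟩
      have e1 := hww.comp (fun s : Fin r × q => (k s.1, s.2))
      have e2 := hww.comp (fun s : Fin r × q => (k' s.1, s.2))
      exact (e1.symm.trans (h1 k k' hk hk')).trans e2))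
    (by
      intro n
      obtain ⟨N, c, hc⟩ := hD.exists_class (hCf n) (Fin r × q)
      obtain ⟨g, hg, hg2⟩ := ramsey r (fun h : Fin r → ℕ => c fun s : Fin r × q => d (h s.1) s.2)
      refine ⟨fun s => d (g s.1) s.2, fun i hi => ⟨?_, g, hg, TEq.refl _ _⟩⟩
      intro h h' hh hh'
      have := (hc _ _).1 (hg2 (fun a => (h a : ℕ)) (fun a => (h' a : ℕ)) hh hh')
      exact this.mono (hCm hi))
  refine ⟨fun ν c => v (ν, c), ?_, ?_⟩
  · intro ι _ h h' hhh
    rw [teq_iff_forall]
    intro u u' hu
    by_cases hall : ∀ i, u i = u' i ∧ u i ∈ C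
    · congr 1
      funext i
      exact (hall i).1
    push Not at hall
    obtain ⟨i₀, hi₀⟩ := hall
    have hs₀ : ∃ a : ι × q, u i₀ = v (h a.1, a.2) ∧ u' i₀ = v (h' a.1, a.2) := by
      rcases hu i₀ with h1 | h1
      · exact absurd h1.2 (hi₀ h1.1)
      · exact h1
    obtain ⟨a₀, -, -⟩ := hs₀
    have hch : ∀ i, ∃ a : ι × q, (u i = u' i ∧ u i ∈ C) ∨
        (u i = v (h a.1, a.2) ∧ u' i = v (h' a.1, a.2)) := by
      intro i
      rcases hu i with h1 | ⟨a, h1⟩
      · exact ⟨a₀, Or.inl h1⟩
      · exact ⟨a, Or.inr h1⟩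
    choose a ha using hch
    obtain ⟨k, k', ρ, hk, hk', hkρ, hkρ'⟩ := exists_mono (fun i => h (a i).1) (fun i => h' (a i).1)
      (fun i j => hhh _ _)
    obtain ⟨n₁, hn₁⟩ := hCex (C ∩ range u) ((finite_range u).subset inter_subset_right)
      inter_subset_left
    obtain ⟨n₂, hn₂⟩ := (finite_range k).bddAbove
    obtain ⟨n₃, hn₃⟩ := (finite_range k').bddAbove
    set n := max n₁ (max (n₂ + 1) (n₃ + 1)) with hn
    have hkn : ∀ i, k i < n := fun i => by
      have := hn₂ (mem_range_self i); omega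
    have hkn' : ∀ i, k' i < n := fun i => by
      have := hn₃ (mem_range_self i); omega
    have h1 := (hv n).1 (fun i => ⟨k i, hkn i⟩) (fun i => ⟨k' i, hkn' i⟩) (fun x y hxy => hk hxy)
      (fun x y hxy => hk' hxy)
    refine h1.elim ?_
    intro i
    rcases ha i with h2 | h2
    · exact Or.inl ⟨h2.1, hCm (le_max_left _ _) (hn₁ ⟨h2.2, mem_range_self i⟩)⟩
    · refine Or.inr ⟨(ρ i, (a i).2), ?_, ?_⟩
      · simp only [Function.comp_apply, gg, hkρ]
        exact h2.1
      · simp only [Function.comp_apply, gg, hkρ']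
        exact h2.2
  · intro n A hA hAC
    obtain ⟨n₁, hn₁⟩ := hCex A hA hAC
    obtain ⟨h, hh, h2⟩ := (hv (max n₁ n)).2
    refine ⟨h, hh, ?_⟩
    have h3 := h2.comp (fun s : Fin n × q => ((⟨s.1, lt_of_lt_of_le s.1.2 (le_max_right _ _)⟩ :
      Fin (max n₁ n)), s.2))
    exact h3.mono (hn₁.trans (hCm (le_max_left _ _)))

end Pool.Agent.Sib
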