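import Pool.Agent.Sib.Config
import Pool.Agent.Sib.Indisc

/-!
# Existence of configurations (module CONF)
-/

namespace Pool.Agent.Sib

open Set

variable {r : ℕ} {M T : Type} {col : (Fin r → M) → T}

theorem exists_conf (hD : Dom col) {v : ℕ → M} (hv : Full col (range v)) {a k : ℕ}
    (hU : Unb col a (Fin k)) (m : ℕ) :
    ∃ (p : Fin a → M) (x : Fin m → Fin k → M) (d : ℕ → (Fin m × Fin m × Fin r) → M),
      Conf col v a k m p x d := by
  classical
  obtain ⟨p, x, d, hsame, hdiff, hdisj, hcoh⟩ := exists_config hD hv hU m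
  have hCc : (range v ∪ range p ∪ ⋃ i, range (x i)).Countable :=
    ((countable_range v).union (countable_range p)).union
      (countable_iUnion fun i => countable_range _)
  obtain ⟨d', h1, h2⟩ := exists_indisc hD hCc d
  refine ⟨p, x, d', hsame, ?_, ?_, ?_, h1⟩
  · -- diff
    intro i j ν hij hT
    have hA : (range p ∪ (range (x i) ∪ range (x j))).Finite :=
      (finite_range p).union ((finite_range _).union (finite_range _))
    have hAC : range p ∪ (range (x i) ∪ range (x j)) ⊆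
        range v ∪ range p ∪ ⋃ i, range (x i) := by
      rintro b (hb | hb | hb)
      · exact Or.inl (Or.inr hb)
      · exact Or.inr (mem_iUnion.2 ⟨i, hb⟩)
      · exact Or.inr (mem_iUnion.2 ⟨j, hb⟩)
    obtain ⟨h, -, hh⟩ := h2 (ν + 1) _ hA hAC
    have hh' := hh.comp (fun s : Fin r => ((⟨ν, Nat.lt_succ_self ν⟩ : Fin (ν + 1)), (i, j, s)))
    exact hdiff i j (h ν) hij ((teq_exchange hh').1 hT)
  · -- disj
    intro i j hij ν ν' hνν s s'
    obtain ⟨h, hmono, hh⟩ := h2 (max ν ν' + 1) ∅ finite_empty (empty_subset _)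
    have hne := hdisj i j hij (h ν) (h ν') (fun e => hνν (hmono.injective e)) s s'
    intro e
    apply hne
    have := (hh.eq_iff hD ((⟨ν, Nat.lt_succ_of_le (le_max_left _ _)⟩ : Fin (max ν ν' + 1)),
      (i, j, s)) ((⟨ν', Nat.lt_succ_of_le (le_max_right _ _)⟩ : Fin (max ν ν' + 1)),
      (i, j, s'))).1
    exact this e
  · -- coheir
    intro n y hy A hA hAv
    -- a bound for the indices of the `d'` used
    have hn₀ : ∃ n₀ : ℕ, ∀ i, y i ∈ range v ∪ range p ∪ (⋃ i, range (x i)) ∨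
        ∃ ν < n₀, ∃ c, y i = d' ν c := by
      have : ∀ i, ∃ N : ℕ, y i ∈ range v ∪ range p ∪ (⋃ i, range (x i)) ∨
          ∃ ν < N, ∃ c, y i = d' ν c := by
        intro i
        rcases hy i with h | h
        · exact ⟨0, Or.inl h⟩
        · obtain ⟨ν, c, hc⟩ := mem_iUnion.1 h
          exact ⟨ν + 1, Or.inr ⟨ν, Nat.lt_succ_self ν, c, hc.symm⟩⟩
      choose N hN using this
      refine ⟨Finset.univ.sup N, fun i => ?_⟩
      rcases hN i with h | ⟨ν, hν, c, hc⟩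
      · exact Or.inl h
      · exact Or.inr ⟨ν, lt_of_lt_of_le hν (Finset.le_sup (Finset.mem_univ i)), c, hc⟩
    obtain ⟨n₀, hn₀⟩ := hn₀
    set A₁ : Set M := A ∪ (range y ∩ range v) with hA₁
    have hA₁f : A₁.Finite := hA.union ((finite_range y).subset inter_subset_left)
    have hA₁v : A₁ ⊆ range v := union_subset hAv inter_subset_right
    set A₂ : Set M := A₁ ∪ range p ∪ ⋃ i, range (x i) with hA₂
    have hA₂f : A₂.Finite := (hA₁f.union (finite_range p)).union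
      (finite_iUnion fun i => finite_range _)
    have hA₂C : A₂ ⊆ range v ∪ range p ∪ ⋃ i, range (x i) :=
      union_subset_union_left _ (union_subset_union_left _ hA₁v)
    obtain ⟨h, hmono, hh⟩ := h2 n₀ A₂ hA₂f hA₂C
    obtain ⟨p', x', d'', hp', hx', hd'', hT⟩ := hcoh (h n₀) A₁ hA₁f hA₁v
    have key : ∀ i, ∃ zy : M × M, zy.2 ∈ range v ∧
        ((y i = zy.1 ∧ y i ∈ A₂) ∨ ∃ s : Fin n₀ × (Fin m × Fin m × Fin r),
          y i = d' s.1 s.2 ∧ zy.1 = d (h s.1) s.2) ∧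
        ((zy.1 = zy.2 ∧ zy.1 ∈ A₁) ∨
          ∃ c : (Fin a ⊕ Fin m × Fin k) ⊕ (Fin (h n₀) × (Fin m × Fin m × Fin r)),
          zy.1 = (Sum.elim (Sum.elim p (fun s : Fin m × Fin k => x s.1 s.2))
              (fun s : Fin (h n₀) × (Fin m × Fin m × Fin r) => d s.1 s.2)) c ∧
          zy.2 = (Sum.elim (Sum.elim p' (fun s : Fin m × Fin k => x' s.1 s.2))
              (fun s : Fin (h n₀) × (Fin m × Fin m × Fin r) => d'' s.1 s.2)) c) := by
      intro i
      rcases hn₀ i with ((hi | ⟨l, hl⟩) | hi) | ⟨ν, hν, c, hc⟩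
      · have : y i ∈ A₁ := Or.inr ⟨mem_range_self i, hi⟩
        exact ⟨(y i, y i), hi, Or.inl ⟨rfl, Or.inl (Or.inl this)⟩, Or.inl ⟨rfl, this⟩⟩
      · exact ⟨(y i, p' l), hp' l, Or.inl ⟨rfl, Or.inl (Or.inr ⟨l, hl⟩)⟩,
          Or.inr ⟨Sum.inl (Sum.inl l), hl.symm, rfl⟩⟩
      · obtain ⟨j, l, hl⟩ := mem_iUnion.1 hi
        exact ⟨(y i, x' j l), hx' j l, Or.inl ⟨rfl, Or.inr hi⟩,
          Or.inr ⟨Sum.inl (Sum.inr (j, l)), hl.symm, rfl⟩⟩
      · exact ⟨(d (h ν) c, d'' (h ν) c), hd'' _ _, Or.inr ⟨(⟨ν, hν⟩, c), hc, rfl⟩,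
          Or.inr ⟨Sum.inr (⟨h ν, hmono hν⟩, c), rfl, rfl⟩⟩
    choose zy hk1 hk2 hk3 using key
    refine ⟨fun i => (zy i).2, hk1, ?_⟩
    have s1 : TEq col A y (fun i => (zy i).1) := by
      apply TEq.intro
      intro u u' hu
      apply hh.elim
      intro i
      rcases hu i with ⟨e1, e2⟩ | ⟨b, e1, e2⟩
      · exact Or.inl ⟨e1, Or.inl (Or.inl (Or.inl e2))⟩
      · rcases hk2 b with ⟨e3, e4⟩ | ⟨s, e3, e4⟩
        · exact Or.inl ⟨e1.trans (e3.trans e2.symm), e1 ▸ e4⟩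
        · exact Or.inr ⟨s, e1.trans e3, e2.trans e4⟩
    have s2 : TEq col A (fun i => (zy i).1) (fun i => (zy i).2) := by
      apply TEq.intro
      intro u u' hu
      apply hT.elim
      intro i
      rcases hu i with ⟨e1, e2⟩ | ⟨b, e1, e2⟩
      · exact Or.inl ⟨e1, Or.inl e2⟩
      · rcases hk3 b with ⟨e3, e4⟩ | ⟨s, e3, e4⟩
        · exact Or.inl ⟨e1.trans (e3.trans e2.symm), e1 ▸ e4⟩
        · exact Or.inr ⟨s, e1.trans e3, e2.trans e4⟩
    exact s1.trans s2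

end Pool.Agent.Sib
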