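import Pool.Agent.Sib.Tight
import Pool.Agent.Sib.Big

/-! Module DETACH: components outside a finite set are free over everything else. -/

namespace Pool.Agent.Sib

open Set

variable {r : ℕ} {M T : Type} {col : (Fin r → M) → T}
variable {Q : Set M} {ν : ℕ} {H : Set M → Set M}

/-! pasted statements (BIG, CALC, TIGHT) -/





/-! end of pasted statements -/

theorem detach_aux (hC : Ctx col Q ν H) {Cp : M → Set M}
    (h2 : ∀ b, Cp b ⊆ (H Q)ᶜ)
    (h5 : ∀ b e', Tight col Q (H Q)ᶜ e' → (e' ∩ Cp b).Nonempty → e' ⊆ Cp b) (k : ℕ) :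
    ∀ B : Set M, B.Finite → H Q ⊆ B → ∃ 𝓗 : Set M, 𝓗.Finite ∧
      ∀ b, Disjoint (Cp b) 𝓗 → ∀ z ⊆ Cp b, ∀ y ⊆ (Cp b)ᶜ ∩ (H Q)ᶜ, y.encard ≤ k →
        z.encard + y.encard ≤ r → FreeS col univ (B ∪ y) z := by
  induction k with
  | zero =>
      intro B hB hQB
      refine ⟨H B, hC.Hfin B hB, fun b hb z hz y _ hy hzy => ?_⟩
      have hy0 : y = ∅ := by
        rw [← encard_eq_zero]
        exact le_antisymm (by simpa using hy) bot_le
      subst hy0
      rw [union_empty]
      refine (typ_of_small hC hB (x := fun i : z => (i : M)) ?_ ?_).free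
      · rw [Subtype.range_coe]
        exact le_self_add.trans hzy
      · intro i hi
        exact (disjoint_left.1 hb) (hz i.2) hi
  | succ k ih =>
      intro B hB hQB
      have hHB := hC.Hfin B hB
      choose! 𝓗 h𝓗 using fun (u : M) => ih (B ∪ {u}) (hB.union (finite_singleton u))
        (hQB.trans subset_union_left)
      refine ⟨H B ∪ ⋃ u ∈ H B, 𝓗 u, hHB.union (hHB.biUnion fun u _ => (h𝓗 u).1), ?_⟩
      intro b hb z hz y hy hyk hzy
      rw [disjoint_union_right] at hb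
      by_cases hyH : Disjoint y (H B)
      · have hzy' : (z ∪ y).encard ≤ r := (encard_union_le z y).trans hzy
        have hzH : Disjoint z (H B) := hb.1.mono_left hz
        refine ind_up hC ((hC.Hsub Q).trans hQB) hB hzy' (disjoint_union_left.2 ⟨hzH, hyH⟩) ?_
        refine dec hC hzy' ?_ ?_
        · rw [disjoint_union_left]
          exact ⟨disjoint_left.2 fun c hc hc' => h2 b (hz hc) hc',
            disjoint_left.2 fun c hc hc' => (hy hc).2 hc'⟩
        · rintro e he - ⟨c, hce, hcz⟩ ⟨c', hce', hcy⟩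
          exact (hy hcy).1 (h5 b e he ⟨c, hce, hz hcz⟩ hce')
      · rw [not_disjoint_iff] at hyH
        obtain ⟨u, huy, huH⟩ := hyH
        have h1 := (h𝓗 u).2 b (hb.2.mono_right (subset_biUnion_of_mem (u := 𝓗) huH)) z hz
          (y \ {u}) (sdiff_subset.trans hy) ?_ ?_
        · have : B ∪ {u} ∪ y \ {u} = B ∪ y := by
            rw [union_assoc, union_sdiff_self, singleton_union, insert_eq_of_mem huy]
          rwa [this] at h1
        · have h3 : (y \ {u}).encard + 1 = y.encard := encard_sdiff_singleton_add_one huy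
          rw [← h3] at hyk
          push_cast at hyk
          exact (ENat.add_le_add_iff_right (by simp)).1 hyk
        · exact (add_le_add_right (encard_le_encard sdiff_subset) _).trans hzy

theorem exists_detach (hC : Ctx col Q ν H) {Cp : M → Set M}
    (h1 : ∀ b ∉ H Q, b ∈ Cp b) (h2 : ∀ b, Cp b ⊆ (H Q)ᶜ) {s : ℕ}
    (h3 : ∀ b, (Cp b).encard ≤ s) (h4 : ∀ b b', b' ∈ Cp b → Cp b' = Cp b)
    (h5 : ∀ b e', Tight col Q (H Q)ᶜ e' → (e' ∩ Cp b).Nonempty → e' ⊆ Cp b) :
    ∃ D : Set M, D.Finite ∧ H Q ⊆ D ∧ (∀ b ∉ D, Disjoint (Cp b) D) ∧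
      ∀ b ∉ D, ∀ z ⊆ Cp b, ∀ y ⊆ (Cp b)ᶜ, z.encard + y.encard ≤ r →
        FreeS col univ (Q ∪ y) z := by
  obtain ⟨𝓗, h𝓗, hF⟩ := detach_aux hC h2 h5 r (H Q) (hC.Hfin Q hC.Qfin) subset_rfl
  have hCf : ∀ b, (Cp b).Finite := fun b => finite_of_encard_le_coe (h3 b)
  have hkey : ∀ b, b ∉ H Q → ∀ c ∈ Cp b, b ∈ Cp c := fun b hb c hc => by
    rw [h4 b c hc]; exact h1 b hb
  refine ⟨H Q ∪ ⋃ b ∈ 𝓗 \ H Q, Cp b, ?_, subset_union_left, ?_, ?_⟩
  · exact (hC.Hfin Q hC.Qfin).union ((h𝓗.sdiff).biUnion fun b _ => hCf b)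
  · intro b hb
    rw [disjoint_union_right]
    refine ⟨disjoint_left.2 fun c hc hc' => h2 b hc hc', ?_⟩
    rw [disjoint_iUnion₂_right]
    intro b' hb'
    rw [disjoint_left]
    intro c hc hc'
    apply hb
    right
    have e1 : Cp b = Cp b' := by rw [← h4 b c hc, h4 b' c hc']
    exact mem_biUnion hb' (e1 ▸ h1 b fun h => hb (Or.inl h))
  · intro b hb z hz y hy hzy
    have hbQ : b ∉ H Q := fun h => hb (Or.inl h)
    have hdis : Disjoint (Cp b) 𝓗 := by
      rw [disjoint_left]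
      intro c hc hc'
      apply hb
      right
      exact mem_biUnion (show c ∈ 𝓗 \ H Q from ⟨hc', h2 b hc⟩) (hkey b hbQ c hc)
    have hyle : (y \ H Q).encard ≤ y.encard := encard_le_encard sdiff_subset
    have h6 := hF b hdis z hz (y \ H Q) (fun c hc => ⟨hy hc.1, hc.2⟩)
      (hyle.trans (le_add_self.trans hzy)) ((add_le_add_right hyle _).trans hzy)
    refine h6.mono_base ?_
    rintro c (hc | hc)
    · exact Or.inl (hC.Hsub Q hc)
    · by_cases hcQ : c ∈ H Q
      · exact Or.inl hcQ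
      · exact Or.inr ⟨hc, hcQ⟩

/-- Twins: components outside `D` with the same type over `Q` look the same from outside. -/
theorem twins (hC : Ctx col Q ν H) {Cp : M → Set M} {D : Set M}
    (h : ∀ b ∉ D, ∀ z ⊆ Cp b, ∀ y ⊆ (Cp b)ᶜ, z.encard + y.encard ≤ r →
        FreeS col univ (Q ∪ y) z)
    {b b' : M} (hb : b ∉ D) (hb' : b' ∉ D) {ι : Type} {t t' : ι → M}
    (ht : ∀ i, t i ∈ Cp b) (ht' : ∀ i, t' i ∈ Cp b') (htt : TEq col Q t t') :
    TEq col (Cp b ∪ Cp b')ᶜ t t' := by
  refine teq_local' fun z A hA hzA => ?_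
  have hAf : A.Finite := finite_of_encard_le_coe (le_add_self.trans hzA)
  have hzf : z.Finite := finite_of_encard_le_coe (le_self_add.trans hzA)
  have := hzf.to_subtype
  have hfree : ∀ (c : M) (w : ι → M), c ∉ D → A ⊆ (Cp c)ᶜ → (∀ i, w i ∈ Cp c) →
      Free col univ (Q ∪ A) (fun i : z => w i) := by
    intro c w hc hAc hw
    refine Free.of_range_subset (z := w '' z) (h c hc (w '' z) ?_ A hAc ?_) fun i => mem_image_of_mem _ i.2
    · rintro _ ⟨i, -, rfl⟩; exact hw i
    · exact (add_le_add_left (encard_image_le w z) _).trans hzA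
  refine (stat hC.dom hC.max hC.big subset_union_left (hC.Qfin.union hAf)
    (hfree b t hb (hA.trans (compl_subset_compl.2 subset_union_left)) ht)
    (hfree b' t' hb' (hA.trans (compl_subset_compl.2 subset_union_right)) ht')
    (htt.comp (fun i : z => (i : ι)))).mono subset_union_right

end Pool.Agent.Sib
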