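import Pool.Agent.Sib.Big

/-!
# Monotonicity of the invariant of the bounded case
-/

namespace Pool.Agent.Sib

open Set

variable {r : ℕ} {M T : Type} {col : (Fin r → M) → T}

/-- A free tuple has copies in `N`. -/
theorem Free.exists_mem {N B : Set M} {ι : Type} {x : ι → M} (h : Free col N B x) :
    ∃ x' : ι → M, (∀ i, x' i ∈ N) ∧ TEq col B x x' := by
  obtain ⟨x', h1, h2⟩ := h ∅ finite_empty
  exact ⟨x', fun i => (h1 i).1, h2⟩

/-- Freeness goes up along embeddings. -/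
theorem Free.map (hD : Dom col) {N N' B : Set M} {h : M → M} (hh : Emb col N N' h) (hBN : B ⊆ N)
    {ι : Type} {x : ι → M} (hx : ∀ i, x i ∈ N) (hF : Free col N B x) :
    Free col N' (h '' B) (h ∘ x) := by
  intro G hG
  have hG' : (N ∩ h ⁻¹' G).Finite := by
    apply Finite.of_finite_image (hG.subset _) ((hh.2.injOn hD).mono inter_subset_left)
    rintro _ ⟨b, ⟨_, hb⟩, rfl⟩
    exact hb
  obtain ⟨x', h1, h2⟩ := hF _ hG'
  refine ⟨h ∘ x', fun i => ⟨hh.1 _ (h1 i).1, fun hi => (h1 i).2 ⟨(h1 i).1, hi⟩⟩, ?_⟩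
  exact (hh.2.teq_iff hBN hx (fun i => (h1 i).1)).2 h2

theorem Big.map (hD : Dom col) {N N' B : Set M} {h : M → M} (hh : Emb col N N' h) (hBN : B ⊆ N)
    {n : ℕ} (hB : Big col N B n) : Big col N' (h '' B) n := by
  obtain ⟨x, hx1, hx2⟩ := hB
  choose x' hx'1 hx'2 using fun i => (hx1 i).exists_mem
  refine ⟨fun i => h ∘ x' i, fun i => ?_, fun i j hij => ?_⟩
  · exact ((hx1 i).congr (hx'2 i)).map hD hh hBN (hx'1 i)
  · rw [hh.2.teq_iff hBN (hx'1 i) (hx'1 j)]
    intro h1
    exact hx2 i j hij (((hx'2 i).trans h1).trans (hx'2 j).symm)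

theorem freeS_image_iff {N B z : Set M} {h : M → M} :
    FreeS col N B (h '' z) ↔ Free col N B (fun i : z => h i) := by
  have : h '' z = range (fun i : z => h i) := by
    rw [image_eq_range]
  rw [this, ← free_iff_range]

theorem kap_mono (hD : Dom col) {ν : ℕ}
    (hmax : ∀ N B : Set M, B.Finite → ¬ Big col N B (ν + 1)) {t : ℕ} {N N' : Set M} {h : M → M}
    (hh : Emb col N N' h) (hK : Kap col ν t N) : Kap col ν t N' := by
  obtain ⟨Q', X, hQf, hQN, hQb, hXi, hXN, hXK, hXd, hXF, hXn⟩ := hK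
  have hinj : InjOn h N := hh.2.injOn hD
  refine ⟨h '' Q', fun i => h '' X i, hQf.image h, ?_, hQb.map hD hh hQN, ?_, ?_, ?_, ?_, ?_, ?_⟩
  · rintro _ ⟨b, hb, rfl⟩
    exact hh.1 b (hQN hb)
  · intro i
    exact (hXi i).image (hinj.mono (hXN i))
  · rintro i _ ⟨b, hb, rfl⟩
    exact hh.1 b (hXN i hb)
  · intro i
    rw [disjoint_left]
    rintro _ ⟨b, hb, rfl⟩ (hker | ⟨b', hb', he⟩)
    · obtain ⟨-, n, t, ht⟩ := hker
      have hbN := hXN i hb
      have hbK : b ∉ Ker col N := fun h' => disjoint_left.1 (hXK i) hb (Or.inl h')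
      apply hbK
      refine ⟨hbN, n, t, ?_⟩
      intro e he hte
      obtain ⟨l, hl⟩ := ht (h ∘ e) (fun l => hh.1 _ (he l)) ((hh.2.tp_eq he).trans hte)
      exact ⟨l, hinj (he l) hbN hl⟩
    · have : b' = b := hinj (hQN hb') (hXN i hb) he
      exact disjoint_left.1 (hXK i) hb (Or.inr (this ▸ hb'))
  · intro i j hij
    rw [disjoint_left]
    rintro _ ⟨b, hb, rfl⟩ ⟨b', hb', he⟩
    have : b' = b := hinj (hXN j hb') (hXN i hb) he
    exact disjoint_left.1 (hXd i j hij) hb (this ▸ hb')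
  · intro i z hz hzf
    obtain ⟨z', hz', rfl⟩ := subset_image_iff.1 hz
    have hz'f : z'.Finite := Finite.of_finite_image hzf (hinj.mono (hz'.trans (hXN i)))
    rw [freeS_image_iff]
    exact (hXF i z' hz' hz'f).map hD hh hQN (fun a => hXN i (hz' a.2))
  · intro i z hz hzf hzn
    obtain ⟨z', hz', rfl⟩ := subset_image_iff.1 hz
    have hz'N : z' ⊆ N := hz'.trans (hXN i)
    have hz'f : z'.Finite := Finite.of_finite_image hzf (hinj.mono hz'N)
    obtain ⟨y, hy, hyf, hyn⟩ := hXn i z' hz' hz'f hzn.of_image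
    have hyN : y ⊆ N := hy.trans (diff_subset.trans (hXN i))
    refine ⟨h '' y, ?_, hyf.image h, ?_⟩
    · rintro _ ⟨b, hb, rfl⟩
      refine ⟨mem_image_of_mem h (hy hb).1, ?_⟩
      rintro ⟨b', hb', he⟩
      have : b' = b := hinj (hz'N hb') (hyN hb) he
      exact (hy hb).2 (this ▸ hb')
    · rw [freeS_image_iff, ← image_union]
      intro hF
      apply hyn
      have hfin := hz'f.to_subtype
      have hBN : Q' ∪ y ⊆ N := union_subset hQN hyN
      have hBf : (Q' ∪ y).Finite := hQf.union hyf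
      obtain ⟨x', h1, h2, h3⟩ := Free.exists_ext hD hBf (hXF i z' hz' hz'f) ∅ finite_empty
      have h4 := h3.map hD hh hBN (fun a => (h1 a).1)
      have h5 : TEq col (h '' Q') (fun a : z' => h a) (h ∘ x') :=
        (hh.2.teq_iff hQN (fun a : z' => hz'N a.2) (fun a => (h1 a).1)).2 h2
      have h6 := stat hD hmax (hQb.map hD hh hQN) (image_mono subset_union_left)
        (hBf.image h) hF h4 h5
      have h7 : TEq col (Q' ∪ y) (fun a : z' => (a : M)) x' :=
        (hh.2.teq_iff hBN (fun a : z' => hz'N a.2) (fun a => (h1 a).1)).1 h6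
      exact Free.congr h7.symm h3

theorem kap_anti {ν t t' : ℕ} {N : Set M} (ht : t ≤ t') (hK : Kap col ν t' N) :
    Kap col ν t N := by
  obtain ⟨Q', X, hQf, hQN, hQb, hXi, hXN, hXK, hXd, hXF, hXn⟩ := hK
  refine ⟨Q', fun i => X (Fin.castLE ht i), hQf, hQN, hQb, fun i => hXi _, fun i => hXN _,
    fun i => hXK _, fun i j hij => hXd _ _ ?_, fun i => hXF _, fun i => hXn _⟩
  intro h
  exact hij (Fin.castLE_injective ht h)

end Pool.Agent.Sib
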