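import Pool.Agent.Sib.Big

/-! # Module SYM -/

namespace Pool.Agent.Sib

open Set

variable {r : ℕ} {M T : Type} {col : (Fin r → M) → T}

/-- The state of the recursion in `order_lemma`. -/
theorem symOrderSeq {B : Set M} {P P' : Set M} (hP : P.Finite) (hP' : P'.Finite)
    {x y : Fin r → M} (hx : Typ col B x) (hy : Typ col B y) :
    ∃ X Y : ℕ → Fin r → M, (∀ i, TEq col B x (X i)) ∧ (∀ j, TEq col B y (Y j)) ∧
      (∀ i s, X i s ∉ P) ∧ (∀ j s, Y j s ∉ P') ∧
      (∀ i j, i ≤ j → TEq col (B ∪ range (Y j)) x (X i)) ∧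
      (∀ i j, j < i → TEq col (B ∪ range (X i)) y (Y j)) ∧
      (∀ j j', j ≠ j' → ∀ s s', Y j s ≠ Y j' s') := by
  classical
  have hstep : ∀ S : Set M, S.Finite → ∃ (x' y' : Fin r → M) (G G' : Set M), G.Finite ∧ G'.Finite ∧
      (∀ s, x' s ∉ S ∪ P) ∧ TEq col (B ∪ (univ \ G)) x x' ∧ (∀ s, y' s ∉ S ∪ G ∪ P') ∧
      TEq col (B ∪ (univ \ G')) y y' := by
    intro S hS
    obtain ⟨x', h1, G, hG, h2⟩ := hx (S ∪ P) (hS.union hP)
    obtain ⟨y', h3, G', hG', h4⟩ := hy (S ∪ G ∪ P') ((hS.union hG).union hP')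
    exact ⟨x', y', G, G', hG, hG', h1, h2, h3, h4⟩
  have : Nonempty (Fin r → M) := ⟨x⟩
  choose! xf yf Gf Gf' hG hG' h1 h2 h3 h4 using hstep
  let nxt : Set M → Set M := fun S => S ∪ Gf S ∪ Gf' S ∪ range (yf S)
  let St : ℕ → Set M := fun n => nxt^[n] ∅
  have hSt0 : St 0 = ∅ := rfl
  have hSt1 : ∀ n, St (n + 1) = nxt (St n) := fun n => Function.iterate_succ_apply' _ _ _
  have hfin : ∀ n, (St n).Finite := by
    intro n
    induction n with
    | zero => exact finite_empty
    | succ n ih =>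
      rw [hSt1]
      exact ((ih.union (hG _ ih)).union (hG' _ ih)).union (finite_range _)
  have hmono : Monotone St := by
    apply monotone_nat_of_le_succ
    intro n
    rw [hSt1]
    intro b hb
    exact Or.inl (Or.inl (Or.inl hb))
  have hGs : ∀ i j, i < j → Gf (St i) ⊆ St j := by
    intro i j hij
    refine Subset.trans ?_ (hmono (Nat.succ_le_of_lt hij))
    rw [Nat.succ_eq_add_one, hSt1]
    intro b hb
    exact Or.inl (Or.inl (Or.inr hb))
  have hGs' : ∀ i j, i < j → Gf' (St i) ⊆ St j := by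
    intro i j hij
    refine Subset.trans ?_ (hmono (Nat.succ_le_of_lt hij))
    rw [Nat.succ_eq_add_one, hSt1]
    intro b hb
    exact Or.inl (Or.inr hb)
  have hYs : ∀ i j, i < j → range (yf (St i)) ⊆ St j := by
    intro i j hij
    refine Subset.trans ?_ (hmono (Nat.succ_le_of_lt hij))
    rw [Nat.succ_eq_add_one, hSt1]
    intro b hb
    exact Or.inr hb
  refine ⟨fun n => xf (St n), fun n => yf (St n), ?_, ?_, ?_, ?_, ?_, ?_, ?_⟩
  · intro i
    exact (h2 _ (hfin i)).mono subset_union_left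
  · intro i
    exact (h4 _ (hfin i)).mono subset_union_left
  · intro i s h
    exact h1 _ (hfin i) s (Or.inr h)
  · intro i s h
    exact h3 _ (hfin i) s (Or.inr h)
  · intro i j hij
    refine (h2 _ (hfin i)).mono (union_subset_union_right _ ?_)
    rintro _ ⟨s, rfl⟩
    refine ⟨mem_univ _, fun hb => ?_⟩
    apply h3 _ (hfin j) s
    rcases hij.eq_or_lt with rfl | hlt
    · exact Or.inl (Or.inr hb)
    · exact Or.inl (Or.inl (hGs i j hlt hb))
  · intro i j hij
    refine (h4 _ (hfin j)).mono (union_subset_union_right _ ?_)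
    rintro _ ⟨s, rfl⟩
    exact ⟨mem_univ _, fun hb => h1 _ (hfin i) s (Or.inl (hGs' j i hij hb))⟩
  · intro j j' hne s s' he
    beta_reduce at he
    rcases lt_or_gt_of_ne hne with h | h
    · apply h3 _ (hfin j') s'
      rw [← he]
      exact Or.inl (Or.inl (hYs j j' h (mem_range_self s)))
    · apply h3 _ (hfin j) s
      rw [he]
      exact Or.inl (Or.inl (hYs j' j h (mem_range_self s')))

theorem order_lemma {Q : Set M} {ν : ℕ} {H : Set M → Set M} (hC : Ctx col Q ν H) {B : Set M}
    (hQB : Q ⊆ B) (hB : B.Finite) {x y x₁ y₁ : Fin r → M} (hx : Typ col B x) (hy : Typ col B y)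
    (hx₁ : TEq col B x x₁) (hy₁ : TEq col B y y₁) (hx₁F : Free col univ (B ∪ range y) x₁)
    (hy₁F : Free col univ (B ∪ range x) y₁) :
    TEq col B (Sum.elim x y₁) (Sum.elim x₁ y) := by
  classical
  by_contra hcon
  have hBx : (B ∪ range x).Finite := hB.union (finite_range _)
  have hBy : (B ∪ range y).Finite := hB.union (finite_range _)
  obtain ⟨X, Y, hX, hY, hXP, hYP, hle, hlt, hdisj⟩ := symOrderSeq
    (P := H (B ∪ range y)) (P' := H (B ∪ range x)) (hC.Hfin _ hBy) (hC.Hfin _ hBx) hx hy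
  have hA : ∀ i j, i ≤ j → TEq col B (Sum.elim (X i) (Y j)) (Sum.elim x y₁) := by
    intro i j hij
    have e1 : TEq col B (Sum.elim (X i) (Y j)) (Sum.elim x (Y j)) :=
      teq_adjoin.2 (hle i j hij).symm
    have e2 : TEq col (B ∪ range x) (Y j) y₁ := by
      refine stat hC.dom hC.max hC.big (hQB.trans subset_union_left) hBx
        (hC.Htyp _ hBx _ (hYP j)).free hy₁F ?_
      exact ((hY j).symm.trans hy₁).mono hQB
    exact e1.trans (teq_adjoin'.2 e2)
  have hA' : ∀ i j, j < i → TEq col B (Sum.elim (X i) (Y j)) (Sum.elim x₁ y) := by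
    intro i j hij
    have e1 : TEq col B (Sum.elim (X i) (Y j)) (Sum.elim (X i) y) :=
      teq_adjoin'.2 (hlt i j hij).symm
    have e2 : TEq col (B ∪ range y) (X i) x₁ := by
      refine stat hC.dom hC.max hC.big (hQB.trans subset_union_left) hBy
        (hC.Htyp _ hBy _ (hXP i)).free hx₁F ?_
      exact ((hX i).symm.trans hx₁).mono hQB
    exact e1.trans (teq_adjoin.2 e2)
  obtain ⟨a, p, hp⟩ : ∃ (a : ℕ) (p : Fin a → M), range p = B := by
    obtain ⟨a, ⟨e⟩⟩ := @Finite.exists_equiv_fin B hB.to_subtype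
    refine ⟨a, fun i => (e.symm i : M), ?_⟩
    ext b
    constructor
    · rintro ⟨i, rfl⟩
      exact (e.symm i).2
    · intro hb
      exact ⟨e ⟨b, hb⟩, by simp⟩
  apply hC.unb a r
  intro m L
  refine ⟨p, fun i => X (i * L), fun i j ν => Y (min (i : ℕ) j * L + ν), ?_⟩
  have key : ∀ i j : Fin m, i < j → ∀ ν : Fin L,
      ¬ TEq col (range p ∪ range (Y ((i : ℕ) * L + ν))) (X (i * L)) (X (j * L)) := by
    intro i j hij ν h
    rw [hp] at h
    have h1 := hA (i * L) (i * L + ν) (Nat.le_add_right _ _)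
    have h2 := hA' (j * L) (i * L + ν) (by
      have h3 : (i : ℕ) + 1 ≤ j := hij
      calc (i : ℕ) * L + ν < i * L + L := Nat.add_lt_add_left ν.2 _
        _ = (i + 1) * L := by ring
        _ ≤ j * L := Nat.mul_le_mul_right _ h3)
    exact hcon (h1.symm.trans ((teq_adjoin.2 h).trans h2))
  intro i j hij
  refine ⟨fun ν h => ?_, fun ν ν' hν s s' => ?_⟩
  · rcases lt_or_gt_of_ne hij with hlt' | hlt'
    · beta_reduce at h
      rw [min_eq_left (Fin.le_def.1 hlt'.le)] at h
      exact key i j hlt' ν h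
    · beta_reduce at h
      rw [min_eq_right (Fin.le_def.1 hlt'.le)] at h
      exact key j i hlt' ν h.symm
  · apply hdisj
    intro he
    apply hν
    apply Fin.ext
    omega

theorem sym {Q : Set M} {ν : ℕ} {H : Set M → Set M} (hC : Ctx col Q ν H) {B : Set M}
    (hQB : Q ⊆ B) (hB : B.Finite) {x y : Fin r → M} (hx : Typ col B x) (hy : Typ col B y)
    (h : Free col univ (B ∪ range y) x) : Free col univ (B ∪ range x) y := by
  obtain ⟨y₁, -, hy₁, hy₁F⟩ := hy.free.exists_ext hC.dom
    (B' := B ∪ range x) (hB.union (finite_range _)) ∅ finite_empty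
  have := order_lemma hC hQB hB hx hy (TEq.refl _ _) hy₁ h hy₁F
  exact Free.congr (teq_adjoin'.1 this) hy₁F

theorem uniq {Q : Set M} {ν : ℕ} {H : Set M → Set M} (hC : Ctx col Q ν H) {B : Set M}
    (hQB : Q ⊆ B) (hB : B.Finite) {x x' : Fin r → M} (hx : Typ col B x) (hx' : Typ col B x')
    (h : TEq col Q x x') : Gm col B univ x x' := by
  classical
  have hB' : (B ∪ range x ∪ range x').Finite :=
    (hB.union (finite_range _)).union (finite_range _)
  refine ⟨H (B ∪ range x ∪ range x'), hC.Hfin _ hB', ?_⟩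
  apply TEq.intro
  intro u u' hu
  by_cases hne : ∃ i, u i = u' i ∧ u i ∈ univ \ H (B ∪ range x ∪ range x')
  · obtain ⟨i₀, hi₀⟩ := hne
    let y : Fin r → M := fun i =>
      if u i = u' i ∧ u i ∈ univ \ H (B ∪ range x ∪ range x') then u i else u i₀
    have hyH : ∀ i, y i ∉ H (B ∪ range x ∪ range x') := by
      intro i
      by_cases hi : u i = u' i ∧ u i ∈ univ \ H (B ∪ range x ∪ range x')
      · simp only [y, if_pos hi]
        exact hi.2.2
      · simp only [y, if_neg hi]
        exact hi₀.2.2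
    have hyT := hC.Htyp _ hB' y hyH
    have hyB : Typ col B y := hyT.mono_base (subset_union_left.trans subset_union_left)
    have f1 : Free col univ (B ∪ range y) x :=
      sym hC hQB hB hyB hx (hyT.free.mono_base subset_union_left)
    have f2 : Free col univ (B ∪ range y) x' :=
      sym hC hQB hB hyB hx' (hyT.free.mono_base
        (union_subset_union_left _ subset_union_left))
    have h3 := stat hC.dom hC.max hC.big (hQB.trans subset_union_left)
      (hB.union (finite_range _)) f1 f2 h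
    apply h3.elim
    intro i
    rcases hu i with ⟨e1, e2 | e2⟩ | e1
    · exact Or.inl ⟨e1, Or.inl e2⟩
    · refine Or.inl ⟨e1, Or.inr ⟨i, ?_⟩⟩
      simp only [y, if_pos (And.intro e1 e2)]
    · exact Or.inr e1
  · push Not at hne
    have h3 := stat hC.dom hC.max hC.big hQB hB hx.free hx'.free h
    apply h3.elim
    intro i
    rcases hu i with ⟨e1, e2 | e2⟩ | e1
    · exact Or.inl ⟨e1, e2⟩
    · exact absurd e2 (hne i e1)
    · exact Or.inr e1

end Pool.Agent.Sib
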