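import Pool.Agent.Sib.Big
import Pool.Agent.Sib.Sym

/-!
# The calculus of freeness in the bounded case
-/

namespace Pool.Agent.Sib

open Set

variable {r : ℕ} {M T : Type} {col : (Fin r → M) → T}


/-! ## MODULE CALC (uses stat, sym, uniq) -/

/-- A nonempty set with at most `r` elements is the range of an `r`-tuple. -/
theorem calc_exists_range_eq {s : Set M} (hs : s.Nonempty) (h : s.encard ≤ r) :
    ∃ w : Fin r → M, range w = s := by
  classical
  have hfin : s.Finite := finite_of_encard_le_coe h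
  obtain ⟨a, ha⟩ := hs
  have := hfin.to_subtype
  obtain ⟨n, ⟨e⟩⟩ := Finite.exists_equiv_fin s
  have hn : n ≤ r := by
    have h1 : s.encard = n := by
      rw [← ENat.card_coe_set_eq, ENat.card_congr e]
      simp
    rw [h1] at h
    exact_mod_cast h
  refine ⟨fun i => if hi : (i : ℕ) < n then (e.symm ⟨i, hi⟩ : M) else a, ?_⟩
  ext b
  constructor
  · rintro ⟨i, rfl⟩
    dsimp only
    split_ifs with hi
    · exact (e.symm ⟨i, hi⟩).2
    · exact ha
  · intro hb
    have hlt : ((e ⟨b, hb⟩ : Fin n) : ℕ) < n := (e ⟨b, hb⟩).2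
    refine ⟨⟨(e ⟨b, hb⟩ : Fin n), by omega⟩, ?_⟩
    dsimp only
    rw [dif_pos hlt]
    simp

section Calc

variable {Q : Set M} {ν : ℕ} {H : Set M → Set M}

theorem typ_of_small (hC : Ctx col Q ν H) {B : Set M} (hB : B.Finite) {ι : Type} {x : ι → M}
    (hx : (range x).encard ≤ r) (hxH : ∀ i, x i ∉ H B) : Typ col B x := by
  classical
  rcases isEmpty_or_nonempty ι with hι | hι
  · intro G _
    exact ⟨x, fun i => hι.elim i, Gm.refl _ _ _⟩
  · obtain ⟨w, hw⟩ := calc_exists_range_eq (range_nonempty x) hx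
    have hg : ∀ i, ∃ k, w k = x i := fun i => by
      have : x i ∈ range w := by rw [hw]; exact mem_range_self i
      exact this
    choose g hg using hg
    have h1 : Typ col B w := by
      refine hC.Htyp B hB w (fun k => ?_)
      have : w k ∈ range x := by rw [← hw]; exact mem_range_self k
      obtain ⟨i, hi⟩ := this
      rw [← hi]
      exact hxH i
    have h2 : x = w ∘ g := funext fun i => (hg i).symm
    rw [h2]
    exact h1.comp g

theorem gm_of_small (hC : Ctx col Q ν H) {B : Set M} (hQB : Q ⊆ B) (hB : B.Finite) {ι : Type}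
    [Finite ι] {x x' : ι → M} (hx : (range x).encard ≤ r) (hxH : ∀ i, x i ∉ H B)
    (hxH' : ∀ i, x' i ∉ H B) (h : TEq col Q x x') : Gm col B univ x x' := by
  classical
  rcases isEmpty_or_nonempty ι with hι | hι
  · have : x = x' := Subsingleton.elim _ _
    rw [this]
    exact Gm.refl _ _ _
  · obtain ⟨w, hw⟩ := calc_exists_range_eq (range_nonempty x) hx
    have hg : ∀ i, ∃ k, w k = x i := fun i => by
      have : x i ∈ range w := by rw [hw]; exact mem_range_self i
      exact this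
    choose g hg using hg
    have ha : ∀ k, ∃ i, x i = w k := fun k => by
      have : w k ∈ range x := by rw [← hw]; exact mem_range_self k
      exact this
    choose a ha using ha
    have h1 : w = x ∘ a := funext fun k => (ha k).symm
    have h2 : x = (x ∘ a) ∘ g := by
      rw [← h1]; exact funext fun i => (hg i).symm
    have h3 : x' = (x' ∘ a) ∘ g := by
      funext i
      have h4 : x i = x (a (g i)) := congrFun h2 i
      exact (h.eq_iff hC.dom i (a (g i))).1 h4
    have h5 : Gm col B univ (x ∘ a) (x' ∘ a) := by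
      refine uniq hC hQB hB ?_ ?_ (h.comp a)
      · exact hC.Htyp B hB _ fun k => hxH _
      · exact hC.Htyp B hB _ fun k => hxH' _
    rw [h2, h3]
    exact h5.comp g

theorem ind_symm (hC : Ctx col Q ν H) {B : Set M} (hQB : Q ⊆ B) (hB : B.Finite) {z y : Set M}
    (hz : z.encard ≤ r) (hy : y.encard ≤ r) (hzH : Disjoint z (H B)) (hyH : Disjoint y (H B))
    (h : FreeS col univ (B ∪ y) z) : FreeS col univ (B ∪ z) y := by
  classical
  rcases y.eq_empty_or_nonempty with rfl | hyn
  · exact freeS_empty _ _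
  rcases z.eq_empty_or_nonempty with rfl | hzn
  · rw [union_empty]
    refine (typ_of_small hC hB (x := fun i : y => (i : M)) ?_ ?_).free
    · rwa [Subtype.range_coe]
    · exact fun i => disjoint_left.1 hyH i.2
  · obtain ⟨w, hw⟩ := calc_exists_range_eq hzn hz
    obtain ⟨v, hv⟩ := calc_exists_range_eq hyn hy
    have h1 : Free col univ (B ∪ range v) w := by
      rw [free_iff_range, hw, hv]; exact h
    have h2 := sym hC hQB hB (x := w) (y := v) (hC.Htyp B hB _ fun k => ?_)
      (hC.Htyp B hB _ fun k => ?_) h1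
    · rwa [free_iff_range, hw, hv] at h2
    · refine disjoint_left.1 hzH ?_
      rw [← hw]; exact mem_range_self k
    · refine disjoint_left.1 hyH ?_
      rw [← hv]; exact mem_range_self k

/-- Freeness over `Q` and a tuple depends only on the type over `Q`. -/
theorem ind_inv (hC : Ctx col Q ν H) {ι κ : Type} [Finite ι] [Finite κ] {x x' : ι → M}
    {y y' : κ → M} (hy : (range y).encard ≤ r) (hyH : ∀ i, y i ∉ H Q) (hyH' : ∀ i, y' i ∉ H Q)
    (h : TEq col Q (Sum.elim x y) (Sum.elim x' y')) (hF : Free col univ (Q ∪ range y) x) :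
    Free col univ (Q ∪ range y') x' := by
  obtain ⟨G, hG, hGe⟩ := gm_of_small hC subset_rfl hC.Qfin hy hyH hyH' h.snd
  intro G₃ hG₃
  obtain ⟨x'', h1, h2⟩ := hF (G ∪ G₃) (hG.union hG₃)
  refine ⟨x'', fun i => ⟨mem_univ _, fun hi => (h1 i).2 (Or.inr hi)⟩, ?_⟩
  have h3 : TEq col Q (Sum.elim x'' y) (Sum.elim x'' y') := by
    rw [teq_adjoin']
    refine hGe.mono (union_subset_union_right _ ?_)
    rintro _ ⟨i, rfl⟩
    exact ⟨mem_univ _, fun hi => (h1 i).2 (Or.inl hi)⟩
  have h4 : TEq col Q (Sum.elim x y) (Sum.elim x'' y) := teq_adjoin.2 h2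
  exact teq_adjoin.1 ((h.symm.trans h4).trans h3)

/-- Tuple version of transitivity. -/
theorem ind_trans_tuple (hC : Ctx col Q ν H) {ι₁ ι₂ κ : Type} [Finite ι₁] [Finite ι₂] [Finite κ]
    {X₁ : ι₁ → M} {X₂ : ι₂ → M} {Y : κ → M} (h2 : (range (Sum.elim X₂ Y)).encard ≤ r)
    (hX₂ : ∀ i, X₂ i ∉ H Q) (hY : ∀ i, Y i ∉ H Q) (hF2 : Free col univ (Q ∪ range Y) X₂)
    (hF1 : Free col univ (Q ∪ range (Sum.elim X₂ Y)) X₁) :
    Free col univ (Q ∪ range Y) (Sum.elim X₁ X₂) := by
  intro G hG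
  obtain ⟨X₂', h3, h4⟩ := hF2 (G ∪ H Q) (hG.union (hC.Hfin Q hC.Qfin))
  have h5 : TEq col Q (Sum.elim X₂ Y) (Sum.elim X₂' Y) := teq_adjoin.2 h4
  obtain ⟨G'', hG'', hge⟩ := gm_of_small hC subset_rfl hC.Qfin h2
    (by rintro (i | i)
        · exact hX₂ i
        · exact hY i)
    (by rintro (i | i)
        · exact fun hi => (h3 i).2 (Or.inr hi)
        · exact hY i) h5
  have hQF : Free col univ Q X₁ := hF1.mono_base subset_union_left
  have hB1 : (Q ∪ range (Sum.elim X₂' Y)).Finite := hC.Qfin.union (finite_range _)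
  obtain ⟨Xs, hs1, hs2, hs3⟩ := hQF.exists_ext hC.dom hB1 G hG
  -- copies of `Xs` avoiding `G''`
  have key : ∀ G₃ : Set M, G₃.Finite → ∃ z : ι₁ → M, (∀ i, z i ∉ G₃) ∧
      TEq col Q (Sum.elim z (Sum.elim X₂ Y)) (Sum.elim Xs (Sum.elim X₂' Y)) := by
    intro G₃ hG₃
    obtain ⟨z, hz1, hz2⟩ := hs3 (G'' ∪ G₃) (hG''.union hG₃)
    refine ⟨z, fun i hi => (hz1 i).2 (Or.inr hi), ?_⟩
    have h6 : TEq col Q (Sum.elim z (Sum.elim X₂ Y)) (Sum.elim z (Sum.elim X₂' Y)) := by
      rw [teq_adjoin']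
      refine hge.mono (union_subset_union_right _ ?_)
      rintro _ ⟨i, rfl⟩
      exact ⟨mem_univ _, fun hi => (hz1 i).2 (Or.inl hi)⟩
    exact h6.trans (teq_adjoin.2 hz2.symm)
  obtain ⟨z, -, hz⟩ := key ∅ finite_empty
  have hzF : Free col univ (Q ∪ range (Sum.elim X₂ Y)) z := by
    intro G₃ hG₃
    obtain ⟨z', hz1, hz2⟩ := key G₃ hG₃
    exact ⟨z', fun i => ⟨mem_univ _, hz1 i⟩, teq_adjoin.1 (hz.trans hz2.symm)⟩
  have hst : TEq col (Q ∪ range (Sum.elim X₂ Y)) X₁ z := by
    refine stat hC.dom hC.max hC.big subset_union_left (hC.Qfin.union (finite_range _)) hF1 hzF ?_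
    exact hs2.trans hz.fst.symm
  have hfin : TEq col Q (Sum.elim X₁ (Sum.elim X₂ Y)) (Sum.elim Xs (Sum.elim X₂' Y)) :=
    (teq_adjoin.2 hst).trans hz
  refine ⟨Sum.elim Xs X₂', ?_, ?_⟩
  · rintro (i | i)
    · exact hs1 i
    · exact ⟨mem_univ _, fun hi => (h3 i).2 (Or.inl hi)⟩
  · rw [← teq_adjoin]
    have h7 := hfin.comp (Equiv.sumAssoc ι₁ ι₂ κ)
    have h8 : ∀ (a : ι₁ → M) (b : ι₂ → M) (c : κ → M),
        Sum.elim a (Sum.elim b c) ∘ (Equiv.sumAssoc ι₁ ι₂ κ) = Sum.elim (Sum.elim a b) c := by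
      intro a b c
      funext i
      rcases i with (i | i) | i <;> rfl
    rwa [h8, h8] at h7

theorem ind_trans (hC : Ctx col Q ν H) {x₁ x₂ y : Set M} (h1 : x₁.Finite)
    (h2 : (x₂ ∪ y).encard ≤ r) (hx₂ : Disjoint x₂ (H Q)) (hy : Disjoint y (H Q))
    (hF2 : FreeS col univ (Q ∪ y) x₂) (hF1 : FreeS col univ (Q ∪ (x₂ ∪ y)) x₁) :
    FreeS col univ (Q ∪ y) (x₁ ∪ x₂) := by
  have hf2 : (x₂ ∪ y).Finite := finite_of_encard_le_coe h2
  have := h1.to_subtype
  have := (hf2.subset subset_union_left).to_subtype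
  have := (hf2.subset subset_union_right).to_subtype
  have hr : range (Sum.elim (fun i : x₂ => (i : M)) (fun i : y => (i : M))) = x₂ ∪ y := by
    rw [Sum.elim_range, Subtype.range_coe, Subtype.range_coe]
  have h := ind_trans_tuple hC (X₁ := fun i : x₁ => (i : M)) (X₂ := fun i : x₂ => (i : M))
    (Y := fun i : y => (i : M)) (by rw [hr]; exact h2) (fun i => disjoint_left.1 hx₂ i.2)
    (fun i => disjoint_left.1 hy i.2) (by rw [Subtype.range_coe]; exact hF2)
    (by rw [hr]; exact hF1)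
  rw [Subtype.range_coe, free_iff_range, Sum.elim_range, Subtype.range_coe, Subtype.range_coe] at h
  exact h

/-- The simple form of transitivity. -/
theorem free_union (hC : Ctx col Q ν H) {B : Set M} {ι κ : Type} [Finite ι] [Finite κ]
    {x : ι → M} {y : κ → M} (hy : Typ col B y) (hx : Free col univ (B ∪ range y) x) :
    Free col univ B (Sum.elim x y) := by
  intro G hG
  obtain ⟨y', h1, G'', hG'', h2⟩ := hy G hG
  obtain ⟨x', h3, h4⟩ := hx (G ∪ G'') (hG.union hG'')
  refine ⟨Sum.elim x' y', ?_, ?_⟩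
  · rintro (i | i)
    · exact ⟨mem_univ _, fun hi => (h3 i).2 (Or.inl hi)⟩
    · exact ⟨mem_univ _, h1 i⟩
  · refine (teq_adjoin.2 h4).trans ?_
    rw [teq_adjoin']
    refine h2.mono (union_subset_union_right _ ?_)
    rintro _ ⟨i, rfl⟩
    exact ⟨mem_univ _, fun hi => (h3 i).2 (Or.inr hi)⟩

theorem ind_up (hC : Ctx col Q ν H) {B : Set M} (hQB : Q ⊆ B) (hB : B.Finite) {z y : Set M}
    (hzy : (z ∪ y).encard ≤ r) (hH : Disjoint (z ∪ y) (H B))
    (h : FreeS col univ (Q ∪ y) z) : FreeS col univ (B ∪ y) z := by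
  have hf2 : (z ∪ y).Finite := finite_of_encard_le_coe hzy
  have hyf : y.Finite := hf2.subset subset_union_right
  have := (hf2.subset subset_union_left).to_subtype
  have := hyf.to_subtype
  have hH' : ∀ b ∈ z ∪ y, b ∉ H B := fun b hb => disjoint_left.1 hH hb
  obtain ⟨zs, -, h1, h2⟩ := Free.exists_ext hC.dom (hB.union hyf) h ∅ finite_empty
  set Z : z → M := fun i => (i : M) with hZ
  set Y : y → M := fun i => (i : M) with hY
  have hrY : range Y = y := Subtype.range_coe
  have hrZY : range (Sum.elim Z Y) = z ∪ y := by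
    rw [Sum.elim_range, Subtype.range_coe, Subtype.range_coe]
  have h1' : TEq col (Q ∪ range Y) Z zs := by rw [hrY]; exact h1
  have h3 : TEq col Q (Sum.elim Z Y) (Sum.elim zs Y) := teq_adjoin.2 h1'
  have hYt : Typ col B Y := by
    refine typ_of_small hC hB ?_ (fun i => hH' _ (Or.inr i.2))
    rw [hrY]
    exact (encard_le_encard subset_union_right).trans hzy
  have h4 : Free col univ B (Sum.elim zs Y) := free_union hC hYt (by rw [hrY]; exact h2)
  have h5 : Free col univ B (Sum.elim Z Y) := by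
    refine (typ_of_small hC hB (by rw [hrZY]; exact hzy) ?_).free
    rintro (i | i)
    · exact hH' _ (Or.inl i.2)
    · exact hH' _ (Or.inr i.2)
  have h6 : TEq col B (Sum.elim Z Y) (Sum.elim zs Y) := stat hC.dom hC.max hC.big hQB hB h5 h4 h3
  have h7 : TEq col (B ∪ y) Z zs := by
    have := teq_adjoin.1 h6
    rwa [hrY] at this
  exact h2.congr h7.symm

theorem ind_loc (hC : Ctx col Q ν H) {B F : Set M} (hQB : Q ⊆ B) (hB : B.Finite)
    (hF : F.Finite) (hQF : FreeS col univ Q F)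
    (h : ∀ z ⊆ F, ∀ y ⊆ B, z.encard + y.encard ≤ r → FreeS col univ (Q ∪ y) z) :
    FreeS col univ B F := by
  have := hF.to_subtype
  intro G hG
  obtain ⟨F', h1, h2⟩ := hQF (G ∪ H B) (hG.union (hC.Hfin B hB))
  refine ⟨F', fun i => ⟨mem_univ _, fun hi => (h1 i).2 (Or.inl hi)⟩, ?_⟩
  refine teq_local' fun z A hA hzA => ?_
  have hQA : Q ∪ A ⊆ B := union_subset hQB hA
  have hz1 : z.encard ≤ r := le_trans le_self_add hzA
  have hF1 : Free col univ (Q ∪ A) (fun i : z => ((i : F) : M)) := by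
    have h3 := h (Subtype.val '' z) (by rintro _ ⟨i, _, rfl⟩; exact i.2) A hA (by
      rw [Subtype.val_injective.encard_image]; exact hzA)
    exact Free.of_range_subset h3 (fun i => mem_image_of_mem _ i.2)
  have hF2 : Free col univ (Q ∪ A) (fun i : z => F' i) := by
    refine (typ_of_small hC hB ?_ ?_).free.mono_base hQA
    · refine le_trans ?_ hz1
      rw [← image_univ]
      refine (encard_image_le _ _).trans ?_
      rw [encard_univ, ENat.card_coe_set_eq]
    · exact fun i hi => (h1 i).2 (Or.inr hi)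
  have h3 : TEq col Q (fun i : z => ((i : F) : M)) (fun i : z => F' i) :=
    h2.comp (fun i : z => (i : F))
  exact (stat hC.dom hC.max hC.big subset_union_left (hB.subset hQA) hF1 hF2 h3).mono
    subset_union_right

end Calc

end Pool.Agent.Sib
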