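import Pool.Agent.Sib.Calc

/-!
# Tight sets: decomposition and local finiteness
-/

namespace Pool.Agent.Sib

open Set

variable {r : ℕ} {M T : Type} {col : (Fin r → M) → T}



section Tight

variable {Q : Set M} {ν : ℕ} {H : Set M → Set M}

/-- A small set avoiding `H B` is free over `B`. -/
theorem tight_freeS_of_small (hC : Ctx col Q ν H) {B z : Set M} (hB : B.Finite)
    (hz : z.encard ≤ r) (hzH : Disjoint z (H B)) : FreeS col univ B z := by
  apply Typ.free
  apply typ_of_small hC hB
  · simpa using hz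
  · intro i hi
    exact disjoint_left.1 hzH i.2 hi

theorem tight_fin_of_encard {z : Set M} (hz : z.encard ≤ r) : z.Finite := by
  rw [← encard_lt_top_iff]
  exact lt_of_le_of_lt hz (by simp)

theorem dec_aux (hC : Ctx col Q ν H) (n : ℕ) : ∀ {z y : Set M}, (z ∪ y).encard ≤ r →
    (z ∪ y).ncard ≤ n → Disjoint (z ∪ y) (H Q) →
    (∀ e, Tight col Q (H Q)ᶜ e → e ⊆ z ∪ y → (e ∩ z).Nonempty → (e ∩ y).Nonempty → False) →
    FreeS col univ (Q ∪ y) z := by
  induction n with
  | zero =>
    intro z y hzy hn _ _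
    have hfin : (z ∪ y).Finite := tight_fin_of_encard hzy
    have h0 : z ∪ y = ∅ := by
      rw [← ncard_eq_zero hfin]
      omega
    have hz : z = ∅ := by
      rw [← subset_empty_iff, ← h0]
      exact subset_union_left
    rw [hz]
    exact freeS_empty _ _
  | succ n ih =>
    intro z y hzy hn hH h
    have hfin : (z ∪ y).Finite := tight_fin_of_encard hzy
    rcases z.eq_empty_or_nonempty with hz | hz
    · rw [hz]
      exact freeS_empty _ _
    rcases y.eq_empty_or_nonempty with hy | hy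
    · rw [hy, union_empty]
      exact tight_freeS_of_small hC hC.Qfin ((encard_le_encard subset_union_left).trans hzy)
        (hH.mono_left subset_union_left)
    -- `z ∪ y` is not tight
    have hnt : ∃ e₁ ⊆ z ∪ y, e₁.Nonempty ∧ e₁ ≠ z ∪ y ∧
        FreeS col univ (Q ∪ ((z ∪ y) \ e₁)) e₁ := by
      by_contra hcon
      push Not at hcon
      apply h (z ∪ y) ⟨hz.mono subset_union_left, hzy, ?_, ?_⟩ subset_rfl
      · rw [inter_eq_right.2 subset_union_left]
        exact hz
      · rw [inter_eq_right.2 subset_union_right]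
        exact hy
      · exact subset_compl_iff_disjoint_right.2 hH
      · intro e₁ h1 h2 h3
        exact hcon e₁ h1 h2 h3
    obtain ⟨e₁, he₁, hne, hne', hF⟩ := hnt
    set e₂ := (z ∪ y) \ e₁ with he₂
    have he₂ne : e₂.Nonempty := by
      rw [he₂, sdiff_nonempty]
      intro hsub
      exact hne' (subset_antisymm he₁ hsub)
    have he₂s : e₂ ⊆ z ∪ y := sdiff_subset
    set z₁ := z ∩ e₁ with hz₁
    set z₂ := z ∩ e₂ with hz₂
    set y₁ := y ∩ e₁ with hy₁
    set y₂ := y ∩ e₂ with hy₂
    have hU : e₁ ∪ e₂ = z ∪ y := union_sdiff_cancel he₁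
    have hzU : z₁ ∪ z₂ = z := by
      rw [hz₁, hz₂, ← inter_union_distrib_left, hU]
      exact inter_eq_left.2 subset_union_left
    have hyU : y₁ ∪ y₂ = y := by
      rw [hy₁, hy₂, ← inter_union_distrib_left, hU]
      exact inter_eq_left.2 subset_union_right
    have h1U : z₁ ∪ y₁ = e₁ := by
      rw [hz₁, hy₁, ← union_inter_distrib_right]
      exact inter_eq_right.2 he₁
    have h2U : z₂ ∪ y₂ = e₂ := by
      rw [hz₂, hy₂, ← union_inter_distrib_right]
      exact inter_eq_right.2 he₂s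
    -- cardinalities
    have hlt1 : e₁.ncard ≤ n := by
      have : e₁.ncard < (z ∪ y).ncard :=
        ncard_lt_ncard (ssubset_iff_subset_ne.2 ⟨he₁, hne'⟩) hfin
      omega
    have hlt2 : e₂.ncard ≤ n := by
      have : e₂.ncard < (z ∪ y).ncard := by
        apply ncard_lt_ncard (ssubset_iff_subset_ne.2 ⟨he₂s, ?_⟩) hfin
        intro heq
        obtain ⟨b, hb⟩ := hne
        have : b ∈ e₂ := heq ▸ he₁ hb
        exact this.2 hb
      omega
    have he₁c : e₁.encard ≤ r := (encard_le_encard he₁).trans hzy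
    have he₂c : e₂.encard ≤ r := (encard_le_encard he₂s).trans hzy
    have hsub : ∀ w ⊆ z ∪ y, w.encard ≤ r := fun w hw => (encard_le_encard hw).trans hzy
    have hdis : ∀ w ⊆ z ∪ y, Disjoint w (H Q) := fun w hw => hH.mono_left hw
    have sz₁ : z₁ ⊆ z ∪ y := inter_subset_left.trans subset_union_left
    have sz₂ : z₂ ⊆ z ∪ y := inter_subset_left.trans subset_union_left
    have sy₁ : y₁ ⊆ z ∪ y := inter_subset_left.trans subset_union_right
    have sy₂ : y₂ ⊆ z ∪ y := inter_subset_left.trans subset_union_right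
    -- induction hypotheses
    have ih1 : FreeS col univ (Q ∪ y₁) z₁ := by
      apply ih (h1U ▸ he₁c) (h1U ▸ hlt1) (h1U ▸ hdis e₁ he₁)
      intro e ht hes hez hey
      refine h e ht (hes.trans (h1U ▸ he₁)) ?_ ?_
      · exact hez.mono (inter_subset_inter_right _ inter_subset_left)
      · exact hey.mono (inter_subset_inter_right _ inter_subset_left)
    have ih2 : FreeS col univ (Q ∪ y₂) z₂ := by
      apply ih (h2U ▸ he₂c) (h2U ▸ hlt2) (h2U ▸ hdis e₂ he₂s)
      intro e ht hes hez hey
      refine h e ht (hes.trans (h2U ▸ he₂s)) ?_ ?_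
      · exact hez.mono (inter_subset_inter_right _ inter_subset_left)
      · exact hey.mono (inter_subset_inter_right _ inter_subset_left)
    have sym' : ∀ {u v : Set M}, u ⊆ z ∪ y → v ⊆ z ∪ y → FreeS col univ (Q ∪ v) u →
        FreeS col univ (Q ∪ u) v := by
      intro u v hu hv huv
      exact ind_symm hC subset_rfl hC.Qfin (hsub u hu) (hsub v hv) (hdis u hu) (hdis v hv) huv
    -- (a)
    have a1 : FreeS col univ (Q ∪ z₁) ((z₂ ∪ y₂) ∪ y₁) := by
      apply ind_trans hC (tight_fin_of_encard (h2U ▸ he₂c)) _ (hdis _ sy₁) (hdis _ sz₁)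
      · exact sym' sz₁ sy₁ ih1
      · rw [union_comm y₁ z₁, h1U, h2U]
        exact sym' he₁ he₂s hF
      · rw [union_comm y₁ z₁, h1U]
        exact he₁c
    have a2 : FreeS col univ (Q ∪ ((z₂ ∪ y₂) ∪ y₁)) z₁ := by
      apply sym' _ sz₁ a1
      exact union_subset (union_subset sz₂ sy₂) sy₁
    -- (b)
    have b1 : FreeS col univ (Q ∪ z₂) (y₁ ∪ y₂) := by
      apply ind_trans hC (tight_fin_of_encard (hsub _ sy₁)) _ (hdis _ sy₂) (hdis _ sz₂)
      · exact sym' sz₂ sy₂ ih2
      · rw [union_comm y₂ z₂, h2U]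
        exact hF.mono inter_subset_right
      · rw [union_comm y₂ z₂, h2U]
        exact he₂c
    have b2 : FreeS col univ (Q ∪ (y₁ ∪ y₂)) z₂ :=
      sym' (union_subset sy₁ sy₂) sz₂ b1
    -- (c)
    have c1 : FreeS col univ (Q ∪ (y₁ ∪ y₂)) (z₁ ∪ z₂) := by
      apply ind_trans hC (tight_fin_of_encard (hsub _ sz₁)) _ (hdis _ sz₂)
        (hdis _ (union_subset sy₁ sy₂)) b2
      · have : z₂ ∪ (y₁ ∪ y₂) = (z₂ ∪ y₂) ∪ y₁ := by
          rw [union_assoc, union_comm y₂ y₁]
        rw [this]
        exact a2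
      · exact hsub _ (union_subset sz₂ (union_subset sy₁ sy₂))
    rw [hzU, hyU] at c1
    exact c1

theorem dec (hC : Ctx col Q ν H) {z y : Set M} (hzy : (z ∪ y).encard ≤ r)
    (hH : Disjoint (z ∪ y) (H Q))
    (h : ∀ e, Tight col Q (H Q)ᶜ e → e ⊆ z ∪ y → (e ∩ z).Nonempty → (e ∩ y).Nonempty → False) :
    FreeS col univ (Q ∪ y) z :=
  dec_aux hC _ hzy le_rfl hH h

theorem tight_singleton (hC : Ctx col Q ν H) {b : M} (hb : b ∉ H Q) :
    Tight col Q (H Q)ᶜ {b} := by
  have h2 := hC.dom.two_le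
  refine ⟨singleton_nonempty b, ?_, by simpa using hb, ?_⟩
  · rw [encard_singleton]
    exact_mod_cast (by omega : 1 ≤ r)
  · intro e₁ h1 h3 h4
    exact absurd ((subset_singleton_iff_eq.1 h1).resolve_left h3.ne_empty) h4

theorem tight_finite_aux (hC : Ctx col Q ν H) (n : ℕ) : ∀ {D : Set M}, D.Finite → D.Nonempty →
    r < D.ncard + n → {e | Tight col Q (H Q)ᶜ e ∧ D ⊆ e}.Finite := by
  induction n with
  | zero =>
    intro D hD hne hn
    convert finite_empty
    rw [eq_empty_iff_forall_notMem]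
    rintro e ⟨ht, hDe⟩
    have h1 : D.encard ≤ r := (encard_le_encard hDe).trans ht.2.1
    rw [← hD.cast_ncard_eq] at h1
    have : D.ncard ≤ r := by exact_mod_cast h1
    omega
  | succ n ih =>
    intro D hD hne hn
    have hB : (Q ∪ D).Finite := hC.Qfin.union hD
    have hfin : (H (Q ∪ D) \ D).Finite := (hC.Hfin _ hB).sdiff
    have : {e | Tight col Q (H Q)ᶜ e ∧ D ⊆ e} ⊆
        {D} ∪ ⋃ u ∈ H (Q ∪ D) \ D, {e | Tight col Q (H Q)ᶜ e ∧ insert u D ⊆ e} := by
      rintro e ⟨ht, hDe⟩
      by_cases he : e = D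
      · exact Or.inl he
      · right
        have hne' : (e \ D).Nonempty := by
          rw [sdiff_nonempty]
          intro hsub
          exact he (subset_antisymm hsub hDe)
        have hneq : e \ D ≠ e := by
          intro heq
          obtain ⟨b, hb⟩ := hne
          have : b ∈ e \ D := by rw [heq]; exact hDe hb
          exact this.2 hb
        have h1 := ht.2.2.2 (e \ D) sdiff_subset hne' hneq
        rw [sdiff_sdiff_cancel_left hDe] at h1
        have h2 : ¬ Disjoint (e \ D) (H (Q ∪ D)) := by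
          intro hdis
          exact h1 (tight_freeS_of_small hC hB ((encard_le_encard sdiff_subset).trans ht.2.1) hdis)
        obtain ⟨u, hu1, hu2⟩ := not_disjoint_iff.1 h2
        refine mem_iUnion₂.2 ⟨u, ⟨hu2, hu1.2⟩, ht, ?_⟩
        exact insert_subset hu1.1 hDe
    apply Finite.subset _ this
    apply (finite_singleton D).union
    apply hfin.biUnion
    intro u hu
    apply ih (hD.insert u) (insert_nonempty u D)
    rw [ncard_insert_of_notMem hu.2 hD]
    omega

theorem tight_finite (hC : Ctx col Q ν H) {D : Set M} (hD : D.Finite) :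
    {e | Tight col Q (H Q)ᶜ e ∧ (e ∩ D).Nonempty}.Finite := by
  have : {e | Tight col Q (H Q)ᶜ e ∧ (e ∩ D).Nonempty} ⊆
      ⋃ b ∈ D, {e | Tight col Q (H Q)ᶜ e ∧ {b} ⊆ e} := by
    rintro e ⟨ht, b, hb1, hb2⟩
    exact mem_iUnion₂.2 ⟨b, hb2, ht, singleton_subset_iff.2 hb1⟩
  apply Finite.subset _ this
  apply hD.biUnion
  intro b _
  exact tight_finite_aux hC (r + 1) (finite_singleton b) (singleton_nonempty b)
    (by rw [ncard_singleton]; omega)

end Tight

end Pool.Agent.Sib
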