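import Pool.Agent.Sib.Ker
import Pool.Agent.Sib.Big
import Pool.Agent.Sib.Calc
import Pool.Agent.Sib.Tight

/-! # Module SYS -/

namespace Pool.Agent.Sib

open Set

variable {r : ℕ} {M T : Type} {col : (Fin r → M) → T}

section Sys

variable {Q : Set M} {ν : ℕ} {H : Set M → Set M} {E : ℕ → Set M} {m : ℕ} {e : Fin m → ℕ → Set M}

/-- The elements of the system outside the first `l` blocks avoid `H B` for `B` in the first `l`
blocks. -/
theorem sys_avoid (hS : Sys col Q H (Ker col univ) E m e) {l : ℕ} {B : Set M} (hB : B.Finite)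
    (hBs : B ⊆ Ker col univ ∪ Q ∪ (⋃ l' < l, E l')) {p : M}
    (hp : p ∈ SysN Q (Ker col univ) E m e)
    (hp' : p ∉ Ker col univ ∪ Q ∪ (⋃ l' < l, E l')) : p ∉ H B := by
  rcases hp with (hp | hp) | hp
  · exact absurd (Or.inl hp) hp'
  · obtain ⟨l₁, hl₁⟩ := mem_iUnion.1 hp
    have hle : l ≤ l₁ := by
      by_contra hlt
      push Not at hlt
      exact hp' (Or.inr (mem_iUnion₂.2 ⟨l₁, hlt, hl₁⟩))
    have := hS.base.far l₁ B hB (hBs.trans (union_subset_union_right _ ?_))
    · exact fun h => this.le_bot ⟨hl₁, h⟩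
    · intro b hb
      obtain ⟨l', hl', hb'⟩ := mem_iUnion₂.1 hb
      exact mem_iUnion₂.2 ⟨l', hl'.trans_le hle, hb'⟩
  · have := hS.far B hB (hBs.trans (union_subset_union_right _ ?_))
    · exact fun h => this.le_bot ⟨hp, h⟩
    · intro b hb
      obtain ⟨l', hl', hb'⟩ := mem_iUnion₂.1 hb
      exact mem_iUnion.2 ⟨l', hb'⟩

/-- The blocks are pairwise disjoint. -/
theorem sys_block_eq (hC : Ctx col Q ν H) (hS : Sys col Q H (Ker col univ) E m e) {p : M}
    {l l' : ℕ} (h : p ∈ E l) (h' : p ∈ E l') : l = l' := by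
  have key : ∀ {l l' : ℕ}, l < l' → p ∈ E l → p ∈ E l' → False := by
    intro l l' hlt h h'
    have := hS.base.far l' {p} (finite_singleton p) (by
      rintro _ rfl
      exact Or.inr (mem_iUnion₂.2 ⟨l, hlt, h⟩))
    exact this.le_bot ⟨h', hC.Hsub {p} rfl⟩
  rcases lt_trichotomy l l' with hlt | heq | hlt
  · exact (key hlt h h').elim
  · exact heq
  · exact (key hlt h' h).elim

theorem sysA_strips_subset : Strips m e ⊆ SysN Q (Ker col univ) E m e := subset_union_right

theorem block_subset_sysN (l : ℕ) : E l ⊆ SysN Q (Ker col univ) E m e :=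
  fun _ hp => Or.inl (Or.inr (mem_iUnion.2 ⟨l, hp⟩))

theorem sys_full (hS : Sys col Q H (Ker col univ) E m e) :
    Full col (SysN Q (Ker col univ) E m e) := by
  intro n t
  obtain ⟨l, e', h1, h2⟩ := hS.base.copy n t
  refine ⟨e', fun i => ?_, h1⟩
  rcases h2 i with h | h
  · exact Or.inl (Or.inl (Or.inl h))
  · exact block_subset_sysN l h

theorem full_univ : Full col (univ : Set M) := fun _ t => ⟨t, fun _ => mem_univ _, rfl⟩

theorem strips_countable (hS : Sys col Q H (Ker col univ) E m e) :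
    (Strips m e).Countable := by
  refine countable_iUnion (fun s => countable_iUnion (fun j => ?_))
  have := (hS.strip.tight s j).2.1
  exact (finite_of_encard_le_coe this).countable

theorem sys_countable (hC : Ctx col Q ν H) (hS : Sys col Q H (Ker col univ) E m e) :
    (SysN Q (Ker col univ) E m e).Countable := by
  refine (((ker_countable hC.dom full_univ).union hC.Qfin.countable).union ?_).union
    (strips_countable hS)
  exact countable_iUnion (fun l => (hS.base.fin l).countable)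

theorem freeS_of_avoid (hC : Ctx col Q ν H) {B z : Set M} (hB : B.Finite) (hz : z.encard ≤ r)
    (hzH : ∀ p ∈ z, p ∉ H B) : FreeS col univ B z := by
  apply (typ_of_small hC hB ?_ ?_).free
  · rw [Subtype.range_coe]
    exact hz
  · rintro ⟨p, hp⟩
    exact hzH p hp

theorem sys_F1 (hC : Ctx col Q ν H) (hS : Sys col Q H (Ker col univ) E m e) {l : ℕ}
    {z y : Set M} (hz : z ⊆ E l) (hy : y ⊆ SysN Q (Ker col univ) E m e \ E l) (hyf : y.Finite) :
    FreeS col univ (Q ∪ y) z := by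
  have hQ := hC.Qfin
  have hzf : z.Finite := (hS.base.fin l).subset hz
  apply ind_loc hC subset_union_left (hQ.union hyf) hzf
  · exact (hS.base.free l Q hQ (fun p hp => Or.inl (Or.inr hp))).mono hz
  · intro z' hz' y' hy' hcard
    have hz'r : z'.encard ≤ r := le_self_add.trans hcard
    have hy'r : y'.encard ≤ r := le_add_self.trans hcard
    have hy'f : y'.Finite := (hQ.union hyf).subset hy'
    let A : Set M := Ker col univ ∪ Q ∪ ⋃ l' < l, E l'
    have hQA : Q ⊆ A := fun p hp => Or.inl (Or.inr hp)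
    have hB₀f : (Q ∪ y' ∩ A).Finite := hQ.union (hy'f.subset inter_subset_left)
    have hB₀A : Q ∪ y' ∩ A ⊆ A := union_subset hQA inter_subset_right
    have hAsucc : A ∪ E l ⊆ Ker col univ ∪ Q ∪ ⋃ l' < l + 1, E l' := by
      rintro p (hp | hp)
      · rcases hp with hp | hp
        · exact Or.inl hp
        · obtain ⟨l', hl', hp'⟩ := mem_iUnion₂.1 hp
          exact Or.inr (mem_iUnion₂.2 ⟨l', by omega, hp'⟩)
      · exact Or.inr (mem_iUnion₂.2 ⟨l, by omega, hp⟩)
    -- members of `y' \ A`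
    have hy₁ : ∀ p ∈ y' \ A, p ∈ SysN Q (Ker col univ) E m e ∧
        p ∉ Ker col univ ∪ Q ∪ ⋃ l' < l + 1, E l' := by
      rintro p ⟨hp, hpA⟩
      have hpy : p ∈ y := by
        rcases hy' hp with h | h
        · exact absurd (hQA h) hpA
        · exact h
      refine ⟨(hy hpy).1, ?_⟩
      rintro (h | h)
      · exact hpA (Or.inl h)
      · obtain ⟨l', hl', hp'⟩ := mem_iUnion₂.1 h
        rcases Nat.lt_succ_iff_lt_or_eq.1 hl' with h1 | h1
        · exact hpA (Or.inr (mem_iUnion₂.2 ⟨l', h1, hp'⟩))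
        · exact (hy hpy).2 (h1 ▸ hp')
    have h1 : FreeS col univ ((Q ∪ y' ∩ A) ∪ z') (y' \ A) := by
      apply freeS_of_avoid hC (hB₀f.union (hzf.subset hz'))
        ((encard_le_encard sdiff_subset).trans hy'r)
      intro p hp
      refine sys_avoid hS (l := l + 1) (hB₀f.union (hzf.subset hz')) ?_ (hy₁ p hp).1 (hy₁ p hp).2
      exact (union_subset_union hB₀A (hz'.trans hz)).trans hAsucc
    have h2 : FreeS col univ ((Q ∪ y' ∩ A) ∪ (y' \ A)) z' := by
      apply ind_symm hC subset_union_left hB₀f ((encard_le_encard sdiff_subset).trans hy'r) hz'r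
        _ _ h1
      · rw [Set.disjoint_left]
        intro p hp
        refine sys_avoid hS (l := l + 1) hB₀f ?_ (hy₁ p hp).1 (hy₁ p hp).2
        exact (hB₀A.trans subset_union_left).trans hAsucc
      · exact (hS.base.far l _ hB₀f hB₀A).mono_left (hz'.trans hz)
    apply h2.mono_base
    rintro p (hp | hp)
    · exact Or.inl (Or.inl hp)
    · by_cases hpA : p ∈ A
      · exact Or.inl (Or.inr ⟨hp, hpA⟩)
      · exact Or.inr ⟨hp, hpA⟩

theorem sys_F2 (hC : Ctx col Q ν H) (hS : Sys col Q H (Ker col univ) E m e) {s : Fin m}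
    {a b : ℕ} {z y : Set M} (hzf : z.Finite)
    (hz : ∀ p ∈ z, ∃ i, a + 3 ≤ i ∧ i + 3 ≤ b ∧ p ∈ e s i)
    (hy : y ⊆ SysN Q (Ker col univ) E m e)
    (hy' : ∀ p ∈ y, ∀ j, a ≤ j → j ≤ b → p ∉ e s j) (hyf : y.Finite) :
    FreeS col univ (Q ∪ y) z := by
  have hQ := hC.Qfin
  have hzS : z ⊆ Strips m e := by
    intro p hp
    obtain ⟨i, _, _, hi⟩ := hz p hp
    exact mem_iUnion.2 ⟨s, mem_iUnion.2 ⟨i, hi⟩⟩
  apply ind_loc hC subset_union_left (hQ.union hyf) hzf (hS.free z hzf hzS)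
  intro z' hz' y' hyy' hcard
  have hy'f : y'.Finite := (hQ.union hyf).subset hyy'
  let A : Set M := Ker col univ ∪ Q ∪ ⋃ l, E l
  have hQA : Q ⊆ A := fun p hp => Or.inl (Or.inr hp)
  have hB₀f : (Q ∪ y' ∩ A).Finite := hQ.union (hy'f.subset inter_subset_left)
  have hB₀A : Q ∪ y' ∩ A ⊆ A := union_subset hQA inter_subset_right
  have hy₁ : ∀ p ∈ y' \ A, p ∈ y ∧ p ∈ Strips m e := by
    rintro p ⟨hp, hpA⟩
    have hpy : p ∈ y := by
      rcases hyy' hp with h | h
      · exact absurd (hQA h) hpA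
      · exact h
    refine ⟨hpy, ?_⟩
    rcases hy hpy with h | h
    · exact absurd h hpA
    · exact h
  have hsub : z' ∪ y' \ A ⊆ Strips m e :=
    union_subset (hz'.trans hzS) (fun p hp => (hy₁ p hp).2)
  have hcard' : (z' ∪ y' \ A).encard ≤ r :=
    (encard_union_le _ _).trans ((by gcongr; exact sdiff_subset : _ ≤ _).trans hcard)
  have h1 : FreeS col univ (Q ∪ y' \ A) z' := by
    apply dec hC hcard'
    · exact (hS.far Q hQ (fun p hp => Or.inl (Or.inr hp))).mono_left hsub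
    · intro e' he' hsub' hz1 hy1
      obtain ⟨p, hp1, hp2⟩ := hz1
      obtain ⟨q, hq1, hq2⟩ := hy1
      obtain ⟨i, hi1, hi2, hi3⟩ := hz p (hz' hp2)
      obtain ⟨hqy, hqS⟩ := hy₁ q hq2
      obtain ⟨s'', hq3⟩ := mem_iUnion.1 hqS
      obtain ⟨j, hq4⟩ := mem_iUnion.1 hq3
      have hS' := hsub'.trans hsub
      by_cases hss : s = s''
      · subst hss
        rcases lt_or_ge j a with hja | hja
        · exact hS.strip.sep s s j i (Or.inr (by omega)) e' he' hS' ⟨q, hq1, hq4⟩ ⟨p, hp1, hi3⟩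
        · rcases le_or_gt j b with hjb | hjb
          · exact hy' q hqy j hja hjb hq4
          · exact hS.strip.sep s s i j (Or.inr (by omega)) e' he' hS' ⟨p, hp1, hi3⟩ ⟨q, hq1, hq4⟩
      · exact hS.strip.sep s s'' i j (Or.inl hss) e' he' hS' ⟨p, hp1, hi3⟩ ⟨q, hq1, hq4⟩
  have h2 : FreeS col univ ((Q ∪ y' ∩ A) ∪ (y' \ A)) z' := by
    apply ind_up hC subset_union_left hB₀f hcard' _ h1
    exact (hS.far _ hB₀f hB₀A).mono_left hsub
  apply h2.mono_base
  rintro p (hp | hp)
  · exact Or.inl (Or.inl hp)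
  · by_cases hpA : p ∈ A
    · exact Or.inl (Or.inr ⟨hp, hpA⟩)
    · exact Or.inr ⟨hp, hpA⟩

/-- The blocks with large index avoid a given finite set. -/
theorem exists_far_block (hC : Ctx col Q ν H) (hS : Sys col Q H (Ker col univ) E m e)
    {G : Set M} (hG : G.Finite) : ∃ l₀, ∀ l ≥ l₀, Disjoint (E l) G := by
  have hfin : (⋃ p ∈ G, {l | p ∈ E l}).Finite := by
    apply hG.biUnion
    intro p _
    apply Set.Subsingleton.finite
    intro l hl l' hl'
    exact sys_block_eq hC hS hl hl'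
  obtain ⟨l₁, hl₁⟩ := hfin.bddAbove
  refine ⟨l₁ + 1, fun l hl => ?_⟩
  rw [Set.disjoint_left]
  intro p hp hpG
  have := hl₁ (mem_iUnion₂.2 ⟨p, hpG, hp⟩)
  omega

/-- A tuple free over `B` has a copy over `B` in a far block of the system. -/
theorem sys_copy (hC : Ctx col Q ν H) (hS : Sys col Q H (Ker col univ) E m e) {B : Set M}
    (hQB : Q ⊆ B) (hB : B ⊆ SysN Q (Ker col univ) E m e) (hBf : B.Finite) {ι : Type} [Finite ι]
    {x : ι → M} (hx : Free col univ B x) {G : Set M} (hG : G.Finite) :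
    ∃ (l : ℕ) (x' : ι → M), (∀ i, x' i ∈ E l) ∧ Disjoint (E l) G ∧ TEq col B x x' := by
  obtain ⟨n, ⟨φ⟩⟩ := Finite.exists_equiv_fin ι
  obtain ⟨l₀, hl₀⟩ := exists_far_block hC hS (hBf.union hG)
  have hxQ : Free col univ Q (x ∘ φ.symm) := (hx.mono_base hQB).comp φ.symm
  obtain ⟨l, hl, x', h1, h2⟩ := hS.base.rich n (x ∘ φ.symm) hxQ l₀
  have hd := hl₀ l hl
  have hdB : Disjoint (E l) B := hd.mono_right subset_union_left
  refine ⟨l, x' ∘ φ, fun i => h2 _, hd.mono_right subset_union_right, ?_⟩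
  have h1' : TEq col Q x (x' ∘ φ) := by
    have := h1.comp φ
    have he : (x ∘ φ.symm) ∘ φ = x := by
      funext i
      simp
    rwa [he] at this
  have hF1 : FreeS col univ (Q ∪ B) (range x') := by
    apply sys_F1 hC hS (l := l)
    · rintro _ ⟨i, rfl⟩
      exact h2 i
    · intro b hb
      exact ⟨hB hb, fun h => hdB.le_bot ⟨h, hb⟩⟩
    · exact hBf
  have hF2 : Free col univ B (x' ∘ φ) := by
    apply Free.comp
    exact (free_iff_range.2 hF1).mono_base subset_union_right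
  exact stat hC.dom hC.max hC.big hQB hBf hx hF2 h1'

theorem sys_free_iff (hC : Ctx col Q ν H) (hS : Sys col Q H (Ker col univ) E m e) {B z : Set M}
    (hQB : Q ⊆ B) (hB : B ⊆ SysN Q (Ker col univ) E m e) (hBf : B.Finite)
    (hz : z ⊆ SysN Q (Ker col univ) E m e) (hzf : z.Finite) :
    FreeS col (SysN Q (Ker col univ) E m e) B z ↔ FreeS col univ B z := by
  constructor
  · exact fun h => h.mono_set (subset_univ _)
  · intro h G hG
    have := hzf.to_subtype
    obtain ⟨l, x', h1, h2, h3⟩ := sys_copy hC hS hQB hB hBf h hG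
    exact ⟨x', fun i => ⟨block_subset_sysN l (h1 i), fun hi => h2.le_bot ⟨h1 i, hi⟩⟩, h3⟩

end Sys

end Pool.Agent.Sib
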