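import Pool.Agent.Sib.Upper
import Pool.Agent.Sib.SysA

/-!
# The invariant of the set built from a system
-/

namespace Pool.Agent.Sib

open Set

variable {r : ℕ} {M T : Type} {col : (Fin r → M) → T}
variable {Q : Set M} {ν : ℕ} {H : Set M → Set M}
variable {E : ℕ → Set M} {m : ℕ} {e : Fin m → ℕ → Set M}

theorem sys_lower (hC : Ctx col Q ν H) (hS : Sys col Q H (Ker col univ) E m e) :
    Kap col ν m (SysN Q (Ker col univ) E m e) :=
  sys_lower_of hC hS (fun h1 h2 h3 h4 h5 => sys_free_iff hC hS h1 h2 h3 h4 h5)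

theorem sys_upper (hC : Ctx col Q ν H) (hS : Sys col Q H (Ker col univ) E m e) :
    ¬ Kap col ν (3 * r * m + 1) (SysN Q (Ker col univ) E m e) :=
  sys_upper_of hC hS (sys_full hS) (fun h1 h2 h3 => sys_F1 hC hS h1 h2 h3)
    (fun h1 h2 h3 h4 h5 => sys_F2 hC hS h1 h2 h3 h4 h5)
    (fun h1 h2 h3 h4 h5 => sys_free_iff hC hS h1 h2 h3 h4 h5)

end Pool.Agent.Sib
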