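import Pool.Agent.Sib.Basic2

/-!
# The invariant `Rich` of the unbounded case: monotonicity, and its value on configurations
-/

namespace Pool.Agent.Sib

open Set

variable {r : ℕ} {M T : Type} {col : (Fin r → M) → T}

theorem rich_mono {a k t : ℕ} {N N' : Set M} {h : M → M} (hD : Dom col) (hh : Emb col N N' h)
    (hR : Rich col a (Fin k) t N) : Rich col a (Fin k) t N' := by
  obtain ⟨p, x, hp, hx, H⟩ := hR
  refine ⟨h ∘ p, fun i => h ∘ x i, fun i => hh.1 _ (hp i), fun i l => hh.1 _ (hx i l), ?_⟩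
  intro i j hij
  obtain ⟨hS, hG⟩ := H i j hij
  constructor
  · intro n t₀
    obtain ⟨e, he, het, heT⟩ := hS n t₀
    refine ⟨h ∘ e, fun i => hh.1 _ (he i), (hh.2.tp_eq he).trans het, ?_⟩
    have hB : range p ∪ range e ⊆ N := by
      rintro _ (⟨b, rfl⟩ | ⟨b, rfl⟩)
      · exact hp b
      · exact he b
    have h1 := (hh.2.teq_iff hB (hx i) (hx j)).2 heT
    rwa [image_union, ← range_comp, ← range_comp] at h1
  · rintro ⟨G, hGf, hGT⟩
    apply hG
    refine ⟨{b | b ∈ N ∧ h b ∈ G}, ?_, ?_⟩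
    · refine Finite.of_finite_image (f := h) (hGf.subset ?_) ?_
      · rintro _ ⟨b, hb, rfl⟩
        exact hb.2
      · exact (hh.2.injOn hD).mono (fun b hb => hb.1)
    · have hB : range p ∪ (N \ {b | b ∈ N ∧ h b ∈ G}) ⊆ N := by
        rintro b (⟨c, rfl⟩ | hb)
        · exact hp c
        · exact hb.1
      rw [← hh.2.teq_iff hB (hx i) (hx j)]
      apply hGT.mono
      rintro _ ⟨b, ⟨c, rfl⟩ | hb, rfl⟩
      · exact Or.inl ⟨c, rfl⟩
      · exact Or.inr ⟨hh.1 _ hb.1, fun hbG => hb.2 ⟨hb.1, hbG⟩⟩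

theorem rich_anti {a k t t' : ℕ} {N : Set M} (ht : t ≤ t') (hR : Rich col a (Fin k) t' N) :
    Rich col a (Fin k) t N := by
  obtain ⟨p, x, hp, hx, H⟩ := hR
  refine ⟨p, fun i => x (Fin.castLE ht i), hp, fun i l => hx _ l, ?_⟩
  intro i j hij
  exact H _ _ (fun he => hij (Fin.castLE_injective ht he))

theorem conf_rich (hD : Dom col) {v : ℕ → M} (hv : Full col (range v)) {a k m : ℕ}
    {p : Fin a → M} {x : Fin m → Fin k → M} {d : ℕ → (Fin m × Fin m × Fin r) → M}
    (hC : Conf col v a k m p x d) : Rich col a (Fin k) m (ConfN v p x d) := by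
  have hvN : range v ⊆ ConfN v p x d := fun b hb => Or.inl (Or.inl (Or.inl hb))
  refine ⟨p, x, fun i => Or.inl (Or.inl (Or.inr (mem_range_self i))),
    fun i l => Or.inl (Or.inr (mem_iUnion.2 ⟨i, mem_range_self l⟩)), ?_⟩
  intro i j hij
  constructor
  · intro n t
    obtain ⟨e, he, het⟩ := hv n t
    refine ⟨e, fun s => hvN (he s), het, (hC.same i j).mono ?_⟩
    rintro b (hb | ⟨s, rfl⟩)
    · exact Or.inr hb
    · exact Or.inl (he s)
  · rintro ⟨G, hGf, hGT⟩
    have hν : ∃ ν, ∀ s, d ν (i, j, s) ∉ G := by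
      by_contra hcon
      push Not at hcon
      choose s hs using hcon
      refine (Set.infinite_of_injective_forall_mem (f := fun ν => d ν (i, j, s ν)) ?_ hs) hGf
      intro ν ν' he
      by_contra hne
      exact hC.disj i j hij ν ν' hne (s ν) (s ν') he
    obtain ⟨ν, hν⟩ := hν
    refine hC.diff i j ν hij (hGT.mono ?_)
    apply union_subset_union_right
    rintro _ ⟨s, rfl⟩
    exact ⟨Or.inr (mem_iUnion.2 ⟨ν, mem_range_self _⟩), hν s⟩

end Pool.Agent.Sib
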