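import Pool.Agent.Sib.Bound

/-!
# Module RICHUP: an upper bound for the richness of the set of a configuration
-/

namespace Pool.Agent.Sib

open Set

variable {r : ℕ} {M T : Type} {col : (Fin r → M) → T}

section RichUp

variable {v : ℕ → M} {a k m : ℕ} {p : Fin a → M} {x : Fin m → Fin k → M}
  {d : ℕ → (Fin m × Fin m × Fin r) → M}

/-- Codes of the elements of `ConfN` outside `range v`. -/
abbrev RichUp.Code (r a k m : ℕ) : Type := Fin a ⊕ (Fin m × Fin k) ⊕ (Fin m × Fin m × Fin r)

/-- The element with code `c` and index `n`. -/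
def RichUp.ev (p : Fin a → M) (x : Fin m → Fin k → M) (d : ℕ → (Fin m × Fin m × Fin r) → M) :
    RichUp.Code r a k m → ℕ → M
  | Sum.inl s, _ => p s
  | Sum.inr (Sum.inl s), _ => x s.1 s.2
  | Sum.inr (Sum.inr s), n => d n s

theorem RichUp.exists_code {b : M} (hb : b ∈ ConfN v p x d) (hb' : b ∉ range v) :
    ∃ (c : RichUp.Code r a k m), ∃ n₀, b = RichUp.ev p x d c n₀ ∧
      ∀ n, (∀ n₁ ≤ n, b ≠ RichUp.ev p x d c n₁) → n < n₀ := by
  classical
  rcases hb with ((hb | ⟨s, rfl⟩) | hb) | hb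
  · exact absurd hb hb'
  · refine ⟨Sum.inl s, 0, rfl, fun n h => absurd rfl (h n le_rfl)⟩
  · obtain ⟨i, l, rfl⟩ := mem_iUnion.1 hb
    refine ⟨Sum.inr (Sum.inl (i, l)), 0, rfl, fun n h => absurd rfl (h n le_rfl)⟩
  · obtain ⟨n₀, c, rfl⟩ := mem_iUnion.1 hb
    refine ⟨Sum.inr (Sum.inr c), n₀, rfl, fun n h => ?_⟩
    by_contra hn
    exact h n₀ (by omega) rfl

theorem RichUp.ev_teq (hC : Conf col v a k m p x d) {ι : Type} {h h' : ι → ℕ}
    (hh : ∀ i j, h i < h j ↔ h' i < h' j) :
    TEq col (range v) (fun s : ι × RichUp.Code r a k m => RichUp.ev p x d s.2 (h s.1))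
      (fun s => RichUp.ev p x d s.2 (h' s.1)) := by
  classical
  rw [teq_iff_forall]
  intro u u' hu
  let I : Set (Fin r) := {i | ∃ s : ι × (Fin m × Fin m × Fin r), u i = d (h s.1) s.2 ∧
    u' i = d (h' s.1) s.2}
  have hI : ∀ i : I, ∃ s : ι × (Fin m × Fin m × Fin r), u i = d (h s.1) s.2 ∧
    u' i = d (h' s.1) s.2 := fun i => i.2
  choose g hg hg' using hI
  have key := hC.indisc I (fun i => h (g i).1) (fun i => h' (g i).1) (fun i j => hh _ _)
  apply key.elim
  intro i
  by_cases hi : i ∈ I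
  · exact Or.inr ⟨(⟨i, hi⟩, (g ⟨i, hi⟩).2), hg ⟨i, hi⟩, hg' ⟨i, hi⟩⟩
  · left
    rcases hu i with ⟨h1, h2⟩ | ⟨⟨s, c⟩, h1, h2⟩
    · exact ⟨h1, Or.inl (Or.inl h2)⟩
    · rcases c with c | c | c
      · simp only [RichUp.ev] at h1 h2
        exact ⟨h1.trans h2.symm, Or.inl (Or.inr ⟨c, h1.symm⟩)⟩
      · simp only [RichUp.ev] at h1 h2
        exact ⟨h1.trans h2.symm, Or.inr (mem_iUnion.2 ⟨c.1, c.2, h1.symm⟩)⟩
      · simp only [RichUp.ev] at h1 h2
        exact absurd ⟨(s, c), h1, h2⟩ hi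

/-- Similarity in `ConfN` of tuples in `range v` implies similarity in `range v`. -/
theorem RichUp.sim_down (hC : Conf col v a k m p x d) {ι : Type} [Finite ι] {B : Set M} {y y' : ι → M}
    (hy : ∀ i, y i ∈ range v) (hy' : ∀ i, y' i ∈ range v)
    (h : Sim col B (ConfN v p x d) y y') : Sim col ∅ (range v) y y' := by
  intro n t
  obtain ⟨e, h1, h2, h3⟩ := h n t
  obtain ⟨e', h4, h5⟩ := hC.coheir n e h1 (range y ∪ range y')
    ((finite_range y).union (finite_range y')) (by
      rintro b (⟨i, rfl⟩ | ⟨i, rfl⟩)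
      · exact hy i
      · exact hy' i)
  refine ⟨e', h4, (h5.tp_eq.symm).trans h2, ?_⟩
  have h6 : TEq col (∅ ∪ (range y ∪ range y')) e e' := by simpa using h5
  exact (teq_exchange h6).1 (h3.mono (by simp))

/-- Germ equivalence in `range v` goes up to `ConfN`. -/
theorem RichUp.gm_up (hD : Dom col) (hC : Conf col v a k m p x d) {ι : Type} [Finite ι] {P : Set M}
    (hP : P.Finite) (hPN : P ⊆ ConfN v p x d) {y y' : ι → M}
    (hy : ∀ i, y i ∈ range v) (hy' : ∀ i, y' i ∈ range v)
    (h : Gm col (P ∩ range v) (range v) y y') : Gm col P (ConfN v p x d) y y' := by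
  classical
  obtain ⟨G, hG, h⟩ := h
  refine ⟨G, hG, teq_of_finite fun A hA hAf => ?_⟩
  obtain ⟨n, e, -, rfl⟩ := hAf.fin_param
  obtain ⟨e', h4, h5⟩ := hC.coheir n e (fun i => by
      rcases hA (mem_range_self i) with h | h
      · exact hPN h
      · exact h.1) (((G ∩ range v) ∪ (P ∩ range v)) ∪ (range y ∪ range y'))
    (((hG.inter_of_left _).union (hP.inter_of_left _)).union
      ((finite_range y).union (finite_range y'))) (by
      rintro b ((⟨_, h⟩ | ⟨_, h⟩) | (⟨i, rfl⟩ | ⟨i, rfl⟩))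
      · exact h
      · exact h
      · exact hy i
      · exact hy' i)
  have h6 : TEq col (∅ ∪ (range y ∪ range y')) e e' :=
    h5.mono (by rw [empty_union]; exact subset_union_right)
  have h7 : TEq col (∅ ∪ range e') y y' := by
    apply h.mono
    rw [empty_union]
    rintro _ ⟨i, rfl⟩
    by_cases hi : e i ∈ ((G ∩ range v) ∪ (P ∩ range v)) ∪ (range y ∪ range y')
    · have h8 := h5.eq_of_mem hD hi
      have h9 : e i ∈ range v := h8 ▸ h4 i
      rw [h8]
      rcases hA (mem_range_self i) with h | h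
      · exact Or.inl ⟨h, h9⟩
      · exact Or.inr ⟨h9, h.2⟩
    · rw [h5.mem_iff hD i] at hi
      exact Or.inr ⟨h4 i, fun hc => hi (Or.inl (Or.inl ⟨hc, h4 i⟩))⟩
  have h8 := (teq_exchange h6).2 h7
  exact h8.mono (by rw [empty_union])

/-- Tuples with the same codes and the same order type of the indices are germ equivalent, also
jointly with a tuple in `range v`. -/
theorem RichUp.gm_shape (hC : Conf col v a k m p x d) {σ β : Type} [Finite σ] [Finite β]
    {s s' : σ → M} {q : β → M} {κ : σ → RichUp.Code r a k m} {ν ν' : σ → ℕ} {νq : β → ℕ}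
    (hs : ∀ l, s l = RichUp.ev p x d (κ l) (ν l)) (hs' : ∀ l, s' l = RichUp.ev p x d (κ l) (ν' l))
    (hq : ∀ l, q l ∈ range v ∨ ∃ c, q l = RichUp.ev p x d c (νq l))
    (hord : ∀ i j, Sum.elim ν νq i < Sum.elim ν νq j ↔ Sum.elim ν' νq i < Sum.elim ν' νq j) :
    ∃ G : Set M, G.Finite ∧ TEq col (range v ∪ (range q ∪ (ConfN v p x d \ G))) s s' := by
  classical
  obtain ⟨b1, hb1⟩ := Finite.exists_le ν
  obtain ⟨b2, hb2⟩ := Finite.exists_le ν'
  obtain ⟨b3, hb3⟩ := Finite.exists_le νq
  set b := max b1 (max b2 b3) with hb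
  have hb1' : ∀ i, ν i ≤ b := fun i => (hb1 i).trans (le_max_left _ _)
  have hb2' : ∀ i, ν' i ≤ b := fun i => (hb2 i).trans ((le_max_left _ _).trans (le_max_right _ _))
  have hb3' : ∀ i, νq i ≤ b := fun i => (hb3 i).trans ((le_max_right _ _).trans (le_max_right _ _))
  let G : Set M := range (fun z : Fin (b + 1) × RichUp.Code r a k m => RichUp.ev p x d z.2 z.1)
  refine ⟨G, finite_range _, ?_⟩
  let g : (σ ⊕ β) ⊕ ℕ → ℕ := Sum.elim (Sum.elim ν νq) (fun n => b + 1 + n)
  let g' : (σ ⊕ β) ⊕ ℕ → ℕ := Sum.elim (Sum.elim ν' νq) (fun n => b + 1 + n)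
  have hgb : ∀ i, Sum.elim ν νq i ≤ b := by
    rintro (i | i)
    · exact hb1' i
    · exact hb3' i
  have hgb' : ∀ i, Sum.elim ν' νq i ≤ b := by
    rintro (i | i)
    · exact hb2' i
    · exact hb3' i
  have hgg : ∀ i j, g i < g j ↔ g' i < g' j := by
    rintro (i | i) (j | j)
    · exact hord i j
    · have h1 := hgb i
      have h2 := hgb' i
      simp only [g, g', Sum.elim_inl, Sum.elim_inr]
      constructor <;> intro _ <;> omega
    · have h1 := hgb j
      have h2 := hgb' j
      simp only [g, g', Sum.elim_inl, Sum.elim_inr]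
      constructor <;> intro h <;> omega
    · simp [g, g']
  have key := RichUp.ev_teq hC hgg
  rw [teq_iff_forall]
  intro u u' hu
  apply key.elim
  intro i
  rcases hu i with ⟨h1, h2 | ⟨l, h2⟩ | h2⟩ | ⟨l, h1, h2⟩
  · exact Or.inl ⟨h1, h2⟩
  · rcases hq l with h3 | ⟨c, h3⟩
    · exact Or.inl ⟨h1, h2 ▸ h3⟩
    · refine Or.inr ⟨(Sum.inl (Sum.inr l), c), ?_, ?_⟩
      · simp only [g, Sum.elim_inl, Sum.elim_inr]
        rw [← h2, h3]
      · simp only [g', Sum.elim_inl, Sum.elim_inr]
        rw [← h1, ← h2, h3]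
  · by_cases h3 : u i ∈ range v
    · exact Or.inl ⟨h1, h3⟩
    · obtain ⟨c, n₀, h4, h5⟩ := RichUp.exists_code h2.1 h3
      by_cases h6 : ∀ n₁ ≤ b, u i ≠ RichUp.ev p x d c n₁
      · have h7 := h5 b h6
        refine Or.inr ⟨(Sum.inr (n₀ - (b + 1)), c), ?_, ?_⟩
        · simp only [g, Sum.elim_inr]
          rw [h4]
          congr 1
          omega
        · simp only [g', Sum.elim_inr]
          rw [← h1, h4]
          congr 1
          omega
      · push Not at h6
        obtain ⟨n₁, h7, h8⟩ := h6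
        exact absurd ⟨(⟨n₁, by omega⟩, c), h8.symm⟩ h2.2
  · refine Or.inr ⟨(Sum.inl (Sum.inl l), κ l), ?_, ?_⟩
    · simp only [g, Sum.elim_inl]
      rw [h1, hs]
    · simp only [g', Sum.elim_inl]
      rw [h2, hs']

end RichUp

theorem conf_not_rich (hD : Dom col) {v : ℕ → M}
    (hdec : ∀ (ι : Type) [Finite ι] (x x' : ι → M), (∀ i, x i ∈ range v) →
      (∀ i, x' i ∈ range v) → Sim col ∅ (range v) x x' → Gm col ∅ (range v) x x')
    {a k m : ℕ} (hmin : ∀ a' k', k' < k → ¬ Unb col a' (Fin k'))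
    (hmin' : ∀ a' < a, ¬ Unb col a' (Fin k))
    {p : Fin a → M} {x : Fin m → Fin k → M} {d : ℕ → (Fin m × Fin m × Fin r) → M}
    (hC : Conf col v a k m p x d) : ∃ t, ¬ Rich col a (Fin k) t (ConfN v p x d) := by
  classical
  -- codes
  have hcode : ∀ b : M, ∃ (c : Option (RichUp.Code r a k m)) (n : ℕ), b ∈ ConfN v p x d →
      (c = none ∧ b ∈ range v) ∨ ∃ c', c = some c' ∧ b ∉ range v ∧ b = RichUp.ev p x d c' n := by
    intro b
    by_cases hb : b ∈ ConfN v p x d
    · by_cases hb' : b ∈ range v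
      · exact ⟨none, 0, fun _ => Or.inl ⟨rfl, hb'⟩⟩
      · obtain ⟨c, n, h1, -⟩ := RichUp.exists_code hb hb'
        exact ⟨some c, n, fun _ => Or.inr ⟨c, rfl, hb', h1⟩⟩
    · exact ⟨none, 0, fun h => absurd h hb⟩
  choose κ ν hκν using hcode
  -- the bounds
  have hm1 : ∃ m₁ : ℕ, ∀ P : Set M, P.encard < a → ∀ y : Fin m₁ → Fin k → M,
      ∃ i j, i ≠ j ∧ Gm col P univ (y i) (y j) := by
    rcases Nat.eq_zero_or_pos a with ha | ha
    · subst ha
      exact ⟨0, fun P hP => absurd hP (by simp)⟩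
    · obtain ⟨m₁, h⟩ := unb_bound hD (hmin' (a - 1) (by omega))
      refine ⟨m₁, fun P hP => h P ?_⟩
      have : (a : ℕ∞) = ((a - 1 : ℕ) : ℕ∞) + 1 := by
        have : a = (a - 1) + 1 := by omega
        exact_mod_cast this
      rw [this] at hP
      exact (ENat.lt_add_one_iff (ENat.natCast_ne_top _)).1 hP
  obtain ⟨m₁, hm₁⟩ := hm1
  have hm2 : ∀ S : Set (Fin k), ∃ m₂ : ℕ, S.Nonempty → ∀ P : Set M,
      P.encard ≤ ((a + k : ℕ) : ℕ∞) →
      ∀ y : Fin m₂ → {l // l ∉ S} → M, ∃ i j, i ≠ j ∧ Gm col P univ (y i) (y j) := by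
    intro S
    by_cases hS : S.Nonempty
    · obtain ⟨l₀, hl₀⟩ := hS
      have hcard : Fintype.card {l // l ∉ S} < k := by
        have := Fintype.card_subtype_lt (p := fun l => l ∉ S) (x := l₀) (by simpa using hl₀)
        simpa using this
      have h1 : ¬ Unb col (a + k) {l // l ∉ S} := by
        intro hU
        exact hmin (a + k) _ hcard (hU.congr (Fintype.equivFin _))
      obtain ⟨m₂, h⟩ := unb_bound hD h1
      exact ⟨m₂, fun _ => h⟩
    · exact ⟨0, fun h => absurd h hS⟩
  choose m₂ hm₂ using hm2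
  obtain ⟨b₂, hb₂⟩ := Finite.exists_le m₂
  set b := max 2 (max m₁ b₂) with hb
  let F : Type := (Fin k → Option (RichUp.Code r a k m)) × ((Fin k ⊕ Fin a) → (Fin k ⊕ Fin a) → Prop)
  have hF : Finite F := by infer_instance
  have : Fintype F := Fintype.ofFinite F
  refine ⟨Fintype.card F * b + 1, ?_⟩
  rintro ⟨p', x', hp', hx', hR⟩
  let shape : Fin (Fintype.card F * b + 1) → F := fun i =>
    (fun l => κ (x' i l), fun s s' => Sum.elim (fun l => ν (x' i l)) (fun l => ν (p' l)) s <
      Sum.elim (fun l => ν (x' i l)) (fun l => ν (p' l)) s')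
  obtain ⟨φ, hφ⟩ := Fintype.exists_lt_card_fiber_of_mul_lt_card (f := shape) (n := b) (by simp)
  obtain ⟨g, hg⟩ : ∃ g : Fin b → Fin (Fintype.card F * b + 1), Function.Injective g ∧
      ∀ i, shape (g i) = φ := by
    have h1 : b ≤ Fintype.card {i // shape i = φ} := by
      rw [Fintype.card_subtype]
      exact hφ.le
    let e : Fin b ↪ {i // shape i = φ} :=
      (Fin.castLEEmb h1).trans (Fintype.equivFin {i // shape i = φ}).symm.toEmbedding
    exact ⟨fun i => (e i).1, fun i j h => e.injective (Subtype.ext h), fun i => (e i).2⟩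
  obtain ⟨hgi, hgφ⟩ := hg
  have hκ : ∀ i l, κ (x' (g i) l) = φ.1 l := fun i l => by rw [← hgφ i]
  have hord : ∀ i j, ∀ s s', (Sum.elim (fun l => ν (x' (g i) l)) (fun l => ν (p' l)) s <
      Sum.elim (fun l => ν (x' (g i) l)) (fun l => ν (p' l)) s') ↔
      (Sum.elim (fun l => ν (x' (g j) l)) (fun l => ν (p' l)) s <
      Sum.elim (fun l => ν (x' (g j) l)) (fun l => ν (p' l)) s') := by
    intro i j s s'
    have h1 := congrFun (congrFun (congrArg Prod.snd ((hgφ i).trans (hgφ j).symm)) s) s'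
    exact iff_of_eq h1
  have hb2 : 2 ≤ b := le_max_left _ _
  have hb1 : m₁ ≤ b := (le_max_left _ _).trans (le_max_right _ _)
  have hb3 : ∀ S, m₂ S ≤ b := fun S => (hb₂ S).trans ((le_max_right _ _).trans (le_max_right _ _))
  -- it is enough to find a germ equivalent pair
  suffices h : ∃ i j, i ≠ j ∧ (Sim col (range p') (ConfN v p x d) (x' (g i)) (x' (g j)) →
      Gm col (range p') (ConfN v p x d) (x' (g i)) (x' (g j))) by
    obtain ⟨i, j, hij, h⟩ := h
    have h1 := hR (g i) (g j) (fun h => hij (hgi h))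
    exact h1.2 (h h1.1)
  by_cases hS : ∀ l, φ.1 l = none
  · have hin : ∀ i l, x' (g i) l ∈ range v := by
      intro i l
      rcases hκν _ (hx' (g i) l) with h | ⟨c', h1, -⟩
      · exact h.2
      · rw [hκ, hS] at h1
        exact absurd h1 (by simp)
    by_cases hp : ∀ l, p' l ∈ range v
    · refine ⟨⟨0, by omega⟩, ⟨1, by omega⟩, by simp, fun hsim => ?_⟩
      set y := x' (g ⟨0, by omega⟩)
      set y' := x' (g ⟨1, by omega⟩)
      have hy : ∀ l, y l ∈ range v := hin _
      have hy' : ∀ l, y' l ∈ range v := hin _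
      have h1 : Sim col ∅ (ConfN v p x d) (Sum.elim p' y) (Sum.elim p' y') := by
        intro n t
        obtain ⟨e, h1, h2, h3⟩ := hsim n t
        refine ⟨e, h1, h2, teq_adjoin'.2 (h3.mono ?_)⟩
        rw [empty_union, union_comm]
      have h2 := RichUp.sim_down hC (by rintro (l | l) <;> simp [hp, hy]) (by
        rintro (l | l) <;> simp [hp, hy']) h1
      obtain ⟨G, hG, h3⟩ := hdec _ _ _ (by rintro (l | l) <;> simp [hp, hy]) (by
        rintro (l | l) <;> simp [hp, hy']) h2
      have h4 := teq_adjoin'.1 h3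
      apply RichUp.gm_up hD hC (finite_range p') (by rintro _ ⟨l, rfl⟩; exact hp' l) hy hy'
      refine ⟨G, hG, h4.mono ?_⟩
      rw [empty_union, union_comm]
      exact union_subset_union_right _ inter_subset_left
    · push Not at hp
      obtain ⟨l₀, hl₀⟩ := hp
      have h1 : (range p' ∩ range v).encard < a := by
        have h2 : (range p' ∩ range v) ⊆ p' '' {l₀}ᶜ := by
          rintro b ⟨⟨l, rfl⟩, h⟩
          refine mem_image_of_mem _ ?_
          rintro rfl
          exact hl₀ h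
        refine ((encard_le_encard h2).trans (encard_image_le _ _)).trans_lt ?_
        have h3 : ({l₀}ᶜ : Set (Fin a)).encard < (univ : Set (Fin a)).encard := by
          apply Set.Finite.encard_lt_encard (toFinite _)
          rw [ssubset_univ_iff]
          intro h
          have : l₀ ∈ ({l₀}ᶜ : Set (Fin a)) := h ▸ mem_univ _
          exact this rfl
        simpa using h3
      obtain ⟨i, j, hij, h2⟩ := hm₁ _ h1 (fun i => x' (g (Fin.castLE hb1 i)))
      refine ⟨Fin.castLE hb1 i, Fin.castLE hb1 j, fun h => hij (Fin.castLE_injective hb1 h),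
        fun _ => ?_⟩
      exact RichUp.gm_up hD hC (finite_range p') (by rintro _ ⟨l, rfl⟩; exact hp' l) (hin _) (hin _)
        (h2.mono subset_rfl (subset_univ _))
  · push Not at hS
    obtain ⟨l₀, hl₀⟩ := hS
    let S : Set (Fin k) := {l | φ.1 l ≠ none}
    have hSne : S.Nonempty := ⟨l₀, hl₀⟩
    -- the parts
    let w : Fin b → {l // l ∉ S} → M := fun i l => x' (g i) l
    let s : Fin b → S → M := fun i l => x' (g i) l
    let i₀ : Fin b := ⟨0, by omega⟩
    have hw : ∀ i l, w i l ∈ range v := by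
      rintro i ⟨l, hl⟩
      have hl' : φ.1 l = none := by
        by_contra h
        exact hl h
      rcases hκν _ (hx' (g i) l) with h | ⟨c', h1, -⟩
      · exact h.2
      · rw [hκ, hl'] at h1
        exact absurd h1 (by simp)
    have hcs : ∀ l : S, ∃ c, φ.1 l = some c := fun l => Option.ne_none_iff_exists'.1 l.2
    choose c hc using hcs
    have hs : ∀ i l, s i l = RichUp.ev p x d (c l) (ν (x' (g i) l)) := by
      intro i l
      rcases hκν _ (hx' (g i) l) with h | ⟨c', h1, -, h2⟩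
      · have := h.1
        rw [hκ, hc] at this
        exact absurd this (by simp)
      · rw [hκ, hc] at h1
        rw [Option.some.inj h1]
        exact h2
    have hq : ∀ l, p' l ∈ range v ∨ ∃ c, p' l = RichUp.ev p x d c (ν (p' l)) := by
      intro l
      rcases hκν _ (hp' l) with h | ⟨c', h1, -, h2⟩
      · exact Or.inl h.2
      · exact Or.inr ⟨c', h2⟩
    have hsh : ∀ i, Gm col (range p') (ConfN v p x d) (Sum.elim (w i) (s i))
        (Sum.elim (w i) (s i₀)) := by
      intro i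
      obtain ⟨G, hG, h1⟩ := RichUp.gm_shape hC (q := p') (hs i) (hs i₀) hq (by
        have := hord i i₀
        rintro (j | j) (j' | j')
        · exact this (Sum.inl j) (Sum.inl j')
        · exact this (Sum.inl j) (Sum.inr j')
        · exact this (Sum.inr j) (Sum.inl j')
        · exact this (Sum.inr j) (Sum.inr j'))
      refine ⟨G, hG, teq_adjoin'.2 (h1.mono ?_)⟩
      rintro b (hb | ⟨l, rfl⟩)
      · exact Or.inr hb
      · exact Or.inl (hw i l)
    have hP : (range p' ∪ range (s i₀)).encard ≤ ((a + k : ℕ) : ℕ∞) := by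
      refine (encard_union_le _ _).trans ?_
      push_cast
      gcongr
      · rw [← image_univ]
        exact (encard_image_le _ _).trans (by simp)
      · have : range (s i₀) ⊆ range (x' (g i₀)) := by
          rintro _ ⟨l, rfl⟩
          exact ⟨l, rfl⟩
        refine (encard_le_encard this).trans ?_
        rw [← image_univ]
        exact (encard_image_le _ _).trans (by simp)
    obtain ⟨i, j, hij, G, hG, h1⟩ := hm₂ S hSne _ hP (fun i => w (Fin.castLE (hb3 S) i))
    refine ⟨Fin.castLE (hb3 S) i, Fin.castLE (hb3 S) j,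
      fun h => hij (Fin.castLE_injective (hb3 S) h), fun _ => ?_⟩
    set i' := Fin.castLE (hb3 S) i
    set j' := Fin.castLE (hb3 S) j
    have h2 : Gm col (range p') (ConfN v p x d) (Sum.elim (w i') (s i₀))
        (Sum.elim (w j') (s i₀)) := by
      refine ⟨G, hG, teq_adjoin.2 (h1.mono ?_)⟩
      rintro b ((hb | hb) | hb)
      · exact Or.inl (Or.inl hb)
      · exact Or.inr ⟨mem_univ _, hb.2⟩
      · exact Or.inl (Or.inr hb)
    have h3 := ((hsh i').trans h2).trans (hsh j').symm
    have h4 := h3.comp (fun l : Fin k => if h : l ∈ S then Sum.inr ⟨l, h⟩ else Sum.inl ⟨l, h⟩)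
    have h5 : ∀ i, Sum.elim (w i) (s i) ∘
        (fun l : Fin k => if h : l ∈ S then Sum.inr ⟨l, h⟩ else Sum.inl ⟨l, h⟩) = x' (g i) := by
      intro i
      funext l
      by_cases h : l ∈ S <;> simp [h, w, s]
    rw [h5, h5] at h4
    exact h4

end Pool.Agent.Sib
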