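import Pool.Agent.Sib.Basic2

/-!
# Full cellular sets are universal
-/

namespace Pool.Agent.Sib

open Set

variable {r : ℕ} {M T : Type} {col : (Fin r → M) → T}

namespace Univ

/-- A finite partial injection of `ℕ` extends to a permutation. -/
theorem exists_perm (S : Finset ℕ) (f : ℕ → ℕ) (hf : Set.InjOn f S) :
    ∃ σ : Equiv.Perm ℕ, ∀ x ∈ S, σ x = f x := by
  classical
  induction S using Finset.induction_on with
  | empty => exact ⟨1, by simp⟩
  | insert a S ha ih =>
    obtain ⟨σ, hσ⟩ := ih (hf.mono (by simp))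
    refine ⟨Equiv.swap (σ a) (f a) * σ, ?_⟩
    intro x hx
    rw [Finset.mem_insert] at hx
    rw [Equiv.Perm.mul_apply]
    rcases hx with rfl | hx
    · exact Equiv.swap_apply_left _ _
    · have h1 : x ≠ a := fun h => ha (h ▸ hx)
      have h2 : σ x ≠ σ a := fun h => h1 (σ.injective h)
      have h3 : σ x ≠ f a := by
        rw [hσ x hx]
        intro h
        exact h1 (hf (by simp [hx]) (by simp) h)
      rw [Equiv.swap_apply_of_ne_of_ne h2 h3]
      exact hσ x hx

theorem exists_lim {L : Type} [Finite L] (𝒰 : Ultrafilter ℕ) (f : ℕ → L) :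
    ∃ x, ∀ᶠ n in (𝒰 : Filter ℕ), f n = x := by
  obtain ⟨x, hx⟩ := (𝒰.map f).eq_pure_of_finite
  refine ⟨x, ?_⟩
  have : ({x} : Set L) ∈ 𝒰.map f := by rw [hx]; exact Set.mem_singleton x
  exact this

end Univ

open Univ

theorem cell_universal (hD : Dom col) {N N' : Set M} (hc : CellSet col N) (hN : Full col N)
    (hN' : N'.Countable) : ∃ h, Emb col N' N h := by
  classical
  obtain ⟨K, n₀, k, c, hKf, hcinj, hdisj, hNeq, hcell⟩ := hc
  rcases N'.eq_empty_or_nonempty with rfl | hne
  · refine ⟨id, by simp, ?_⟩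
    intro u hu
    exact absurd (hu ⟨0, lt_of_lt_of_le (by norm_num) hD.two_le⟩) (by simp)
  obtain ⟨w, hw⟩ := hN'.exists_eq_range hne
  -- copies
  have hcopy : ∀ n : ℕ, ∃ e : ℕ → M, (∀ a, e a ∈ N) ∧
      ∀ u : Fin r → ℕ, (∀ i, u i < n) → col (e ∘ u) = col (w ∘ u) := by
    intro n
    obtain ⟨e, he1, he2⟩ := hN (n + 1) (fun i => w i)
    refine ⟨fun a => if h : a < n + 1 then e ⟨a, h⟩ else e 0, ?_, ?_⟩
    · intro a
      dsimp only
      split_ifs
      · exact he1 _
      · exact he1 _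
    · intro u hu
      have h1 := congrFun he2 (fun i => ⟨u i, (hu i).trans (Nat.lt_succ_self n)⟩)
      unfold tp at h1
      have h2 : (fun a => if h : a < n + 1 then e ⟨a, h⟩ else e 0) ∘ u =
          e ∘ (fun i => ⟨u i, (hu i).trans (Nat.lt_succ_self n)⟩) := by
        funext i
        simp only [Function.comp]
        rw [dif_pos ((hu i).trans (Nat.lt_succ_self n))]
      rw [h2, h1]
      rfl
  choose e heN he using hcopy
  -- codes
  let val : (K ⊕ (Σ i : Fin n₀, ℕ × Fin (k i))) → M := Sum.elim (fun x => (x : M)) c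
  have hcode : ∀ n a, ∃ p, val p = e n a := by
    intro n a
    have h1 := heN n a
    rw [hNeq] at h1
    rcases h1 with h1 | ⟨p, hp⟩
    · exact ⟨Sum.inl ⟨_, h1⟩, rfl⟩
    · exact ⟨Sum.inr p, hp⟩
  choose q hq using hcode
  let lab : (K ⊕ (Σ i : Fin n₀, ℕ × Fin (k i))) → (K ⊕ (Σ i : Fin n₀, Fin (k i))) :=
    Sum.map id (fun p => ⟨p.1, p.2.2⟩)
  let cmp : (K ⊕ (Σ i : Fin n₀, ℕ × Fin (k i))) → Option (Fin n₀ × ℕ) :=
    Sum.elim (fun _ => none) (fun p => some (p.1, p.2.1))
  have : Finite K := hKf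
  let 𝒰 : Ultrafilter ℕ := Filter.hyperfilter ℕ
  have hlab : ∀ a, ∃ x, ∀ᶠ n in (𝒰 : Filter ℕ), lab (q n a) = x := fun a => exists_lim 𝒰 _
  choose κ hκ using hlab
  let R : ℕ → ℕ → Prop := fun a b => ∀ᶠ n in (𝒰 : Filter ℕ), cmp (q n a) = cmp (q n b)
  have hRr : ∀ a, R a a := fun a => Filter.Eventually.of_forall fun _ => rfl
  have hRs : ∀ a b, R a b → R b a := fun a b h => h.mono fun _ h => h.symm
  have hRt : ∀ a b c, R a b → R b c → R a c := fun a b c h h' =>
    h.mp (h'.mono fun _ h1 h2 => h2.trans h1)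
  have hex : ∀ a, ∃ b, R b a := fun a => ⟨a, hRr a⟩
  let J : ℕ → ℕ := fun a => Nat.find (hex a)
  have hJ : ∀ a, R (J a) a := fun a => Nat.find_spec (hex a)
  have hJeq : ∀ a b, R a b → J a = J b := by
    intro a b h
    apply le_antisymm
    · exact Nat.find_min' _ (hRt _ _ _ (hJ b) (hRs _ _ h))
    · exact Nat.find_min' _ (hRt _ _ _ (hJ a) h)
  have hJR : ∀ a b, J a = J b → R a b := fun a b h =>
    hRt _ _ _ (hRs _ _ (hJ a)) (h ▸ hJ b)
  let e' : ℕ → M := fun a => Sum.elim (fun x : K => (x : M))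
    (fun p : (Σ i : Fin n₀, Fin (k i)) => c ⟨p.1, J a, p.2⟩) (κ a)
  have he'N : ∀ a, e' a ∈ N := by
    intro a
    rw [hNeq]
    simp only [e']
    rcases κ a with x | p
    · exact Or.inl x.2
    · exact Or.inr ⟨_, rfl⟩
  have key : ∀ u : Fin r → ℕ, col (e' ∘ u) = col (w ∘ u) := by
    intro u
    have h1 : ∀ᶠ n in (𝒰 : Filter ℕ), ∀ i, u i < n := by
      rw [Filter.eventually_all]
      intro i
      have : ∀ᶠ n in Filter.cofinite, u i < n := by
        rw [Nat.cofinite_eq_atTop]
        exact Filter.eventually_gt_atTop _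
      exact Filter.hyperfilter_le_cofinite this
    have h2 : ∀ᶠ n in (𝒰 : Filter ℕ), ∀ i, lab (q n (u i)) = κ (u i) := by
      rw [Filter.eventually_all]
      exact fun i => hκ (u i)
    have h3 : ∀ᶠ n in (𝒰 : Filter ℕ), ∀ i j, cmp (q n (u i)) = cmp (q n (u j)) ↔
        R (u i) (u j) := by
      rw [Filter.eventually_all]
      intro i
      rw [Filter.eventually_all]
      intro j
      by_cases hR : R (u i) (u j)
      · exact hR.mono fun n hn => ⟨fun _ => hR, fun _ => hn⟩
      · have := Ultrafilter.eventually_not.2 hR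
        exact this.mono fun n hn => ⟨fun h => absurd h hn, fun h => absurd h hR⟩
    obtain ⟨n, hn1, hn2, hn3⟩ := (h1.and (h2.and h3)).exists
    -- the permutations
    have hσ : ∀ i₀ : Fin n₀, ∃ σ : Equiv.Perm ℕ, ∀ i j, cmp (q n (u i)) = some (i₀, j) →
        σ j = J (u i) := by
      intro i₀
      let S : Finset ℕ := (Finset.univ.image fun i => ((cmp (q n (u i))).getD (i₀, 0)).2).filter
        fun j => ∃ i, cmp (q n (u i)) = some (i₀, j)
      let f : ℕ → ℕ := fun j => if h : ∃ i, cmp (q n (u i)) = some (i₀, j) then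
        J (u h.choose) else 0
      have hf : ∀ i j, cmp (q n (u i)) = some (i₀, j) → f j = J (u i) := by
        intro i j h
        have hx : ∃ i, cmp (q n (u i)) = some (i₀, j) := ⟨i, h⟩
        simp only [f]
        rw [dif_pos hx]
        apply hJeq
        rw [← hn3]
        rw [hx.choose_spec, h]
      have hinj : Set.InjOn f S := by
        intro j hj j' hj' hjj
        have hj1 : ∃ i, cmp (q n (u i)) = some (i₀, j) := (Finset.mem_filter.1 hj).2
        have hj2 : ∃ i, cmp (q n (u i)) = some (i₀, j') := (Finset.mem_filter.1 hj').2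
        obtain ⟨i, hi⟩ := hj1
        obtain ⟨i', hi'⟩ := hj2
        rw [hf i j hi, hf i' j' hi'] at hjj
        have h5 := (hn3 i i').2 (hJR _ _ hjj)
        rw [hi, hi'] at h5
        simp only [Option.some.injEq, Prod.mk.injEq, true_and] at h5
        exact h5
      obtain ⟨σ, hσ⟩ := exists_perm S f hinj
      refine ⟨σ, fun i j h => ?_⟩
      rw [← hf i j h]
      apply hσ
      simp only [S, Finset.mem_filter, Finset.mem_image, Finset.mem_univ, true_and]
      exact ⟨⟨i, by rw [h]; rfl⟩, i, h⟩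
    choose σ hσ using hσ
    -- the map
    let g : M → M := fun b => if h : ∃ p, c p = b then
      c ⟨h.choose.1, σ h.choose.1 h.choose.2.1, h.choose.2.2⟩ else b
    have hg1 : ∀ b ∈ K, g b = b := by
      intro b hb
      simp only [g]
      rw [dif_neg]
      rintro ⟨p, hp⟩
      exact Set.disjoint_left.1 hdisj hb ⟨p, hp⟩
    have hg2 : ∀ i j l, g (c ⟨i, j, l⟩) = c ⟨i, σ i j, l⟩ := by
      intro i j l
      have hx : ∃ p, c p = c ⟨i, j, l⟩ := ⟨_, rfl⟩
      simp only [g]
      rw [dif_pos hx]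
      have h5 : hx.choose = ⟨i, j, l⟩ := hcinj hx.choose_spec
      rw [h5]
    have hPE := hcell σ g hg1 hg2
    have h6 : e' ∘ u = g ∘ (e n ∘ u) := by
      funext i
      simp only [Function.comp, e']
      have h7 := hn2 i
      rw [← hq n (u i)]
      rcases hqi : q n (u i) with x | ⟨i₀, j, l⟩
      · rw [hqi] at h7
        simp only [lab, Sum.map_inl, id] at h7
        rw [← h7]
        simp only [val, Sum.elim_inl]
        exact (hg1 x x.2).symm
      · have h8 : cmp (q n (u i)) = some (i₀, j) := by rw [hqi]; rfl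
        rw [hqi] at h7
        simp only [lab, Sum.map_inr] at h7
        rw [← h7]
        simp only [val, Sum.elim_inr]
        rw [hg2, hσ i₀ i j h8]
    rw [h6, hPE (e n ∘ u) (fun i => heN n (u i)), he n u hn1]
  -- the embedding
  have hidx : ∀ b : M, ∃ a, b ∈ N' → w a = b := by
    intro b
    by_cases hb : b ∈ N'
    · rw [hw] at hb
      obtain ⟨a, ha⟩ := hb
      exact ⟨a, fun _ => ha⟩
    · exact ⟨0, fun h => absurd h hb⟩
  choose idx hidx using hidx
  refine ⟨fun b => e' (idx b), fun b _ => he'N _, ?_⟩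
  intro u hu
  have h1 : (fun b => e' (idx b)) ∘ u = e' ∘ (idx ∘ u) := rfl
  rw [h1, key]
  congr 1
  funext i
  exact hidx (u i) (hu i)

end Pool.Agent.Sib
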