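import Pool.Agent.Sib.Decided
import Pool.Agent.Sib.ConfX
import Pool.Agent.Sib.Rich
import Pool.Agent.Sib.RichUp
import Pool.Agent.Sib.Big
import Pool.Agent.Sib.BuildSys
import Pool.Agent.Sib.SysA
import Pool.Agent.Sib.LowerUpper
import Pool.Agent.Sib.Kappa
import Pool.Agent.Sib.Comp
import Pool.Agent.Sib.Detach
import Pool.Agent.Sib.Cell
import Pool.Agent.Sib.Univ

/-!
# The internal form of the main theorem
-/

namespace Pool.Agent.Sib

open Set

variable {r : ℕ} {M T : Type} {col : (Fin r → M) → T}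

theorem confN_countable (v : ℕ → M) {a k m : ℕ} (p : Fin a → M) (x : Fin m → Fin k → M)
    (d : ℕ → (Fin m × Fin m × Fin r) → M) : (ConfN v p x d).Countable := by
  unfold ConfN
  refine ((((countable_range v).union (countable_range p)).union ?_).union ?_)
  · exact countable_iUnion (fun i => countable_range _)
  · exact countable_iUnion (fun i => countable_range _)

theorem case1 (hD : Dom col) (hU : ∃ a k, Unb col a (Fin k)) : HasInv col := by
  classical
  have hU' : ∃ k a, Unb col a (Fin k) := by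
    obtain ⟨a, k, h⟩ := hU
    exact ⟨k, a, h⟩
  set k := Nat.find hU' with hk
  have hk1 : ∃ a, Unb col a (Fin k) := Nat.find_spec hU'
  set a := Nat.find hk1 with ha
  have ha1 : Unb col a (Fin k) := Nat.find_spec hk1
  have hmin : ∀ a' k', k' < k → ¬ Unb col a' (Fin k') := by
    intro a' k' h h'
    exact Nat.find_min hU' h ⟨a', h'⟩
  have hmin' : ∀ a' < a, ¬ Unb col a' (Fin k) := by
    intro a' h h'
    exact Nat.find_min hk1 h h'
  obtain ⟨v, hv, hdec⟩ := exists_decided hD
  refine ⟨fun t N => Rich col a (Fin k) t N, ?_, ?_, ?_⟩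
  · intro t N N' h hh hR
    exact rich_mono hD hh hR
  · intro t t' N ht hR
    exact rich_anti ht hR
  · intro m
    obtain ⟨p, x, d, hC⟩ := exists_conf hD hv ha1 m
    refine ⟨ConfN v p x d, confN_countable v p x d, hv.mono ?_, conf_rich hD hv hC,
      conf_not_rich hD hdec hmin hmin' hC⟩
    intro b hb
    exact Or.inl (Or.inl (Or.inl hb))

theorem not_hasInv (hF : FinClasses col) : ¬ HasInv col := by
  rintro ⟨Inv, hmono, hanti, hInv⟩
  obtain ⟨n, R, hR, hcl⟩ := hF
  choose N hNc hNf hNI t ht using hInv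
  choose i hi using fun m => hcl (N m) (hNc m) (hNf m)
  obtain ⟨c, hc⟩ := Finite.exists_infinite_fiber i
  have hinf : (i ⁻¹' {c}).Infinite := Set.infinite_coe_iff.1 hc
  obtain ⟨m, hm⟩ := hinf.nonempty
  obtain ⟨m', hm', hlt⟩ := hinf.exists_gt (t m)
  apply ht m
  have h1 : Inv (t m) (N m') := hanti _ _ _ hlt.le (hNI m')
  obtain ⟨⟨h, hh⟩, -⟩ := hi m'
  obtain ⟨-, ⟨h', hh'⟩⟩ := hi m
  have hc1 : i m' = c := hm'
  have hc2 : i m = c := hm
  rw [hc1] at hh
  rw [hc2] at hh'
  exact hmono _ _ _ _ hh' (hmono _ _ _ _ hh h1)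

theorem case2 (hD : Dom col) (hU : ¬ ∃ a k, Unb col a (Fin k)) :
    HasInv col ∨ ∀ N : Set M, N.Countable → CellSet col N := by
  push Not at hU
  obtain ⟨Q, ν, H, hC⟩ := exists_ctx hD hU
  by_cases hB : BddRch col Q (H Q)ᶜ
  · right
    intro N hN
    obtain ⟨Cp, s, h1, h2, h3, h4, h5⟩ := exists_comp hC hB
    obtain ⟨D, hDf, hHD, hDd, hDF⟩ := exists_detach hC h1 h2 h3 h4 h5
    exact cell_of_twins hD hC.Qfin hDf (fun b hb => h1 b (fun h => hb (hHD h))) hDd h3 h4
      (fun b hb b' hb' _ k t t' ht ht' htt => twins hC hDF hb hb' ht ht' htt) hN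
  · left
    refine ⟨fun t N => Kap col ν t N, ?_, ?_, ?_⟩
    · intro t N N' h hh hR
      exact kap_mono hD hC.max hh hR
    · intro t t' N ht hR
      exact kap_anti ht hR
    · intro m
      obtain ⟨E, e, hS⟩ := exists_sys hC hB m
      exact ⟨SysN Q (Ker col univ) E m e, sys_countable hC hS, sys_full hS, sys_lower hC hS,
        _, sys_upper hC hS⟩

/-- The internal form of the main theorem. -/
theorem main (hD : Dom col) (hF : FinClasses col) :
    ∀ N : Set M, N.Countable → CellSet col N := by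
  by_cases hU : ∃ a k, Unb col a (Fin k)
  · exact absurd (case1 hD hU) (not_hasInv hF)
  · rcases case2 hD hU with h | h
    · exact absurd h (not_hasInv hF)
    · exact h

end Pool.Agent.Sib
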