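import Pool.Agent.Sib.Defs

/-!
# Basic facts on types over sets
-/

namespace Pool.Agent.Sib

open Set

variable {r : ℕ} {M T : Type} {col : (Fin r → M) → T}

section TEq

variable {ι ι' κ : Type} {A B B' : Set M} {x x' x'' : ι → M} {y y' : κ → M}

theorem TEq.refl (B : Set M) (x : ι → M) : TEq col B x x := fun _ _ => rfl

theorem TEq.symm (h : TEq col B x x') : TEq col B x' x := fun f hf => (h f hf).symm

theorem TEq.trans (h : TEq col B x x') (h' : TEq col B x' x'') : TEq col B x x'' :=
  fun f hf => (h f hf).trans (h' f hf)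

theorem TEq.mono (hB : B' ⊆ B) (h : TEq col B x x') : TEq col B' x x' :=
  fun f hf => h f (fun i b hi => hB (hf i b hi))

theorem TEq.comp (h : TEq col B x x') (g : ι' → ι) : TEq col B (x ∘ g) (x' ∘ g) := by
  intro f hf
  have h1 : ∀ z : ι → M, Sum.elim id (z ∘ g) ∘ f = Sum.elim id z ∘ (Sum.map id g ∘ f) := by
    intro z
    funext i
    simp only [Function.comp]
    rcases f i with b | a <;> simp
  rw [h1, h1]
  apply h
  intro i b hi
  simp only [Function.comp] at hi
  rcases hfi : f i with b' | a
  · rw [hfi] at hi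
    simp only [Sum.map_inl, id, Sum.inl.injEq] at hi
    exact hi ▸ hf i b' hfi
  · rw [hfi] at hi
    simp at hi

/-- Working with functions: the colour of an `r`-tuple with entries from `x` and `B`. -/
theorem teq_iff : TEq col B x x' ↔ ∀ f : Fin r → B ⊕ ι,
    col (Sum.elim (fun b : B => (b : M)) x ∘ f) = col (Sum.elim (fun b : B => (b : M)) x' ∘ f) := by
  constructor
  · intro h f
    have h1 : ∀ z : ι → M, Sum.elim (fun b : B => (b : M)) z ∘ f =
        Sum.elim id z ∘ (Sum.map (fun b : B => (b : M)) id ∘ f) := by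
      intro z
      funext i
      simp only [Function.comp]
      rcases f i with b | a <;> simp
    rw [h1, h1]
    apply h
    intro i b hi
    simp only [Function.comp] at hi
    rcases hfi : f i with b' | a
    · rw [hfi] at hi
      simp only [Sum.map_inl, Sum.inl.injEq] at hi
      exact hi ▸ b'.2
    · rw [hfi] at hi
      simp at hi
  · intro h f hf
    classical
    have : ∀ i, ∃ c : B ⊕ ι, ∀ z : ι → M,
        Sum.elim (fun b : B => (b : M)) z c = Sum.elim id z (f i) := by
      intro i
      rcases hfi : f i with b | a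
      · exact ⟨Sum.inl ⟨b, hf i b hfi⟩, fun z => by simp⟩
      · exact ⟨Sum.inr a, fun z => by simp⟩
    choose g hg using this
    have h1 : ∀ z : ι → M, Sum.elim id z ∘ f = Sum.elim (fun b : B => (b : M)) z ∘ g := by
      intro z
      funext i
      simp only [Function.comp]
      rw [hg]
    rw [h1, h1]
    exact h g

/-- Comparison of `TEq` over the range of a tuple with the types of the joined tuples. -/
theorem teq_range_iff (b : κ → M) : TEq col (range b) x x' ↔
    tp col (Sum.elim b x) = tp col (Sum.elim b x') := by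
  constructor
  · intro h
    funext f
    unfold tp
    have h1 : ∀ z : ι → M, Sum.elim b z ∘ f = Sum.elim id z ∘ (Sum.map b id ∘ f) := by
      intro z
      funext i
      simp only [Function.comp]
      rcases f i with b | a <;> simp
    rw [h1, h1]
    apply h
    intro i c hi
    simp only [Function.comp] at hi
    rcases hfi : f i with b' | a
    · rw [hfi] at hi
      simp only [Sum.map_inl, Sum.inl.injEq] at hi
      exact hi ▸ mem_range_self b'
    · rw [hfi] at hi
      simp at hi
  · intro h f hf
    have : ∀ i, ∃ c : κ ⊕ ι, ∀ z : ι → M, Sum.elim b z c = Sum.elim id z (f i) := by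
      intro i
      rcases hfi : f i with c | a
      · obtain ⟨k, hk⟩ := hf i c hfi
        exact ⟨Sum.inl k, fun z => by simp [hk]⟩
      · exact ⟨Sum.inr a, fun z => by simp⟩
    choose g hg using this
    have h1 : ∀ z : ι → M, Sum.elim id z ∘ f = Sum.elim b z ∘ g := by
      intro z
      funext i
      simp only [Function.comp]
      rw [hg]
    rw [h1, h1]
    exact congrFun h g

theorem teq_empty_iff : TEq col ∅ x x' ↔ tp col x = tp col x' := by
  constructor
  · intro h
    funext f
    exact h (fun i => Sum.inr (f i)) (by simp)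
  · intro h f hf
    have : ∀ i, ∃ c : ι, f i = Sum.inr c := by
      intro i
      rcases hfi : f i with c | a
      · exact absurd (hf i c hfi) (by simp)
      · exact ⟨a, rfl⟩
    choose g hg using this
    have h1 : ∀ z : ι → M, Sum.elim id z ∘ f = z ∘ g := by
      intro z
      funext i
      simp only [Function.comp, hg, Sum.elim_inr]
    rw [h1, h1]
    exact congrFun h g

/-- The key criterion: two tuples have the same type over `B` as soon as all `r`-tuples of entries
from `B` and the tuples have the same colour (entries described by a common function). -/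
theorem TEq.intro (h : ∀ (u u' : Fin r → M), (∀ i, (u i = u' i ∧ u i ∈ B) ∨
    ∃ a, u i = x a ∧ u' i = x' a) → col u = col u') : TEq col B x x' := by
  intro f hf
  apply h
  intro i
  simp only [Function.comp]
  rcases hfi : f i with b | a
  · left; simpa using hf i b hfi
  · right; exact ⟨a, by simp⟩

theorem TEq.elim (h : TEq col B x x') {u u' : Fin r → M}
    (hu : ∀ i, (u i = u' i ∧ u i ∈ B) ∨ ∃ a, u i = x a ∧ u' i = x' a) : col u = col u' := by
  have : ∀ i, ∃ c : M ⊕ ι, (∀ b, c = Sum.inl b → b ∈ B) ∧ u i = Sum.elim id x c ∧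
      u' i = Sum.elim id x' c := by
    intro i
    rcases hu i with ⟨h1, h2⟩ | ⟨a, h1, h2⟩
    · exact ⟨Sum.inl (u i), by simpa using h2, by simp [h1]⟩
    · exact ⟨Sum.inr a, by simp, by simp [h1, h2]⟩
  choose f h1 h2 h3 using this
  have e1 : u = Sum.elim id x ∘ f := funext h2
  have e2 : u' = Sum.elim id x' ∘ f := funext h3
  rw [e1, e2]
  exact h f h1

theorem teq_iff_forall : TEq col B x x' ↔ ∀ (u u' : Fin r → M), (∀ i, (u i = u' i ∧ u i ∈ B) ∨
    ∃ a, u i = x a ∧ u' i = x' a) → col u = col u' :=
  ⟨fun h _ _ hu => h.elim hu, TEq.intro⟩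

/-- Moving a part of the tuples into the base. -/
theorem teq_adjoin : TEq col B (Sum.elim x y) (Sum.elim x' y) ↔
    TEq col (B ∪ range y) x x' := by
  rw [teq_iff_forall, teq_iff_forall]
  constructor
  · intro h u u' hu
    apply h
    intro i
    rcases hu i with ⟨h1, h2 | ⟨a, h2⟩⟩ | ⟨a, h1, h2⟩
    · exact Or.inl ⟨h1, h2⟩
    · exact Or.inr ⟨Sum.inr a, by simp [h2], by simp [h2, h1]⟩
    · exact Or.inr ⟨Sum.inl a, by simp [h1], by simp [h2]⟩
  · intro h u u' hu
    apply h
    intro i
    rcases hu i with ⟨h1, h2⟩ | ⟨a | a, h1, h2⟩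
    · exact Or.inl ⟨h1, Or.inl h2⟩
    · exact Or.inr ⟨a, by simpa using h1, by simpa using h2⟩
    · simp only [Sum.elim_inr] at h1 h2
      exact Or.inl ⟨h1.trans h2.symm, Or.inr ⟨a, h1.symm⟩⟩

theorem teq_swap_iff {z z' : κ → M} :
    TEq col B (Sum.elim x z) (Sum.elim x' z') ↔ TEq col B (Sum.elim z x) (Sum.elim z' x') := by
  rw [teq_iff_forall, teq_iff_forall]
  constructor
  · intro h u u' hu
    apply h
    intro i
    rcases hu i with h1 | ⟨a | a, h1, h2⟩
    · exact Or.inl h1
    · exact Or.inr ⟨Sum.inr a, by simpa using h1, by simpa using h2⟩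
    · exact Or.inr ⟨Sum.inl a, by simpa using h1, by simpa using h2⟩
  · intro h u u' hu
    apply h
    intro i
    rcases hu i with h1 | ⟨a | a, h1, h2⟩
    · exact Or.inl h1
    · exact Or.inr ⟨Sum.inr a, by simpa using h1, by simpa using h2⟩
    · exact Or.inr ⟨Sum.inl a, by simpa using h1, by simpa using h2⟩

theorem teq_adjoin' : TEq col B (Sum.elim y x) (Sum.elim y x') ↔
    TEq col (B ∪ range y) x x' := by
  rw [teq_swap_iff, teq_adjoin]

/-- Exchange: if `y, y'` have the same type over `B, x, x'`, then `x, x'` have the same type over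
`B, y` iff they have the same type over `B, y'`. -/
theorem teq_exchange (h : TEq col (B ∪ (range x ∪ range x')) y y') :
    TEq col (B ∪ range y) x x' ↔ TEq col (B ∪ range y') x x' := by
  have h1 : TEq col B (Sum.elim x y) (Sum.elim x y') :=
    teq_adjoin'.2 (h.mono (union_subset_union_right _ subset_union_left))
  have h2 : TEq col B (Sum.elim x' y) (Sum.elim x' y') :=
    teq_adjoin'.2 (h.mono (union_subset_union_right _ subset_union_right))
  rw [← teq_adjoin, ← teq_adjoin]
  exact ⟨fun h' => (h1.symm.trans h').trans h2, fun h' => (h1.trans h').trans h2.symm⟩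

/-- Projection to the first part. -/
theorem TEq.fst {z z' : κ → M} (h : TEq col B (Sum.elim x z) (Sum.elim x' z')) :
    TEq col B x x' := h.comp Sum.inl

/-- Projection to the second part. -/
theorem TEq.snd {z z' : κ → M} (h : TEq col B (Sum.elim x z) (Sum.elim x' z')) :
    TEq col B z z' := h.comp Sum.inr

/-- Types over `B` are determined by the types over the subsets of `B` with at most `r`
elements. -/
theorem teq_of_finite (h : ∀ A ⊆ B, A.Finite → TEq col A x x') : TEq col B x x' := by
  rw [teq_iff_forall]
  intro u u' hu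
  apply (h (B ∩ range u) inter_subset_left ((finite_range u).subset inter_subset_right)).elim
  intro i
  rcases hu i with ⟨h1, h2⟩ | h1
  · exact Or.inl ⟨h1, h2, mem_range_self i⟩
  · exact Or.inr h1

/-- Types are determined by `r`-tuples of entries (`r`-locality). -/
theorem teq_local [Nonempty ι] (h : ∀ g : Fin r → ι, TEq col B (x ∘ g) (x' ∘ g)) :
    TEq col B x x' := by
  classical
  rw [teq_iff_forall]
  intro u u' hu
  obtain ⟨a₀⟩ := ‹Nonempty ι›
  have : ∀ i, ∃ a, ((u i = u' i ∧ u i ∈ B) ∨ (u i = x a ∧ u' i = x' a)) := by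
    intro i
    rcases hu i with h1 | ⟨a, h1⟩
    · exact ⟨a₀, Or.inl h1⟩
    · exact ⟨a, Or.inr h1⟩
  choose g hg using this
  apply (h g).elim
  intro i
  rcases hg i with h1 | h1
  · exact Or.inl h1
  · exact Or.inr ⟨i, h1⟩

/-- Full locality: the type over `B` is determined by pairs (`r`-tuple of entries, subset of `B`)
of total size at most `r`. -/
theorem teq_local' (h : ∀ (z : Set ι) (A : Set M), A ⊆ B → z.encard + A.encard ≤ r →
    TEq col A (fun i : z => x i) (fun i : z => x' i)) : TEq col B x x' := by
  classical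
  rw [teq_iff_forall]
  intro u u' hu
  let I : Set (Fin r) := {i | u i = u' i ∧ u i ∈ B}
  have hI : ∀ i : ↥Iᶜ, ∃ a, u i = x a ∧ u' i = x' a := by
    rintro ⟨i, hi⟩
    rcases hu i with h1 | h1
    · exact absurd h1 hi
    · exact h1
  choose g hg using hI
  have hA : u '' I ⊆ B := by
    rintro _ ⟨i, hi, rfl⟩
    exact hi.2
  have hcard : (range g).encard + (u '' I).encard ≤ r := by
    calc (range g).encard + (u '' I).encard ≤ (Iᶜ).encard + I.encard := by
          gcongr
          · rw [← image_univ]
            refine (encard_image_le _ _).trans ?_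
            rw [encard_univ, ENat.card_coe_set_eq]
          · exact encard_image_le _ _
      _ = (univ : Set (Fin r)).encard := by rw [add_comm, encard_add_encard_compl]
      _ = r := by rw [encard_univ]; simp
  apply (h (range g) (u '' I) hA hcard).elim
  intro i
  by_cases hi : i ∈ I
  · exact Or.inl ⟨hi.1, mem_image_of_mem u hi⟩
  · exact Or.inr ⟨⟨g ⟨i, hi⟩, mem_range_self _⟩, (hg ⟨i, hi⟩).1, (hg ⟨i, hi⟩).2⟩

end TEq

end Pool.Agent.Sib
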