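import Pool.Agent.Sib.Basic

/-!
# Basic facts, second part: equalities, embeddings, finiteness, conditions, freeness
-/

namespace Pool.Agent.Sib

open Set

variable {r : ℕ} {M T : Type} {col : (Fin r → M) → T}

section Dom

variable {ι ι' κ : Type} {A B B' N N' : Set M} {x x' x'' : ι → M} {y y' : κ → M}

theorem Dom.eq_of_tp (hD : Dom col) {u u' : ι → M} (h : tp col u = tp col u') {i j : ι}
    (hij : u i = u j) : u' i = u' j := by
  classical
  have h2 := hD.two_le
  let f : Fin r → ι := fun k => if (k : ℕ) = 0 then i else j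
  have h0 := congrFun h f
  have := hD.eq_of_col _ _ h0 ⟨0, by omega⟩ ⟨1, by omega⟩
  simpa [f, hij] using this

theorem Dom.tp_eq_iff (hD : Dom col) {u u' : ι → M} (h : tp col u = tp col u') (i j : ι) :
    u i = u j ↔ u' i = u' j :=
  ⟨fun h' => hD.eq_of_tp h h', fun h' => hD.eq_of_tp h.symm h'⟩

theorem TEq.tp_eq (h : TEq col B x x') : tp col x = tp col x' :=
  teq_empty_iff.1 (h.mono (empty_subset _))

theorem TEq.eq_iff (hD : Dom col) (h : TEq col B x x') (i j : ι) : x i = x j ↔ x' i = x' j :=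
  hD.tp_eq_iff h.tp_eq i j

theorem TEq.eq_mem_iff (hD : Dom col) (h : TEq col B x x') {b : M} (hb : b ∈ B) (i : ι) :
    x i = b ↔ x' i = b := by
  have h1 : TEq col (range (fun _ : Unit => b)) x x' := by
    apply h.mono
    rintro _ ⟨_, rfl⟩
    exact hb
  rw [teq_range_iff] at h1
  have := hD.tp_eq_iff h1 (Sum.inr i) (Sum.inl ())
  simpa using this

theorem TEq.mem_iff (hD : Dom col) (h : TEq col B x x') (i : ι) : x i ∈ B ↔ x' i ∈ B := by
  constructor
  · intro hi
    have := (h.eq_mem_iff hD hi i).1 rfl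
    exact this ▸ hi
  · intro hi
    have := (h.eq_mem_iff hD hi i).2 rfl
    exact this ▸ hi

theorem TEq.eq_of_mem (hD : Dom col) (h : TEq col B x x') {i : ι} (hi : x i ∈ B) :
    x' i = x i := (h.eq_mem_iff hD hi i).1 rfl

/-- The classifying map of types over `B`. -/
def tpo (col : (Fin r → M) → T) (B : Set M) {ι : Type} (x : ι → M) : (Fin r → B ⊕ ι) → T :=
  fun f => col (Sum.elim (fun b : B => (b : M)) x ∘ f)

theorem teq_iff_tpo : TEq col B x x' ↔ tpo col B x = tpo col B x' := by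
  rw [teq_iff]
  exact ⟨fun h => funext h, fun h f => congrFun h f⟩

theorem Dom.finite_tpo (hD : Dom col) (hB : B.Finite) [Finite ι] :
    Finite ((Fin r → B ⊕ ι) → T) := by
  have := hD.fin
  have := hB.to_subtype
  infer_instance

/-- Finitely many types over a finite set. -/
theorem Dom.exists_class (hD : Dom col) (hB : B.Finite) (ι : Type) [Finite ι] :
    ∃ (n : ℕ) (c : (ι → M) → Fin n), ∀ x x' : ι → M, c x = c x' ↔ TEq col B x x' := by
  have := hD.finite_tpo (ι := ι) hB
  obtain ⟨n, ⟨e⟩⟩ := Finite.exists_equiv_fin ((Fin r → B ⊕ ι) → T)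
  exact ⟨n, fun x => e (tpo col B x), fun x x' => by rw [e.apply_eq_iff_eq, teq_iff_tpo]⟩

/-- Uniform version: the number of types over `b` parameters is bounded independently of the
parameters. -/
theorem Dom.exists_class_unif (hD : Dom col) (ι β : Type) [Finite ι] [Finite β] :
    ∃ n : ℕ, ∀ b : β → M, ∃ c : (ι → M) → Fin n, ∀ x x' : ι → M,
      c x = c x' ↔ TEq col (range b) x x' := by
  have := hD.fin
  obtain ⟨n, ⟨e⟩⟩ := Finite.exists_equiv_fin ((Fin r → β ⊕ ι) → T)
  exact ⟨n, fun b => ⟨fun x => e (tp col (Sum.elim b x)), fun x x' => by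
    rw [e.apply_eq_iff_eq, teq_range_iff]⟩⟩

end Dom

section PE

variable {ι ι' κ : Type} {A B B' N N' N'' S S' : Set M} {x x' x'' : ι → M} {h h' : M → M}

theorem PE.mono (hS : S' ⊆ S) (hh : PE col S h) : PE col S' h :=
  fun u hu => hh u (fun i => hS (hu i))

theorem PE.tp_eq (hh : PE col S h) {u : ι → M} (hu : ∀ i, u i ∈ S) :
    tp col (h ∘ u) = tp col u := by
  funext f
  exact hh (u ∘ f) (fun i => hu _)

theorem PE.id (S : Set M) : PE col S id := fun _ _ => rfl

theorem PE.congr (hh : PE col S h) (he : ∀ b ∈ S, h b = h' b) : PE col S h' := by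
  intro u hu
  rw [← hh u hu]
  congr 1
  funext i
  exact (he _ (hu i)).symm

theorem PE.injOn (hD : Dom col) (hh : PE col S h) : InjOn h S := by
  intro a ha b hb hab
  have h1 := hh.tp_eq (u := fun i : Bool => if i then a else b)
    (by intro i; cases i <;> simp [ha, hb])
  have := (hD.tp_eq_iff h1 true false).1 (by simpa using hab)
  simpa using this

theorem PE.comp (hh : PE col S h) (hh' : PE col (h '' S) h') : PE col S (h' ∘ h) := by
  intro u hu
  rw [← hh u hu, ← hh' (h ∘ u) (fun i => mem_image_of_mem h (hu i))]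
  rfl

/-- A type preserving map preserves and reflects equality of types over subsets. -/
theorem PE.teq_iff (hh : PE col S h) (hB : B ⊆ S) (hx : ∀ i, x i ∈ S) (hx' : ∀ i, x' i ∈ S) :
    TEq col (h '' B) (h ∘ x) (h ∘ x') ↔ TEq col B x x' := by
  rw [teq_iff_forall, teq_iff_forall]
  constructor
  · intro H u u' hu
    have hu1 : ∀ i, u i ∈ S := by
      intro i
      rcases hu i with ⟨_, h2⟩ | ⟨a, h2, _⟩
      · exact hB h2
      · exact h2 ▸ hx a
    have hu2 : ∀ i, u' i ∈ S := by
      intro i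
      rcases hu i with ⟨h1, h2⟩ | ⟨a, _, h2⟩
      · exact h1 ▸ hB h2
      · exact h2 ▸ hx' a
    rw [← hh u hu1, ← hh u' hu2]
    apply H
    intro i
    rcases hu i with ⟨h1, h2⟩ | ⟨a, h1, h2⟩
    · exact Or.inl ⟨by simp [h1], mem_image_of_mem h h2⟩
    · exact Or.inr ⟨a, by simp [h1], by simp [h2]⟩
  · intro H v v' hv
    have : ∀ i, ∃ c c', v i = h c ∧ v' i = h c' ∧ c ∈ S ∧ c' ∈ S ∧
        ((c = c' ∧ c ∈ B) ∨ ∃ a, c = x a ∧ c' = x' a) := by
      intro i
      rcases hv i with ⟨h1, c, hc, h2⟩ | ⟨a, h1, h2⟩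
      · exact ⟨c, c, h2.symm, (h2.trans h1).symm, hB hc, hB hc, Or.inl ⟨rfl, hc⟩⟩
      · exact ⟨x a, x' a, h1, h2, hx a, hx' a, Or.inr ⟨a, rfl, rfl⟩⟩
    choose u u' h1 h2 h3 h4 h5 using this
    have e1 : v = h ∘ u := funext h1
    have e2 : v' = h ∘ u' := funext h2
    rw [e1, e2, hh u h3, hh u' h4]
    exact H u u' h5

theorem Emb.comp (h1 : Emb col N N' h) (h2 : Emb col N' N'' h') : Emb col N N'' (h' ∘ h) :=
  ⟨fun b hb => h2.1 _ (h1.1 b hb), h1.2.comp (h2.2.mono (by
    rintro _ ⟨b, hb, rfl⟩; exact h1.1 b hb))⟩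

theorem Emb.id (hN : N ⊆ N') : Emb col N N' id := ⟨fun _ hb => hN hb, PE.id _⟩

theorem Full.mono (hN : N ⊆ N') (hF : Full col N) : Full col N' := by
  intro n t
  obtain ⟨e, h1, h2⟩ := hF n t
  exact ⟨e, fun i => hN (h1 i), h2⟩

end PE

section Cond

variable {V κ : Type}

theorem isCond_of_inv [Finite κ] (g : κ → V) {A : Set M} (hA : A.Finite)
    (Φ : (κ → M) → Prop) (hΦ : ∀ w w' : κ → M, TEq col A w w' → Φ w → Φ w') :
    IsCond col {v : V → M | Φ (v ∘ g)} := by
  refine ⟨A, range g, hA, finite_range g, ?_⟩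
  intro v v' h hv
  exact hΦ _ _ (h.comp (fun k => (⟨g k, mem_range_self k⟩ : range g))) hv

theorem isCond_iInter {J : Type} [Finite J] {S : J → Set (V → M)}
    (h : ∀ j, IsCond col (S j)) : IsCond col {v | ∀ j, v ∈ S j} := by
  choose A I hA hI hS using h
  refine ⟨⋃ j, A j, ⋃ j, I j, finite_iUnion hA, finite_iUnion hI, ?_⟩
  intro v v' hv h j
  apply hS j v v' _ (h j)
  exact (hv.mono (subset_iUnion A j)).comp
    (fun i : I j => (⟨i.1, mem_iUnion.2 ⟨j, i.2⟩⟩ : (⋃ j, I j : Set V)))

theorem isCond_and {S S' : Set (V → M)} (h : IsCond col S) (h' : IsCond col S') :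
    IsCond col {v | v ∈ S ∧ v ∈ S'} := by
  have := isCond_iInter (col := col) (J := Bool) (S := fun b => if b then S else S')
    (by intro b; cases b <;> simpa)
  convert this using 1
  ext v
  simp [and_comm]

theorem isCond_not {S : Set (V → M)} (h : IsCond col S) : IsCond col {v | v ∉ S} := by
  obtain ⟨A, I, hA, hI, hS⟩ := h
  exact ⟨A, I, hA, hI, fun v v' hv h1 h2 => h1 (hS v' v hv.symm h2)⟩

theorem isCond_ne (hD : Dom col) (a : V) (b : M) : IsCond col {v : V → M | v a ≠ b} := by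
  refine isCond_of_inv (fun _ : Unit => a) (finite_singleton b) (fun w => w () ≠ b) ?_
  intro w w' h h1 h2
  exact h1 ((h.eq_mem_iff hD (mem_singleton b) ()).2 h2)

theorem isCond_ne' (hD : Dom col) (a b : V) : IsCond col {v : V → M | v a ≠ v b} := by
  refine isCond_of_inv (fun i : Bool => if i then a else b) (finite_empty)
    (fun w => w true ≠ w false) ?_
  intro w w' h h1 h2
  exact h1 ((h.eq_iff hD true false).2 h2)

theorem isCond_notMem (hD : Dom col) (a : V) {G : Set M} (hG : G.Finite) :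
    IsCond col {v : V → M | v a ∉ G} := by
  refine isCond_of_inv (fun _ : Unit => a) hG (fun w => w () ∉ G) ?_
  intro w w' h h1 h2
  exact h1 ((h.mem_iff hD ()).2 h2)

/-- Saturation with a decreasing sequence of conditions. -/
theorem Dom.sat_seq (hD : Dom col) [Countable V] (S : ℕ → Set (V → M))
    (hS : ∀ n, IsCond col (S n)) (hne : ∀ n, ∃ v, ∀ i ≤ n, v ∈ S i) : ∃ v, ∀ n, v ∈ S n := by
  apply hD.sat V ℕ S hS
  intro F
  obtain ⟨v, hv⟩ := hne (F.sup id)
  exact ⟨v, fun j hj => hv j (Finset.le_sup (f := id) hj)⟩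

end Cond

section Free

variable {ι ι' κ : Type} {A B B' N N' z z' : Set M} {x x' x'' : ι → M} {y y' : κ → M}

theorem Free.mono_base (hB : B' ⊆ B) (h : Free col N B x) : Free col N B' x := by
  intro G hG
  obtain ⟨x', h1, h2⟩ := h G hG
  exact ⟨x', h1, h2.mono hB⟩

theorem Free.mono_set (hN : N ⊆ N') (h : Free col N B x) : Free col N' B x := by
  intro G hG
  obtain ⟨x', h1, h2⟩ := h G hG
  exact ⟨x', fun i => ⟨hN (h1 i).1, (h1 i).2⟩, h2⟩

theorem Free.comp (h : Free col N B x) (g : ι' → ι) : Free col N B (x ∘ g) := by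
  intro G hG
  obtain ⟨x', h1, h2⟩ := h G hG
  exact ⟨x' ∘ g, fun i => h1 _, h2.comp g⟩

theorem Free.congr (hxx : TEq col B x x') (h : Free col N B x) : Free col N B x' := by
  intro G hG
  obtain ⟨x'', h1, h2⟩ := h G hG
  exact ⟨x'', h1, hxx.symm.trans h2⟩

theorem free_congr_iff (hxx : TEq col B x x') : Free col N B x ↔ Free col N B x' :=
  ⟨Free.congr hxx, Free.congr hxx.symm⟩

theorem Free.notMem (hD : Dom col) (hB : B.Finite) (h : Free col N B x) (i : ι) : x i ∉ B := by
  obtain ⟨x', h1, h2⟩ := h B hB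
  rw [h2.mem_iff hD]
  exact (h1 i).2

theorem free_iff_range : Free col N B x ↔ FreeS col N B (range x) := by
  constructor
  · intro h
    choose g hg using fun i : range x => i.2
    have : (fun i : range x => (i : M)) = x ∘ g := by
      funext i
      exact (hg i).symm
    unfold FreeS
    rw [this]
    exact h.comp g
  · intro h
    exact h.comp (fun i => (⟨x i, mem_range_self i⟩ : range x))

theorem FreeS.mono (hz : z' ⊆ z) (h : FreeS col N B z) : FreeS col N B z' :=
  h.comp (fun i : z' => (⟨i.1, hz i.2⟩ : z))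

theorem FreeS.mono_base (hB : B' ⊆ B) (h : FreeS col N B z) : FreeS col N B' z :=
  Free.mono_base hB h

theorem FreeS.mono_set (hN : N ⊆ N') (h : FreeS col N B z) : FreeS col N' B z :=
  Free.mono_set hN h

theorem freeS_empty (B N : Set M) : FreeS col N B ∅ := by
  intro G _
  exact ⟨fun i => (i.2 : False).elim, fun i => (i.2 : False).elim, fun f hf => by
    congr 1
    funext i
    simp only [Function.comp]
    rcases f i with b | a
    · simp
    · exact (a.2 : False).elim⟩

theorem Free.of_range_subset (h : FreeS col N B z) (hx : ∀ i, x i ∈ z) : Free col N B x :=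
  h.comp (fun i => (⟨x i, hx i⟩ : z))

/-- Extension of free types: a tuple free over `B` has a copy over `B` free over a larger finite
set `B'`, and avoiding a given finite set. -/
theorem Free.exists_ext (hD : Dom col) [Finite ι] (hB' : B'.Finite)
    (h : Free col N B x) (G : Set M) (hG : G.Finite) :
    ∃ x', (∀ i, x' i ∈ N ∧ x' i ∉ G) ∧ TEq col B x x' ∧ Free col N B' x' := by
  obtain ⟨n, c, hc⟩ := hD.exists_class (B := B') hB' ι
  by_contra hcon
  push Not at hcon
  -- for each class a finite set hit by all members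
  have hbad : ∀ k : Fin n, ∃ G' : Set M, G'.Finite ∧ ∀ x', (∀ i, x' i ∈ N ∧ x' i ∉ G) →
      TEq col B x x' → c x' = k → ∃ i, x' i ∈ G' := by
    intro k
    by_cases hk : ∃ x₀, (∀ i, x₀ i ∈ N ∧ x₀ i ∉ G) ∧ TEq col B x x₀ ∧ c x₀ = k
    · obtain ⟨x₀, h1, h2, h3⟩ := hk
      have h4 := hcon x₀ h1 h2
      unfold Free at h4
      push Not at h4
      obtain ⟨G', hG', h5⟩ := h4
      refine ⟨G', hG', fun x' hx1 hx2 hx3 => ?_⟩
      by_contra hno
      push Not at hno
      exact h5 x' (fun i => ⟨(hx1 i).1, hno i⟩) ((hc _ _).1 (h3.trans hx3.symm))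
    · refine ⟨∅, finite_empty, fun x' hx1 hx2 hx3 => (hk ⟨x', hx1, hx2, hx3⟩).elim⟩
  choose G' hG'f hG' using hbad
  obtain ⟨x', h1, h2⟩ := h (G ∪ ⋃ k, G' k) (hG.union (finite_iUnion hG'f))
  obtain ⟨i, hi⟩ := hG' (c x') x' (fun i => ⟨(h1 i).1, fun hi => (h1 i).2 (Or.inl hi)⟩) h2 rfl
  exact (h1 i).2 (Or.inr (mem_iUnion.2 ⟨_, hi⟩))

end Free

section Gm

variable {ι ι' κ : Type} {A B B' N N' z z' : Set M} {x x' x'' : ι → M} {y y' : κ → M}

theorem Gm.refl (B N : Set M) (x : ι → M) : Gm col B N x x := ⟨∅, finite_empty, TEq.refl _ _⟩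

theorem Gm.symm (h : Gm col B N x x') : Gm col B N x' x := by
  obtain ⟨G, hG, h⟩ := h
  exact ⟨G, hG, h.symm⟩

theorem Gm.trans (h : Gm col B N x x') (h' : Gm col B N x' x'') : Gm col B N x x'' := by
  obtain ⟨G, hG, h⟩ := h
  obtain ⟨G', hG', h'⟩ := h'
  refine ⟨G ∪ G', hG.union hG', (h.mono ?_).trans (h'.mono ?_)⟩
  · exact union_subset_union_right _ (sdiff_subset_sdiff_right subset_union_left)
  · exact union_subset_union_right _ (sdiff_subset_sdiff_right subset_union_right)

theorem Gm.mono (hB : B' ⊆ B) (hN : N' ⊆ N) (h : Gm col B N x x') : Gm col B' N' x x' := by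
  obtain ⟨G, hG, h⟩ := h
  exact ⟨G, hG, h.mono (union_subset_union hB (sdiff_subset_sdiff_left hN))⟩

theorem Gm.comp (h : Gm col B N x x') (g : ι' → ι) : Gm col B N (x ∘ g) (x' ∘ g) := by
  obtain ⟨G, hG, h⟩ := h
  exact ⟨G, hG, h.comp g⟩

theorem Gm.teq (h : Gm col B N x x') : TEq col B x x' := by
  obtain ⟨G, hG, h⟩ := h
  exact h.mono subset_union_left

theorem Typ.mono_base (hB : B' ⊆ B) (h : Typ col B x) : Typ col B' x := by
  intro G hG
  obtain ⟨x', h1, h2⟩ := h G hG
  exact ⟨x', h1, h2.mono hB subset_rfl⟩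

theorem Typ.comp (h : Typ col B x) (g : ι' → ι) : Typ col B (x ∘ g) := by
  intro G hG
  obtain ⟨x', h1, h2⟩ := h G hG
  exact ⟨x' ∘ g, fun i => h1 _, h2.comp g⟩

theorem Typ.free (h : Typ col B x) : Free col univ B x := by
  intro G hG
  obtain ⟨x', h1, h2⟩ := h G hG
  exact ⟨x', fun i => ⟨mem_univ _, h1 i⟩, h2.teq⟩

end Gm

/-- Disjoint realisations: if tuples with the property `φ` can be found avoiding any finite set,
then there is an infinite sequence of pairwise disjoint ones, avoiding a given finite set. -/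
theorem exists_disj_seq {κ : Type} [Finite κ] (φ : (κ → M) → Prop)
    (h : ∀ G : Set M, G.Finite → ∃ d : κ → M, (∀ s, d s ∉ G) ∧ φ d) (G₀ : Set M)
    (hG₀ : G₀.Finite) :
    ∃ d : ℕ → κ → M, (∀ n, φ (d n)) ∧ (∀ n s, d n s ∉ G₀) ∧
      ∀ n n', n ≠ n' → ∀ s s', d n s ≠ d n' s' := by
  classical
  have : Nonempty (κ → M) := ⟨(h ∅ finite_empty).choose⟩
  choose! D hD1 hD2 using h
  -- build the sequence of finite sets
  let step : Set M → Set M := fun G => G ∪ range (D G)
  let F : ℕ → Set M := fun n => step^[n] G₀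
  have hFs : ∀ n, F (n + 1) = F n ∪ range (D (F n)) := by
    intro n
    simp only [F, Function.iterate_succ_apply', step]
  have hFf : ∀ n, (F n).Finite := by
    intro n
    induction n with
    | zero => exact hG₀
    | succ n ih => rw [hFs]; exact ih.union (finite_range _)
  have hFm : Monotone F := monotone_nat_of_le_succ (fun n => by rw [hFs]; exact subset_union_left)
  refine ⟨fun n => D (F n), fun n => hD2 _ (hFf n), fun n s hs => ?_, ?_⟩
  · exact hD1 _ (hFf n) s (hFm (Nat.zero_le n) hs)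
  · have key : ∀ n n', n < n' → ∀ s s', D (F n) s ≠ D (F n') s' := by
      intro n n' hn s s' he
      apply hD1 _ (hFf n') s'
      rw [← he]
      apply hFm hn
      change D (F n) s ∈ F (n + 1)
      rw [hFs]
      exact Or.inr (mem_range_self s)
    intro n n' hn s s'
    rcases lt_or_gt_of_ne hn with h | h
    · exact key n n' h s s'
    · exact (key n' n h s' s).symm

end Pool.Agent.Sib
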