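import Pool.Agent.Sib.Basic2

/-!
# Module BOUND: finitely many germ classes
-/

namespace Pool.Agent.Sib

open Set

variable {r : ℕ} {M T : Type} {col : (Fin r → M) → T}

theorem exists_cover_fin [Nonempty M] {P : Set M} {a : ℕ} (hP : P.encard ≤ a) :
    ∃ p : Fin a → M, P ⊆ range p := by
  classical
  have hfin : P.Finite := Set.finite_of_encard_le_coe hP
  have hfin' : Fintype P := hfin.fintype
  have hcard : Fintype.card P ≤ Fintype.card (Fin a) := by
    have h1 : P.encard = (Fintype.card P : ℕ∞) := by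
      rw [← Set.coe_fintypeCard]
    rw [h1] at hP
    simpa using (by exact_mod_cast hP : Fintype.card P ≤ a)
  obtain ⟨e⟩ := Function.Embedding.nonempty_of_card_le hcard
  obtain ⟨c₀⟩ := ‹Nonempty M›
  refine ⟨fun i => if h : ∃ b : P, e b = i then (h.choose : M) else c₀, ?_⟩
  intro b hb
  refine ⟨e ⟨b, hb⟩, ?_⟩
  have h : ∃ b' : P, e b' = e ⟨b, hb⟩ := ⟨_, rfl⟩
  have h1 : h.choose = ⟨b, hb⟩ := e.injective h.choose_spec
  simp only [h, dif_pos]
  rw [h1]

theorem unb_bound (hD : Dom col) {a : ℕ} {κ : Type} [Finite κ] (hU : ¬ Unb col a κ) :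
    ∃ m : ℕ, ∀ (P : Set M), P.encard ≤ a → ∀ x : Fin m → κ → M,
      ∃ i j, i ≠ j ∧ Gm col P univ (x i) (x j) := by
  classical
  have hne := hD.ne
  rcases finite_or_infinite M with hfin | hinf
  · -- finite case: pigeonhole
    have : Fintype (κ → M) := Fintype.ofFinite _
    refine ⟨Fintype.card (κ → M) + 1, fun P _ x => ?_⟩
    obtain ⟨i, j, hij, he⟩ := Fintype.exists_ne_map_eq_of_card_lt x (by simp)
    exact ⟨i, j, hij, he ▸ Gm.refl _ _ _⟩
  · unfold Unb at hU
    push Not at hU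
    obtain ⟨m, L, hmL⟩ := hU
    refine ⟨m, fun P hP x => ?_⟩
    by_contra hcon
    push Not at hcon
    obtain ⟨p, hp⟩ := exists_cover_fin hP
    have key : ∀ i j, i ≠ j → ∃ d : ℕ → Fin r → M,
        (∀ n, ¬ TEq col (range p ∪ range (d n)) (x i) (x j)) ∧
        ∀ n n', n ≠ n' → ∀ s s', d n s ≠ d n' s' := by
      intro i j hij
      have hh : ∀ G : Set M, G.Finite → ∃ d : Fin r → M, (∀ s, d s ∉ G) ∧
          ¬ TEq col (range p ∪ range d) (x i) (x j) := by
        intro G hG
        have hn : ¬ TEq col (P ∪ (univ \ G)) (x i) (x j) := fun h => hcon i j hij ⟨G, hG, h⟩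
        rw [teq_iff_forall] at hn
        push Not at hn
        obtain ⟨u, u', hu, hne'⟩ := hn
        obtain ⟨c₀, hc₀⟩ := hG.exists_notMem
        refine ⟨fun l => if u l = u' l ∧ u l ∉ G then u l else c₀, ?_, ?_⟩
        · intro l
          by_cases h : u l = u' l ∧ u l ∉ G
          · show (if u l = u' l ∧ u l ∉ G then u l else c₀) ∉ G
            rw [if_pos h]
            exact h.2
          · show (if u l = u' l ∧ u l ∉ G then u l else c₀) ∉ G
            rw [if_neg h]
            exact hc₀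
        · intro hT
          apply hne'
          apply hT.elim
          intro l
          rcases hu l with ⟨h1, h2 | h2⟩ | h1
          · exact Or.inl ⟨h1, Or.inl (hp h2)⟩
          · refine Or.inl ⟨h1, Or.inr ⟨l, ?_⟩⟩
            exact if_pos ⟨h1, h2.2⟩
          · exact Or.inr h1
      obtain ⟨d, h1, _, h3⟩ := exists_disj_seq
        (fun d : Fin r → M => ¬ TEq col (range p ∪ range d) (x i) (x j)) hh ∅ finite_empty
      exact ⟨d, h1, h3⟩
    choose! d hd1 hd2 using key
    obtain ⟨i, j, hij, hbad⟩ := hmL p x (fun i j ν => d i j ν)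
    obtain ⟨ν, ν', hνν, s, s', he⟩ := hbad (fun ν => hd1 i j hij ν)
    exact hd2 i j hij ν ν' (fun h => hνν (Fin.ext h)) s s' he

theorem Unb.congr {a : ℕ} {κ κ' : Type} (e : κ ≃ κ') (h : Unb col a κ) : Unb col a κ' := by
  intro m L
  obtain ⟨p, x, d, hd⟩ := h m L
  refine ⟨p, fun i => x i ∘ e.symm, d, fun i j hij => ⟨fun ν hT => ?_, (hd i j hij).2⟩⟩
  apply (hd i j hij).1 ν
  have := hT.comp e
  have he : ∀ z : κ → M, (z ∘ e.symm) ∘ e = z := by
    intro z
    funext l
    simp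
  rwa [he, he] at this

/-- Finitely many germ classes. -/
theorem exists_germ_class (hD : Dom col) {B : Set M} (hB : B.Finite) {κ : Type} [Finite κ]
    (hU : ∀ a, ¬ Unb col a κ) :
    ∃ (n : ℕ) (c : (κ → M) → Fin n), ∀ x x' : κ → M, c x = c x' → Gm col B univ x x' := by
  classical
  obtain ⟨m, hm⟩ := unb_bound hD (hU B.ncard)
  have hBc : B.encard ≤ (B.ncard : ℕ∞) := by
    rw [hB.cast_ncard_eq]
  let S : Setoid (κ → M) := ⟨Gm col B univ, ⟨fun x => Gm.refl _ _ x, fun h => h.symm,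
    fun h h' => h.trans h'⟩⟩
  have hfin : Finite (Quotient S) := by
    by_contra hinf
    rw [not_finite_iff_infinite] at hinf
    obtain ⟨g⟩ : Nonempty (Fin m ↪ Quotient S) := ⟨(Fin.valEmbedding).trans
      (Infinite.natEmbedding (Quotient S))⟩
    obtain ⟨i, j, hij, hG⟩ := hm B hBc (fun i => (g i).out)
    apply hij
    apply g.injective
    rw [← Quotient.out_eq (g i), ← Quotient.out_eq (g j)]
    exact Quotient.sound hG
  obtain ⟨n, ⟨e⟩⟩ := Finite.exists_equiv_fin (Quotient S)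
  refine ⟨n, fun x => e (Quotient.mk S x), fun x x' h => ?_⟩
  have h1 := e.injective h
  exact Quotient.exact h1

theorem exists_H (hD : Dom col) (hU : ∀ a, ¬ Unb col a (Fin r)) :
    ∃ H : Set M → Set M, (∀ B, B.Finite → (H B).Finite) ∧ (∀ B, B ⊆ H B) ∧
      ∀ B, B.Finite → ∀ x : Fin r → M, (∀ i, x i ∉ H B) → Typ col B x := by
  classical
  have key : ∀ B : Set M, ∃ HB : Set M, (B.Finite → HB.Finite) ∧ B ⊆ HB ∧
      (B.Finite → ∀ x : Fin r → M, (∀ i, x i ∉ HB) → Typ col B x) := by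
    intro B
    by_cases hB : B.Finite
    · obtain ⟨n, c, hc⟩ := exists_germ_class hD hB hU
      have hk : ∀ k : Fin n, ∃ G : Set M, G.Finite ∧
          ((∃ x : Fin r → M, c x = k ∧ ∀ i, x i ∉ G) →
            ∀ G' : Set M, G'.Finite → ∃ x' : Fin r → M, c x' = k ∧ ∀ i, x' i ∉ G') := by
        intro k
        by_cases h : ∀ G' : Set M, G'.Finite → ∃ x' : Fin r → M, c x' = k ∧ ∀ i, x' i ∉ G'
        · exact ⟨∅, finite_empty, fun _ => h⟩
        · push Not at h
          obtain ⟨G', hG', hG2⟩ := h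
          refine ⟨G', hG', ?_⟩
          rintro ⟨x, hx1, hx2⟩
          obtain ⟨i, hi⟩ := hG2 x hx1
          exact absurd hi (hx2 i)
      choose G hGf hG using hk
      refine ⟨B ∪ ⋃ k, G k, fun _ => hB.union (finite_iUnion hGf), subset_union_left, ?_⟩
      intro _ x hx G' hG'
      obtain ⟨x', h1, h2⟩ := hG (c x) ⟨x, rfl, fun i hi =>
        hx i (Or.inr (mem_iUnion.2 ⟨_, hi⟩))⟩ G' hG'
      exact ⟨x', h2, hc _ _ h1.symm⟩
    · exact ⟨B, fun h => absurd h hB, subset_rfl, fun h => absurd h hB⟩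
  choose H h1 h2 h3 using key
  exact ⟨H, h1, h2, h3⟩

end Pool.Agent.Sib
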