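import Pool.Agent.Sib.Ker

/-!
# Construction of the base system and of the whole system
-/

namespace Pool.Agent.Sib

open Set

variable {r : ℕ} {M T : Type} {col : (Fin r → M) → T}


theorem full_univ : Full col (univ : Set M) :=
  fun _ t => ⟨t, fun _ => mem_univ _, rfl⟩

section Build

variable {Q : Set M} {ν : ℕ} {H : Set M → Set M}

/-- Far copies of tuples. -/
theorem copy_far (hD : Dom col) {C : Set M} (hCc : C.Countable) {n : ℕ} (t : Fin n → M) :
    ∃ e : Fin n → M, tp col e = tp col t ∧ ∀ i, e i ∈ Ker col univ ∨ e i ∉ C := by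
  classical
  have hc : (C \ Ker col univ).Countable := hCc.mono sdiff_subset
  have := hc.to_subtype
  let S : Option ↥(C \ Ker col univ) → Set (Fin n → M) := fun o =>
    match o with
    | none => {v | tp col v = tp col t}
    | some c => {v | ∀ i, v i ≠ c}
  obtain ⟨e, he⟩ := hD.sat (Fin n) (Option ↥(C \ Ker col univ)) S (by
    rintro (_ | c)
    · refine isCond_of_inv (col := col) (V := Fin n) id finite_empty
        (fun w : Fin n → M => tp col w = tp col t) ?_
      intro w w' h h1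
      exact (teq_empty_iff.1 h).symm.trans h1
    · exact isCond_iInter (fun i => isCond_ne hD i (c : M))) (by
    intro F
    let G : Set M := {b | ∃ h : b ∈ C \ Ker col univ, some ⟨b, h⟩ ∈ F}
    have hGf : G.Finite := by
      have h1 : ((fun o : Option ↥(C \ Ker col univ) => o.elim (hD.ne.some) (fun c => (c : M))) ''
          (F : Set (Option ↥(C \ Ker col univ)))).Finite := F.finite_toSet.image _
      refine h1.subset ?_
      rintro b ⟨h, hb⟩
      exact ⟨some ⟨b, h⟩, hb, rfl⟩
    have hGK : Disjoint G (Ker col univ) := by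
      rw [disjoint_left]
      rintro b ⟨h, -⟩ hb
      exact h.2 hb
    obtain ⟨v, hv1, hv2⟩ := ker_remove hD full_univ hGf hGK n t
    refine ⟨v, ?_⟩
    rintro (_ | c) hj
    · exact hv2
    · intro i hi
      apply (hv1 i).2
      rw [hi]
      exact ⟨c.2, hj⟩)
  refine ⟨e, he none, fun i => ?_⟩
  by_cases h1 : e i ∈ Ker col univ
  · exact Or.inl h1
  · refine Or.inr (fun h2 => ?_)
    exact he (some ⟨e i, h2, h1⟩) i rfl

/-- Far realisations of free types. -/
theorem free_far (hD : Dom col) {B C : Set M} (hB : B.Finite) (hCc : C.Countable) {n : ℕ}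
    {x : Fin n → M} (hx : Free col univ B x) :
    ∃ x' : Fin n → M, TEq col B x x' ∧ ∀ i, x' i ∉ C := by
  classical
  have := hCc.to_subtype
  let S : Option C → Set (Fin n → M) := fun o =>
    match o with
    | none => {v | TEq col B x v}
    | some c => {v | ∀ i, v i ≠ c}
  obtain ⟨e, he⟩ := hD.sat (Fin n) (Option C) S (by
    rintro (_ | c)
    · refine isCond_of_inv (col := col) (V := Fin n) id hB
        (fun w : Fin n → M => TEq col B x w) ?_
      intro w w' h h1
      exact h1.trans h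
    · exact isCond_iInter (fun i => isCond_ne hD i (c : M))) (by
    intro F
    let G : Set M := {b | ∃ h : b ∈ C, some ⟨b, h⟩ ∈ F}
    have hGf : G.Finite := by
      have h1 : ((fun o : Option C => o.elim (hD.ne.some) (fun c => (c : M))) ''
          (F : Set (Option C))).Finite := F.finite_toSet.image _
      refine h1.subset ?_
      rintro b ⟨h, hb⟩
      exact ⟨some ⟨b, h⟩, hb, rfl⟩
    obtain ⟨v, hv1, hv2⟩ := hx G hGf
    refine ⟨v, ?_⟩
    rintro (_ | c) hj
    · exact hv2
    · intro i hi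
      apply (hv1 i).2
      rw [hi]
      exact ⟨c.2, hj⟩)
  refine ⟨e, he none, fun i h2 => ?_⟩
  exact he (some ⟨e i, h2⟩) i rfl

/-- Finite sets avoiding a suitable countable set are free over `B`. -/
theorem exists_hit (hD : Dom col) {B : Set M} (hB : B.Finite) :
    ∃ C : Set M, C.Countable ∧ ∀ z : Set M, z.Finite → Disjoint z C →
      FreeS col univ B z := by
  classical
  have key : ∀ n : ℕ, ∃ G : Set M, G.Finite ∧ ∀ y : Fin n → M, (∀ i, y i ∉ G) →
      Free col univ B y := by
    intro n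
    obtain ⟨N, c, hc⟩ := hD.exists_class hB (Fin n)
    have h1 : ∀ k : Fin N, ∃ G : Set M, G.Finite ∧ ∀ y : Fin n → M, c y = k →
        (∀ i, y i ∉ G) → Free col univ B y := by
      intro k
      by_cases hk : ∃ y₀, c y₀ = k ∧ ¬ Free col univ B y₀
      · obtain ⟨y₀, h2, h3⟩ := hk
        unfold Free at h3
        push Not at h3
        obtain ⟨G, hG, h4⟩ := h3
        refine ⟨G, hG, fun y hy hyG => ?_⟩
        exact absurd ((hc _ _).1 (h2.trans hy.symm)) (h4 y (fun i => ⟨mem_univ _, hyG i⟩))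
      · push Not at hk
        exact ⟨∅, finite_empty, fun y hy _ => hk y hy⟩
    choose G hGf hG using h1
    refine ⟨⋃ k, G k, finite_iUnion hGf, fun y hy => hG (c y) y rfl (fun i hi => ?_)⟩
    exact hy i (mem_iUnion.2 ⟨_, hi⟩)
  choose G hGf hG using key
  refine ⟨⋃ n, G n, countable_iUnion (fun n => (hGf n).countable), fun z hz hd => ?_⟩
  have := hz.to_subtype
  obtain ⟨n, ⟨e⟩⟩ := Finite.exists_equiv_fin ↥z
  have h1 : Free col univ B (fun i : Fin n => ((e.symm i : ↥z) : M)) := by
    apply hG n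
    intro i hi
    exact disjoint_left.1 hd (e.symm i).2 (mem_iUnion.2 ⟨n, hi⟩)
  have h2 := h1.comp e
  have h3 : (fun i : Fin n => ((e.symm i : ↥z) : M)) ∘ e = fun i : ↥z => (i : M) := by
    funext i
    simp
  rw [h3] at h2
  exact h2

/-- An enumeration of the types of tuples over a finite set, each occurring infinitely often. -/
theorem exists_enum (hD : Dom col) {B : Set M} (hB : B.Finite) :
    ∃ W : ℕ → (Σ n : ℕ, (Fin n → M)), ∀ (n : ℕ) (x : Fin n → M) (l₀ : ℕ),
      ∃ l ≥ l₀, ∃ x' : Fin n → M, W l = ⟨n, x'⟩ ∧ TEq col B x x' := by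
  classical
  have h0 := fun n : ℕ => hD.exists_class hB (Fin n)
  choose N c hc using h0
  obtain ⟨b₀⟩ := hD.ne
  let R : (Σ n : ℕ, Fin (N n)) → (Σ n : ℕ, (Fin n → M)) := fun s =>
    if h : ∃ x : Fin s.1 → M, c s.1 x = s.2 then ⟨s.1, h.choose⟩ else ⟨s.1, fun _ => b₀⟩
  have : Nonempty ((Σ n : ℕ, Fin (N n)) × ℕ) := ⟨⟨0, c 0 (fun _ => b₀)⟩, 0⟩
  obtain ⟨g, hg⟩ := exists_surjective_nat ((Σ n : ℕ, Fin (N n)) × ℕ)
  refine ⟨fun l => R (g l).1, fun n x l₀ => ?_⟩
  set s : (Σ n : ℕ, Fin (N n)) := ⟨n, c n x⟩ with hs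
  have hinf : {l : ℕ | (g l).1 = s}.Infinite := by
    intro hfin
    have h1 : ((fun l => (g l).2) '' {l : ℕ | (g l).1 = s}).Finite := hfin.image _
    apply infinite_univ (α := ℕ)
    refine h1.subset ?_
    intro k _
    obtain ⟨l, hl⟩ := hg (s, k)
    exact ⟨l, by simp [hl], by simp [hl]⟩
  obtain ⟨l, hl, hlt⟩ := hinf.exists_gt l₀
  have hex : ∃ x' : Fin n → M, c n x' = c n x := ⟨x, rfl⟩
  refine ⟨l, hlt.le, hex.choose, ?_, (hc n _ _).1 hex.choose_spec.symm⟩
  have hl' : (g l).1 = s := hl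
  simp only [hl', R, hs]
  rw [dif_pos hex]

/-- The far set of a countable set. -/
theorem exists_far (hC : Ctx col Q ν H) {U : Set M} (hU : U.Countable) :
    ∃ C : Set M, C.Countable ∧ ∀ B ⊆ U, B.Finite → H B ⊆ C ∧
      ∀ z : Set M, z.Finite → Disjoint z C → FreeS col univ B z := by
  classical
  have h0 : ∀ B : Set M, B.Finite → ∃ C : Set M, C.Countable ∧ ∀ z : Set M, z.Finite →
      Disjoint z C → FreeS col univ B z := fun B hB => exists_hit hC.dom hB
  choose! hit hitc hitp using h0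
  refine ⟨⋃ B ∈ {B : Set M | B.Finite ∧ B ⊆ U}, (H B ∪ hit B), ?_, ?_⟩
  · refine (countable_ofPred_finite_subset hU).biUnion (fun B hB => ?_)
    exact (hC.Hfin B hB.1).countable.union (hitc B hB.1)
  · intro B hBU hB
    have hsub : H B ∪ hit B ⊆ ⋃ B ∈ {B : Set M | B.Finite ∧ B ⊆ U}, (H B ∪ hit B) :=
      subset_biUnion_of_mem (u := fun B => H B ∪ hit B) (show B ∈ {B : Set M | B.Finite ∧ B ⊆ U}
        from ⟨hB, hBU⟩)
    refine ⟨subset_union_left.trans hsub, fun z hz hd => ?_⟩
    exact hitp B hB z hz (hd.mono_right (subset_union_right.trans hsub))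

theorem exists_base (hC : Ctx col Q ν H) : ∃ E, BaseSys col Q H (Ker col univ) E := by
  classical
  have hD := hC.dom
  have hKc : (Ker col (univ : Set M)).Countable := ker_countable hD full_univ
  obtain ⟨W₁, hW₁⟩ := exists_enum hD (B := (∅ : Set M)) finite_empty
  obtain ⟨W₂, hW₂⟩ := exists_enum hD (B := Q) hC.Qfin
  have hfar : ∀ U : Set M, U.Countable → ∃ C : Set M, C.Countable ∧ ∀ B ⊆ U, B.Finite → H B ⊆ C ∧
      ∀ z : Set M, z.Finite → Disjoint z C → FreeS col univ B z := fun U hU => exists_far hC hU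
  choose! far farc farp using hfar
  have hstep : ∀ (l : ℕ) (C : Set M), C.Countable → ∃ E : Set M, E.Finite ∧ Disjoint E C ∧
      (∃ e : Fin (W₁ l).1 → M, tp col e = tp col (W₁ l).2 ∧ ∀ i, e i ∈ Ker col univ ∪ E) ∧
      (Free col univ Q (W₂ l).2 → ∃ x' : Fin (W₂ l).1 → M, TEq col Q (W₂ l).2 x' ∧
        ∀ i, x' i ∈ E) := by
    intro l C hCc
    obtain ⟨e, he1, he2⟩ := copy_far hD hCc (W₁ l).2
    have hE₁ : Disjoint (range e \ Ker col univ) C := by
      rw [disjoint_left]
      rintro _ ⟨⟨i, rfl⟩, hi⟩ hiC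
      rcases he2 i with h | h
      · exact hi h
      · exact h hiC
    have hE₁' : ∀ i, e i ∈ Ker col univ ∪ (range e \ Ker col univ) := by
      intro i
      by_cases h : e i ∈ Ker col univ
      · exact Or.inl h
      · exact Or.inr ⟨mem_range_self i, h⟩
    by_cases hF : Free col univ Q (W₂ l).2
    · obtain ⟨x', hx1, hx2⟩ := free_far hD hC.Qfin hCc hF
      refine ⟨(range e \ Ker col univ) ∪ range x',
        ((finite_range e).subset sdiff_subset).union (finite_range x'), ?_, ⟨e, he1, ?_⟩,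
        fun _ => ⟨x', hx1, fun i => Or.inr (mem_range_self i)⟩⟩
      · rw [disjoint_union_left]
        refine ⟨hE₁, ?_⟩
        rw [disjoint_left]
        rintro _ ⟨i, rfl⟩ hiC
        exact hx2 i hiC
      · intro i
        rcases hE₁' i with h | h
        · exact Or.inl h
        · exact Or.inr (Or.inl h)
    · exact ⟨range e \ Ker col univ, (finite_range e).subset sdiff_subset, hE₁, ⟨e, he1, hE₁'⟩,
        fun h => absurd h hF⟩
  choose! st stf std stc str using hstep
  let K : Set M := Ker col univ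
  let U : ℕ → Set M := fun l => Nat.rec ∅ (fun l U => U ∪ st l (far (K ∪ Q ∪ U))) l
  have hU0 : U 0 = ∅ := rfl
  have hUs : ∀ l, U (l + 1) = U l ∪ st l (far (K ∪ Q ∪ U l)) := fun l => rfl
  have hUc : ∀ l, (U l).Finite := by
    intro l
    induction l with
    | zero => rw [hU0]; exact finite_empty
    | succ l ih =>
      rw [hUs]
      have h1 : (K ∪ Q ∪ U l).Countable := (hKc.union hC.Qfin.countable).union ih.countable
      exact ih.union (stf l _ (farc _ h1))
  have hUcc : ∀ l, (K ∪ Q ∪ U l).Countable := fun l =>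
    (hKc.union hC.Qfin.countable).union (hUc l).countable
  let E : ℕ → Set M := fun l => st l (far (K ∪ Q ∪ U l))
  have hUE : ∀ l, (⋃ l' < l, E l') ⊆ U l := by
    intro l
    induction l with
    | zero => simp
    | succ l ih =>
      intro b hb
      simp only [mem_iUnion] at hb
      obtain ⟨l', hl', hb⟩ := hb
      rw [hUs]
      rcases Nat.lt_succ_iff_lt_or_eq.1 hl' with h | h
      · left
        apply ih
        simp only [mem_iUnion]
        exact ⟨l', h, hb⟩
      · right
        rw [h] at hb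
        exact hb
  have hsub : ∀ l B, B ⊆ K ∪ Q ∪ (⋃ l' < l, E l') → B ⊆ K ∪ Q ∪ U l := fun l B hB =>
    hB.trans (union_subset_union_right _ (hUE l))
  refine ⟨E, ⟨fun l => stf l _ (farc _ (hUcc l)), ?_, ?_, ?_, ?_⟩⟩
  · intro l B hBf hB
    have h1 := (farp _ (hUcc l) B (hsub l B hB) hBf).1
    exact (std l _ (farc _ (hUcc l))).mono_right h1
  · intro l B hBf hB
    exact (farp _ (hUcc l) B (hsub l B hB) hBf).2 _ (stf l _ (farc _ (hUcc l)))
      (std l _ (farc _ (hUcc l)))
  · intro n t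
    obtain ⟨l, -, t', ht', htt⟩ := hW₁ n t 0
    obtain ⟨e, he1, he2⟩ := stc l _ (farc _ (hUcc l))
    have h2 : ∃ e : Fin n → M, tp col e = tp col t' ∧ ∀ i, e i ∈ Ker col univ ∪ E l := by
      have h3 : ∀ s : (Σ n : ℕ, (Fin n → M)), s = ⟨n, t'⟩ → (∃ e : Fin s.1 → M,
          tp col e = tp col s.2 ∧ ∀ i, e i ∈ Ker col univ ∪ E l) →
          ∃ e : Fin n → M, tp col e = tp col t' ∧ ∀ i, e i ∈ Ker col univ ∪ E l := by
        intro s hs
        subst hs
        exact id
      exact h3 _ ht' ⟨e, he1, he2⟩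
    obtain ⟨e', h3, h4⟩ := h2
    exact ⟨l, e', h3.trans (teq_empty_iff.1 htt).symm, h4⟩
  · intro n x hx l₀
    obtain ⟨l, hl, x', hx', hxx⟩ := hW₂ n x l₀
    have h3 : ∀ s : (Σ n : ℕ, (Fin n → M)), s = ⟨n, x'⟩ → (Free col univ Q s.2 →
        ∃ x' : Fin s.1 → M, TEq col Q s.2 x' ∧ ∀ i, x' i ∈ E l) →
        (Free col univ Q x' → ∃ x'' : Fin n → M, TEq col Q x' x'' ∧ ∀ i, x'' i ∈ E l) := by
      intro s hs
      subst hs
      exact id
    obtain ⟨x'', h4, h5⟩ := h3 _ hx' (str l _ (farc _ (hUcc l))) (hx.congr hxx)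
    exact ⟨l, hl, x'', hxx.trans h4, h5⟩

end Build

end Pool.Agent.Sib
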