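import Pool.Agent.Sib.Basic2

/-!
# Configurations over a full sequence
-/

namespace Pool.Agent.Sib

open Set

variable {r : ℕ} {M T : Type} {col : (Fin r → M) → T}

theorem Config.full_copy {N : Set M} (hN : Full col N) {ι : Type} [Finite ι] (t : ι → M) :
    ∃ e : ι → M, (∀ i, e i ∈ N) ∧ tp col e = tp col t := by
  obtain ⟨n, ⟨f⟩⟩ := Finite.exists_equiv_fin ι
  obtain ⟨e, h1, h2⟩ := hN n (t ∘ f.symm)
  refine ⟨e ∘ f, fun i => h1 _, ?_⟩
  funext g
  have h3 := congrFun h2 (f ∘ g)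
  have h4 : (t ∘ f.symm) ∘ (f ∘ g) = t ∘ g := by
    funext i
    simp
  unfold tp at h3 ⊢
  rw [h4] at h3
  exact h3

theorem Config.finite_sub_seq (v : ℕ → M) {A P : Set M} (hA : A.Finite) (hAP : A ⊆ range v ∪ P) :
    ∃ L, A ⊆ v '' Iio L ∪ P := by
  have h : ∀ b : A, ∃ L, (b : M) ∈ v '' Iio L ∪ P := by
    rintro ⟨b, hb⟩
    rcases hAP hb with ⟨n, rfl⟩ | h
    · exact ⟨n + 1, Or.inl ⟨n, by simp, rfl⟩⟩
    · exact ⟨0, Or.inr h⟩
  choose L hL using h
  have := hA.to_subtype
  obtain ⟨L', hL'⟩ := Finite.exists_le L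
  refine ⟨L', fun b hb => ?_⟩
  rcases hL ⟨b, hb⟩ with ⟨n, hn, h⟩ | h
  · exact Or.inl ⟨n, lt_of_lt_of_le hn (hL' _), h⟩
  · exact Or.inr h

/-- The index type of a finite configuration. -/
abbrev CfgIdx (r a k m L : ℕ) : Type :=
  (Fin a ⊕ (Fin m × Fin k)) ⊕ (Fin L × (Fin m × Fin m × Fin r))

/-- The condition at stage `L`. -/
def CfgCond (col : (Fin r → M) → T) (v : ℕ → M) (a k m L : ℕ) (z : CfgIdx r a k m L → M) : Prop :=
  (∀ i j, TEq col (v '' Iio L ∪ range (fun s => z (Sum.inl (Sum.inl s))))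
    (fun l => z (Sum.inl (Sum.inr (i, l)))) (fun l => z (Sum.inl (Sum.inr (j, l))))) ∧
  (∀ i j (ν : Fin L), i ≠ j → ¬ TEq col (range (fun s => z (Sum.inl (Sum.inl s))) ∪
      range (fun s => z (Sum.inr (ν, (i, j, s)))))
    (fun l => z (Sum.inl (Sum.inr (i, l)))) (fun l => z (Sum.inl (Sum.inr (j, l))))) ∧
  (∀ i j, i ≠ j → ∀ ν ν' : Fin L, ν ≠ ν' → ∀ s s',
    z (Sum.inr (ν, (i, j, s))) ≠ z (Sum.inr (ν', (i, j, s')))) ∧
  ∃ z' : CfgIdx r a k m L → M, (∀ c, z' c ∈ range v) ∧ TEq col (v '' Iio L) z z'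

/-- Two tuples have the same type over a joined tuple iff the joined tuples have the same type. -/
theorem Config.teq_range2_iff {ι κ κ' : Type} (b : κ → M) (b' : κ' → M) (y y' : ι → M) :
    TEq col (range b ∪ range b') y y' ↔
      tp col (Sum.elim (Sum.elim b b') y) = tp col (Sum.elim (Sum.elim b b') y') := by
  rw [← teq_range_iff, Sum.elim_range]

/-- The second condition depends on the type only. -/
theorem Config.not_teq_congr {ι κ κ' μ : Type} {z z' : μ → M} (h : tp col z = tp col z')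
    (f : κ → μ) (f' : κ' → μ) (g g' : ι → μ) :
    TEq col (range (z ∘ f) ∪ range (z ∘ f')) (z ∘ g) (z ∘ g') ↔
      TEq col (range (z' ∘ f) ∪ range (z' ∘ f')) (z' ∘ g) (z' ∘ g') := by
  rw [Config.teq_range2_iff, Config.teq_range2_iff]
  have e1 : ∀ (y : μ → M) (q : ι → μ), Sum.elim (Sum.elim (y ∘ f) (y ∘ f')) (y ∘ q) =
      y ∘ Sum.elim (Sum.elim f f') q := by
    intro y q
    funext i
    rcases i with (i | i) | i <;> rfl
  have e2 : ∀ q : ι → μ, tp col (z ∘ Sum.elim (Sum.elim f f') q) =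
      tp col (z' ∘ Sum.elim (Sum.elim f f') q) := by
    intro q
    rw [← teq_empty_iff] at h ⊢
    exact h.comp _
  rw [e1, e1, e1, e1, e2, e2]

theorem CfgCond.inv (hD : Dom col) {v : ℕ → M} {a k m L : ℕ} {z z' : CfgIdx r a k m L → M}
    (h : TEq col (v '' Iio L) z z') (hz : CfgCond col v a k m L z) :
    CfgCond col v a k m L z' := by
  obtain ⟨h1, h2, h3, z₀, h4, h5⟩ := hz
  refine ⟨fun i j => ?_, fun i j ν hij => ?_, fun i j hij ν ν' hν s s' he => ?_,
    z₀, h4, h.symm.trans h5⟩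
  · have h6 := teq_adjoin'.2 (h1 i j)
    refine teq_adjoin'.1 ?_
    have h7 : ∀ i : Fin m, TEq col (v '' Iio L)
        (Sum.elim (fun s => z (Sum.inl (Sum.inl s))) (fun l => z (Sum.inl (Sum.inr (i, l)))))
        (Sum.elim (fun s => z' (Sum.inl (Sum.inl s)))
          (fun l => z' (Sum.inl (Sum.inr (i, l))))) := by
      intro i
      have := h.comp (Sum.elim (fun s : Fin a => (Sum.inl (Sum.inl s) : CfgIdx r a k m L))
        (fun l : Fin k => Sum.inl (Sum.inr (i, l))))
      convert this using 1 <;> (funext c; rcases c with c | c <;> rfl)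
    exact ((h7 i).symm.trans h6).trans (h7 j)
  · have h6 := h2 i j ν hij
    have h7 := Config.not_teq_congr h.tp_eq (fun s : Fin a => (Sum.inl (Sum.inl s) : CfgIdx r a k m L))
      (fun s : Fin r => Sum.inr (ν, (i, j, s))) (fun l : Fin k => Sum.inl (Sum.inr (i, l)))
      (fun l : Fin k => Sum.inl (Sum.inr (j, l)))
    exact fun h8 => h6 (h7.2 h8)
  · exact h3 i j hij ν ν' hν s s' ((h.eq_iff hD _ _).2 he)

/-- Restriction of indices. -/
def cfgMap {r a k m : ℕ} (L L' : ℕ) (h : L ≤ L') : CfgIdx r a k m L → CfgIdx r a k m L' :=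
  Sum.map id (Prod.map (Fin.castLE h) id)

theorem CfgCond.mono {v : ℕ → M} {a k m L L' : ℕ} (hL : L ≤ L')
    {z : CfgIdx r a k m L' → M} (hz : CfgCond col v a k m L' z) :
    CfgCond col v a k m L (z ∘ cfgMap L L' hL) := by
  obtain ⟨h1, h2, h3, z₀, h4, h5⟩ := hz
  have hsub : v '' Iio L ⊆ v '' Iio L' := image_mono (Iio_subset_Iio hL)
  refine ⟨fun i j => ?_, fun i j ν hij => ?_, fun i j hij ν ν' hν s s' he => ?_,
    z₀ ∘ cfgMap L L' hL, fun c => h4 _, (h5.mono hsub).comp _⟩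
  · exact (h1 i j).mono (union_subset_union_left _ hsub)
  · exact h2 i j (Fin.castLE hL ν) hij
  · exact h3 i j hij (Fin.castLE hL ν) (Fin.castLE hL ν')
      (fun h => hν (Fin.castLE_injective hL h)) s s' he

/-- Finite configurations exist inside a full sequence. -/
theorem exists_cfg (hD : Dom col) {v : ℕ → M} (hv : Full col (range v)) {a k : ℕ}
    (hU : Unb col a (Fin k)) (m L : ℕ) :
    ∃ z : CfgIdx r a k m L → M, CfgCond col v a k m L z := by
  classical
  obtain ⟨n, hn⟩ := hD.exists_class_unif (Fin k) (Fin L ⊕ Fin a)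
  obtain ⟨p, x, d, h⟩ := hU (n * m + 1) L
  let m' := n * m + 1
  let z : (Fin a ⊕ (Fin m' × Fin k)) ⊕ (Fin m' × Fin m' × Fin L × Fin r) → M :=
    Sum.elim (Sum.elim p (fun s => x s.1 s.2)) (fun s => d s.1 s.2.1 s.2.2.1 s.2.2.2)
  obtain ⟨e, he1, he2⟩ := Config.full_copy hv z
  let p' : Fin a → M := fun s => e (Sum.inl (Sum.inl s))
  let x' : Fin m' → Fin k → M := fun i l => e (Sum.inl (Sum.inr (i, l)))
  let d' : Fin m' → Fin m' → Fin L → Fin r → M := fun i j ν s => e (Sum.inr (i, j, ν, s))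
  obtain ⟨c, hc⟩ := hn (Sum.elim (fun t : Fin L => v t) p')
  obtain ⟨φ, hφ⟩ := Fintype.exists_lt_card_fiber_of_mul_lt_card (f := fun i : Fin m' => c (x' i))
    (n := m) (by simp [m'])
  obtain ⟨g, hgi, hgφ⟩ : ∃ g : Fin m → Fin m', Function.Injective g ∧
      ∀ i, c (x' (g i)) = φ := by
    have h1 : m ≤ Fintype.card {i // c (x' i) = φ} := by
      rw [Fintype.card_subtype]
      exact hφ.le
    let e : Fin m ↪ {i // c (x' i) = φ} :=
      (Fin.castLEEmb h1).trans (Fintype.equivFin {i // c (x' i) = φ}).symm.toEmbedding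
    exact ⟨fun i => (e i).1, fun i j h => e.injective (Subtype.ext h), fun i => (e i).2⟩
  refine ⟨Sum.elim (Sum.elim p' (fun s => x' (g s.1) s.2))
    (fun s => d' (g s.2.1) (g s.2.2.1) s.1 s.2.2.2), fun i j => ?_, fun i j ν hij => ?_,
    fun i j hij ν ν' hν s s' he => ?_, _, ?_, TEq.refl _ _⟩
  · have h1 := (hc (x' (g i)) (x' (g j))).1 ((hgφ i).trans (hgφ j).symm)
    rw [Sum.elim_range] at h1
    apply h1.mono
    apply union_subset_union
    · rintro _ ⟨t, ht, rfl⟩
      exact ⟨⟨t, ht⟩, rfl⟩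
    · exact subset_rfl
  · have h1 := (h (g i) (g j) (fun h => hij (hgi h))).1 ν
    have h2 := Config.not_teq_congr he2 (fun s : Fin a => Sum.inl (Sum.inl s))
      (fun s : Fin r => Sum.inr (g i, g j, ν, s))
      (fun l : Fin k => Sum.inl (Sum.inr (g i, l)))
      (fun l : Fin k => Sum.inl (Sum.inr (g j, l)))
    exact fun h3 => h1 (h2.1 h3)
  · have h1 := (h (g i) (g j) (fun h => hij (hgi h))).2 ν ν' hν s s'
    exact h1 ((hD.tp_eq_iff he2 (Sum.inr (g i, g j, ν, s)) (Sum.inr (g i, g j, ν', s'))).1 he)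
  · rintro ((s | s) | s)
    · exact he1 _
    · exact he1 _
    · exact he1 _

theorem exists_config (hD : Dom col) {v : ℕ → M} (hv : Full col (range v)) {a k : ℕ}
    (hU : Unb col a (Fin k)) (m : ℕ) :
    ∃ (p : Fin a → M) (x : Fin m → Fin k → M) (d : ℕ → (Fin m × Fin m × Fin r) → M),
      (∀ i j, TEq col (range v ∪ range p) (x i) (x j)) ∧
      (∀ i j ν, i ≠ j → ¬ TEq col (range p ∪ range (fun s => d ν (i, j, s))) (x i) (x j)) ∧
      (∀ i j, i ≠ j → ∀ ν ν', ν ≠ ν' → ∀ s s', d ν (i, j, s) ≠ d ν' (i, j, s')) ∧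
      (∀ (n : ℕ) (A : Set M), A.Finite → A ⊆ range v →
        ∃ (p' : Fin a → M) (x' : Fin m → Fin k → M) (d' : ℕ → (Fin m × Fin m × Fin r) → M),
          (∀ i, p' i ∈ range v) ∧ (∀ i l, x' i l ∈ range v) ∧ (∀ ν c, d' ν c ∈ range v) ∧
          TEq col A
            (Sum.elim (Sum.elim p (fun s : Fin m × Fin k => x s.1 s.2))
              (fun s : Fin n × (Fin m × Fin m × Fin r) => d s.1 s.2))
            (Sum.elim (Sum.elim p' (fun s : Fin m × Fin k => x' s.1 s.2))
              (fun s : Fin n × (Fin m × Fin m × Fin r) => d' s.1 s.2))) := by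
  classical
  let V : Type := (Fin a ⊕ (Fin m × Fin k)) ⊕ (ℕ × (Fin m × Fin m × Fin r))
  let q : ∀ L, CfgIdx r a k m L → V := fun L => Sum.map id (Prod.map (fun t : Fin L => (t : ℕ)) id)
  have hq : ∀ L L' (h : L ≤ L'), q L' ∘ cfgMap L L' h = q L := by
    intro L L' h
    funext c
    rcases c with c | c <;> rfl
  obtain ⟨w, hw⟩ := hD.sat_seq (V := V) (fun L => {w | CfgCond col v a k m L (w ∘ q L)})
    (fun L => isCond_of_inv (q L) ((finite_Iio L).image v) (CfgCond col v a k m L)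
      (fun z z' h hz => CfgCond.inv hD h hz)) (by
      intro L
      obtain ⟨z, hz⟩ := exists_cfg hD hv hU m L
      let w : V → M := Sum.elim (fun s => z (Sum.inl s))
        (fun s => if h : s.1 < L then z (Sum.inr (⟨s.1, h⟩, s.2)) else v 0)
      have hwz : w ∘ q L = z := by
        funext c
        rcases c with c | c
        · rfl
        · simp [w, q]
      refine ⟨w, fun i hi => ?_⟩
      have := hz.mono hi
      rw [← hwz, Function.comp_assoc, hq] at this
      exact this)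
  refine ⟨fun s => w (Sum.inl (Sum.inl s)), fun i l => w (Sum.inl (Sum.inr (i, l))),
    fun ν c => w (Sum.inr (ν, c)), fun i j => ?_, fun i j ν hij => ?_,
    fun i j hij ν ν' hν s s' => ?_, fun n A hA hAv => ?_⟩
  · apply teq_of_finite
    intro A hA hAf
    obtain ⟨L, hL⟩ := Config.finite_sub_seq v hAf hA
    exact ((hw L).1 i j).mono hL
  · exact (hw (ν + 1)).2.1 i j ⟨ν, by omega⟩ hij
  · exact (hw (max ν ν' + 1)).2.2.1 i j hij ⟨ν, by omega⟩ ⟨ν', by omega⟩
      (fun h => hν (by simpa using h)) s s'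
  · obtain ⟨L, hL⟩ := Config.finite_sub_seq v (P := ∅) hA (by simpa using hAv)
    obtain ⟨z', h1, h2⟩ := (hw (max L n)).2.2.2
    have hnL : n ≤ max L n := le_max_right _ _
    refine ⟨fun s => z' (Sum.inl (Sum.inl s)), fun i l => z' (Sum.inl (Sum.inr (i, l))),
      fun ν c => if h : ν < max L n then z' (Sum.inr (⟨ν, h⟩, c)) else v 0,
      fun i => h1 _, fun i l => h1 _, fun ν c => ?_, ?_⟩
    · dsimp only
      split_ifs with h
      · exact h1 _
      · exact mem_range_self 0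
    · have h3 : A ⊆ v '' Iio (max L n) := by
        refine hL.trans ?_
        rw [union_empty]
        exact image_mono (Iio_subset_Iio (le_max_left _ _))
      have h4 := (h2.mono h3).comp (cfgMap n (max L n) hnL)
      convert h4 using 1
      · funext c
        rcases c with (c | c) | c <;> rfl
      · funext c
        rcases c with (c | c) | c
        · rfl
        · rfl
        · have : (c.1 : ℕ) < max L n := lt_of_lt_of_le c.1.2 hnL
          simp only [Sum.elim_inr, this, dif_pos, Function.comp]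
          rfl

end Pool.Agent.Sib
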