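import Pool.Agent.Sib.Basic2

/-!
# A full sequence in which similarity implies germ equivalence
-/

namespace Pool.Agent.Sib

open Set

variable {r : ℕ} {M T : Type} {col : (Fin r → M) → T}

theorem exists_full (hD : Dom col) : ∃ f : ℕ → M, Full col (range f) := by
  classical
  obtain ⟨m₀⟩ := hD.ne
  choose N c hc using fun n : ℕ => hD.exists_class (B := ∅) finite_empty (Fin n)
  have hrep : ∀ n (k : Fin (N n)), ∃ t : Fin n → M, (∃ t', c n t' = k) → c n t = k := by
    intro n k
    by_cases h : ∃ t', c n t' = k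
    · obtain ⟨t', ht'⟩ := h
      exact ⟨t', fun _ => ht'⟩
    · exact ⟨fun _ => m₀, fun h' => absurd h' h⟩
  choose t ht using hrep
  let C : Set M := {m₀} ∪ ⋃ n, ⋃ k, range (t n k)
  have hC : C.Countable :=
    (countable_singleton m₀).union
      (countable_iUnion (fun n => countable_iUnion (fun k => countable_range _)))
  obtain ⟨f, hf⟩ := hC.exists_eq_range ⟨m₀, Or.inl rfl⟩
  refine ⟨f, fun n u => ⟨t n (c n u), fun i => ?_, ?_⟩⟩
  · rw [← hf]
    exact Or.inr (mem_iUnion.2 ⟨n, mem_iUnion.2 ⟨c n u, mem_range_self i⟩⟩)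
  · have := ht n (c n u) ⟨u, rfl⟩
    exact teq_empty_iff.1 ((hc n _ _).1 this)

/-- The thresholds. -/
def gs (j : ℕ) : ℕ := ∑ l ∈ Finset.range j, (l + 1)

theorem gs_mono {i j : ℕ} (h : i ≤ j) : gs i ≤ gs j :=
  Finset.sum_le_sum_of_subset (Finset.range_mono h)

theorem gs_succ (j : ℕ) : gs (j + 1) = gs j + (j + 1) := Finset.sum_range_succ _ _

theorem le_gs (j : ℕ) : j ≤ gs j := by
  induction j with
  | zero => exact Nat.zero_le _
  | succ j ih => rw [gs_succ]; omega

theorem gs_gap {i j : ℕ} (h : i < j) : gs i + j ≤ gs j := by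
  obtain ⟨j, rfl⟩ : ∃ j', j = j' + 1 := ⟨j - 1, by omega⟩
  rw [gs_succ]
  have := gs_mono (show i ≤ j by omega)
  omega

/-- The fullness conditions. -/
def FC (col : (Fin r → M) → T) (f : ℕ → M) (j : ℕ) : Set (ℕ → M) :=
  {v | ∃ e : Fin j → ℕ, (∀ i, e i < gs j) ∧ tp col (v ∘ e) = tp col (fun i : Fin j => f i)}

/-- The decision conditions. -/
def YC (col : (Fin r → M) → T) (c n : ℕ) {k : ℕ} (I I' : Fin k → ℕ) : Set (ℕ → M) :=
  {v | TEq col (v '' {i | i < n ∧ ∀ j < c, v j ≠ v i}) (v ∘ I) (v ∘ I')}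

theorem isCond_FC (f : ℕ → M) (j : ℕ) : IsCond col (FC col f j) := by
  refine ⟨∅, {i | i < gs j}, finite_empty, finite_lt_nat _, ?_⟩
  rintro v v' h ⟨e, he, het⟩
  refine ⟨e, he, ?_⟩
  rw [← het]
  exact (teq_empty_iff.1 (h.comp (fun i : Fin j => (⟨e i, he i⟩ : {i | i < gs j})))).symm

theorem isCond_YC (hD : Dom col) (c n : ℕ) {k : ℕ} (I I' : Fin k → ℕ) (hI : ∀ i, I i < c)
    (hI' : ∀ i, I' i < c) : IsCond col (YC col c n I I') := by
  refine ⟨∅, {i | i < n + c}, finite_empty, finite_lt_nat _, ?_⟩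
  intro v v' h hv
  have htp := teq_empty_iff.1 h
  have heq : ∀ i j, i < n + c → j < n + c → (v i = v j ↔ v' i = v' j) := fun i j hi hj =>
    hD.tp_eq_iff htp ⟨i, hi⟩ ⟨j, hj⟩
  have hset : {i | i < n ∧ ∀ j < c, v' j ≠ v' i} = {i | i < n ∧ ∀ j < c, v j ≠ v i} := by
    ext i
    constructor
    · rintro ⟨h1, h2⟩
      exact ⟨h1, fun j hj he => h2 j hj ((heq j i (by omega) (by omega)).1 he)⟩
    · rintro ⟨h1, h2⟩
      exact ⟨h1, fun j hj he => h2 j hj ((heq j i (by omega) (by omega)).2 he)⟩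
  unfold YC at hv ⊢
  rw [mem_setOf_eq] at hv ⊢
  rw [hset]
  set S : Set ℕ := {i | i < n ∧ ∀ j < c, v j ≠ v i} with hS
  have hSn : ∀ i : S, (i : ℕ) < n + c := fun i => by have := i.2.1; omega
  have key : ∀ w : ℕ → M, w '' S = range (fun i : S => w i) := fun w => image_eq_range w S
  rw [key, teq_range_iff] at hv ⊢
  have hre : ∀ (w : ℕ → M) (J : Fin k → ℕ) (hJ : ∀ i, J i < c),
      Sum.elim (fun i : S => w i) (w ∘ J) = (fun i : {i | i < n + c} => w i) ∘
        (Sum.elim (fun i : S => ⟨i, hSn i⟩) (fun i => ⟨J i, by have := hJ i; simp; omega⟩)) := by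
    intro w J hJ
    funext q
    rcases q with q | q <;> rfl
  rw [hre v I hI, hre v I' hI'] at hv
  rw [hre v' I hI, hre v' I' hI']
  have hcomp : ∀ (κ : Type) (g : κ → {i | i < n + c}),
      tp col ((fun i : {i | i < n + c} => v i) ∘ g) =
        tp col ((fun i : {i | i < n + c} => v' i) ∘ g) := fun κ g =>
    teq_empty_iff.1 (h.comp g)
  rw [← hcomp, ← hcomp]
  exact hv

/-- Recursion for greedy sets. -/
theorem exists_greedy (P : ℕ → Set ℕ → Prop) :
    ∃ A : Set ℕ, ∀ s, s ∈ A ↔ P s {s' | s' < s ∧ s' ∈ A} := by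
  let acc : ℕ → Prop := WellFounded.fix (C := fun _ => Prop) Nat.lt_wfRel.wf
    (fun s ih => P s {s' | ∃ h : s' < s, ih s' h})
  refine ⟨{s | acc s}, fun s => ?_⟩
  rw [mem_setOf_eq]
  have : acc s = P s {s' | ∃ h : s' < s, acc s'} := by
    simp only [acc]
    rw [WellFounded.fix_eq]
  rw [this]
  simp only [exists_prop, mem_setOf_eq]

theorem exists_decided (hD : Dom col) : ∃ v : ℕ → M, Full col (range v) ∧
    ∀ (ι : Type) [Finite ι] (x x' : ι → M), (∀ i, x i ∈ range v) → (∀ i, x' i ∈ range v) →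
      Sim col ∅ (range v) x x' → Gm col ∅ (range v) x x' := by
  classical
  obtain ⟨f, hf⟩ := exists_full hD
  obtain ⟨π, hπ⟩ := exists_surjective_nat (Σ k : ℕ, (Fin k → ℕ) × (Fin k → ℕ))
  let bd : ℕ → ℕ := fun s => ∑ i, ((π s).2.1 i + (π s).2.2 i)
  let b : ℕ → ℕ := fun s => ∑ s' ∈ Finset.range (s + 1), (bd s' + 1)
  let c : ℕ → ℕ := fun s => gs (b s)
  have hb_mono : ∀ {s s' : ℕ}, s ≤ s' → b s ≤ b s' := fun h =>
    Finset.sum_le_sum_of_subset (Finset.range_mono (by omega))
  have hc_mono : ∀ {s s' : ℕ}, s ≤ s' → c s ≤ c s' := fun h => gs_mono (hb_mono h)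
  have hb_gt : ∀ s, bd s < b s := by
    intro s
    have : bd s + 1 ≤ b s :=
      Finset.single_le_sum (f := fun s' => bd s' + 1) (fun _ _ => Nat.zero_le _)
        (Finset.mem_range.2 (Nat.lt_succ_self s))
    omega
  have hc_gt : ∀ s, bd s < c s := fun s => (hb_gt s).trans_le (le_gs _)
  have hbdI : ∀ s i, (π s).2.1 i + (π s).2.2 i ≤ bd s := fun s i =>
    Finset.single_le_sum (f := fun i => (π s).2.1 i + (π s).2.2 i) (fun _ _ => Nat.zero_le _)
      (Finset.mem_univ i)
  have hcI : ∀ s i, (π s).2.1 i < c s := fun s i => by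
    have := hbdI s i; have := hc_gt s; omega
  have hcI' : ∀ s i, (π s).2.2 i < c s := fun s i => by
    have := hbdI s i; have := hc_gt s; omega
  let Y : ℕ → ℕ → Set (ℕ → M) := fun s n => YC col (c s) n (π s).2.1 (π s).2.2
  obtain ⟨A, hA⟩ := exists_greedy (fun s B => ∃ v : ℕ → M, (∀ j, v ∈ FC col f j) ∧
    (∀ s' ∈ B, ∀ n, v ∈ Y s' n) ∧ ∀ n, v ∈ Y s n)
  have hYc : ∀ s n, IsCond col (Y s n) := fun s n => isCond_YC hD _ _ _ _ (hcI s) (hcI' s)
  -- finite satisfiability of the accepted conditions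
  have hfin : ∀ m : ℕ, ∃ v : ℕ → M, (∀ j, v ∈ FC col f j) ∧
      ∀ s ∈ A, s < m → ∀ n, v ∈ Y s n := by
    intro m
    induction m with
    | zero => exact ⟨f, fun j => ⟨fun i => i, fun i => i.2.trans_le (le_gs j), rfl⟩,
        fun s _ h => absurd h (Nat.not_lt_zero _)⟩
    | succ m ih =>
      by_cases hm : m ∈ A
      · obtain ⟨v, h1, h2, h3⟩ := (hA m).1 hm
        refine ⟨v, h1, fun s hs hsm n => ?_⟩
        rcases Nat.lt_succ_iff_lt_or_eq.1 hsm with h | h
        · exact h2 s ⟨h, hs⟩ n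
        · subst h; exact h3 n
      · obtain ⟨v, h1, h2⟩ := ih
        refine ⟨v, h1, fun s hs hsm n => ?_⟩
        rcases Nat.lt_succ_iff_lt_or_eq.1 hsm with h | h
        · exact h2 s hs h n
        · subst h; exact absurd hs hm
  obtain ⟨v, hvF, hvY⟩ : ∃ v : ℕ → M, (∀ j, v ∈ FC col f j) ∧
      ∀ s ∈ A, ∀ n, v ∈ Y s n := by
    obtain ⟨v, hv⟩ := hD.sat ℕ (ℕ ⊕ (A × ℕ))
      (Sum.elim (FC col f) (fun q => Y q.1 q.2)) (by
        rintro (j | q)
        · exact isCond_FC f j
        · exact hYc _ _) (by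
        intro Fs
        obtain ⟨v, h1, h2⟩ := hfin (Fs.sup (Sum.elim (fun _ => 0) (fun q : A × ℕ => (q.1 : ℕ) + 1)))
        refine ⟨v, ?_⟩
        rintro (j | q) hj
        · exact h1 j
        · apply h2 _ q.1.2
          have := Finset.le_sup (f := (Sum.elim (fun _ => 0)
            (fun q : A × ℕ => (q.1 : ℕ) + 1) : ℕ ⊕ (A × ℕ) → ℕ)) hj
          simp only [Sum.elim_inr] at this
          omega)
    exact ⟨v, fun j => hv (Sum.inl j), fun s hs n => hv (Sum.inr (⟨s, hs⟩, n))⟩
  refine ⟨v, ?_, ?_⟩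
  · -- fullness
    intro n t
    obtain ⟨e, he, het⟩ := hf n t
    choose i hi using he
    obtain ⟨J, hJ⟩ : ∃ J, ∀ l, i l < J := by
      obtain ⟨J, hJ⟩ := (finite_range i).bddAbove
      exact ⟨J + 1, fun l => Nat.lt_succ_of_le (hJ (mem_range_self l))⟩
    obtain ⟨e', -, he'⟩ := hvF J
    refine ⟨fun l => v (e' ⟨i l, hJ l⟩), fun l => mem_range_self _, ?_⟩
    have h1 := (teq_empty_iff.2 he').comp (fun l : Fin n => (⟨i l, hJ l⟩ : Fin J))
    have h2 := teq_empty_iff.1 h1
    have h3 : (fun i : Fin J => f i) ∘ (fun l : Fin n => (⟨i l, hJ l⟩ : Fin J)) = e := by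
      funext l
      exact hi l
    rw [h3] at h2
    exact h2.trans het
  · intro ι _ x x' hx hx' hsim
    obtain ⟨k, ⟨ek⟩⟩ := Finite.exists_equiv_fin ι
    choose I₀ hI₀ using hx
    choose I₀' hI₀' using hx'
    obtain ⟨s, hs⟩ := hπ ⟨k, I₀ ∘ ek.symm, I₀' ∘ ek.symm⟩
    -- all in terms of `s`
    obtain ⟨e, hex, hex'⟩ : ∃ e : ι ≃ Fin (π s).1,
        (∀ i, x i = v ((π s).2.1 (e i))) ∧ (∀ i, x' i = v ((π s).2.2 (e i))) := by
      rw [hs]
      exact ⟨ek, fun i => by simp [hI₀], fun i => by simp [hI₀']⟩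
    have hxe : x = (v ∘ (π s).2.1) ∘ e := funext hex
    have hxe' : x' = (v ∘ (π s).2.2) ∘ e := funext hex'
    have hsA : s ∈ A := by
      rw [hA s]
      -- approximate realisations
      have happ : ∀ J : ℕ, ∃ w : ℕ → M, (∀ j ≤ J, w ∈ FC col f j) ∧
          (∀ s' ∈ {s' | s' < s ∧ s' ∈ A}, ∀ n, w ∈ Y s' n) ∧ ∀ n, w ∈ Y s n := by
        intro J
        obtain ⟨a, ha, hat, hax⟩ := hsim J (fun i => f i)
        rw [empty_union] at hax
        let w : ℕ → M := fun i => if i < c s then v i else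
          if h : i - c s < J then a ⟨i - c s, h⟩ else v 0
        have hw1 : ∀ i, i < c s → w i = v i := fun i hi => by simp [w, hi]
        have hw2 : ∀ i, c s ≤ i → w i ∈ range a ∨ w i = v 0 := by
          intro i hi
          have : ¬ i < c s := by omega
          by_cases h : i - c s < J
          · left
            simp only [w, this, h, if_false, dite_true]
            exact mem_range_self _
          · right
            simp only [w, this, h, if_false, dite_false]
        have hw3 : ∀ i (h : i < J), w (c s + i) = a ⟨i, h⟩ := by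
          intro i h
          have h1 : ¬ c s + i < c s := by omega
          have h2 : c s + i - c s < J := by omega
          simp only [w, h1, if_false, h2, dite_true]
          congr 1
          ext
          simp
        have hwr : ∀ i, w i ∈ range v := by
          intro i
          by_cases h : i < c s
          · rw [hw1 i h]; exact mem_range_self _
          · rcases hw2 i (by omega) with h' | h'
            · obtain ⟨q, hq⟩ := h'
              rw [← hq]; exact ha q
            · rw [h']; exact mem_range_self _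
        have h0 : 0 < c s := lt_of_le_of_lt (Nat.zero_le _) (hc_gt s)
        refine ⟨w, ?_, ?_, ?_⟩
        · intro j hj
          by_cases hjb : j ≤ b s
          · obtain ⟨e₁, he₁, he₁t⟩ := hvF j
            refine ⟨e₁, he₁, ?_⟩
            rw [← he₁t]
            congr 1
            funext i
            exact hw1 _ ((he₁ i).trans_le (gs_mono hjb))
          · refine ⟨fun i => c s + i, fun i => ?_, ?_⟩
            · have := gs_gap (show b s < j by omega)
              have := i.2
              simp only [c]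
              omega
            · have h1 := teq_empty_iff.1 ((teq_empty_iff.2 hat).comp
                (fun i : Fin j => (⟨i, i.2.trans_le hj⟩ : Fin J)))
              refine Eq.trans ?_ h1
              congr 1
              funext i
              exact hw3 i (i.2.trans_le hj)
        · rintro s' ⟨hs', hsA'⟩ n
          have hcc : c s' ≤ c s := hc_mono hs'.le
          have e1 : w ∘ (π s').2.1 = v ∘ (π s').2.1 := by
            funext i
            exact hw1 _ ((hcI s' i).trans_le hcc)
          have e2 : w ∘ (π s').2.2 = v ∘ (π s').2.2 := by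
            funext i
            exact hw1 _ ((hcI' s' i).trans_le hcc)
          change TEq col _ (w ∘ (π s').2.1) (w ∘ (π s').2.2)
          rw [e1, e2]
          apply teq_of_finite
          intro B hB hBf
          -- indices in `v`
          have : ∀ q : B, ∃ l, v l = q ∧ ∀ j < c s', v j ≠ v l := by
            rintro ⟨q, hq⟩
            obtain ⟨i, ⟨hi1, hi2⟩, rfl⟩ := hB hq
            obtain ⟨l, hl⟩ := hwr i
            refine ⟨l, hl, fun j hj => ?_⟩
            rw [hl, ← hw1 j (hj.trans_le hcc)]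
            exact hi2 j hj
          choose L hL1 hL2 using this
          have := hBf.to_subtype
          obtain ⟨n', hn'⟩ := (finite_range L).bddAbove
          apply TEq.mono _ (hvY s' hsA' (n' + 1))
          intro q hq
          exact ⟨L ⟨q, hq⟩, ⟨Nat.lt_succ_of_le (hn' (mem_range_self _)), hL2 _⟩, hL1 _⟩
        · intro n
          have e1 : w ∘ (π s).2.1 = v ∘ (π s).2.1 := by
            funext i
            exact hw1 _ (hcI s i)
          have e2 : w ∘ (π s).2.2 = v ∘ (π s).2.2 := by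
            funext i
            exact hw1 _ (hcI' s i)
          change TEq col _ (w ∘ (π s).2.1) (w ∘ (π s).2.2)
          rw [e1, e2]
          have h1 := hax.comp e.symm
          rw [hxe, hxe'] at h1
          have h2 : ((v ∘ (π s).2.1) ∘ e) ∘ e.symm = v ∘ (π s).2.1 := by
            funext i; simp
          have h3 : ((v ∘ (π s).2.2) ∘ e) ∘ e.symm = v ∘ (π s).2.2 := by
            funext i; simp
          rw [h2, h3] at h1
          apply h1.mono
          rintro _ ⟨i, ⟨-, hi⟩, rfl⟩
          by_cases h : i < c s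
          · exact absurd rfl (hi i h)
          · rcases hw2 i (by omega) with h' | h'
            · exact h'
            · exact absurd ((hw1 0 h0).trans h'.symm) (hi 0 h0)
      obtain ⟨w, hw⟩ := hD.sat ℕ (ℕ ⊕ ((insert s {s' | s' < s ∧ s' ∈ A} : Set ℕ) × ℕ))
        (Sum.elim (FC col f) (fun q => Y q.1 q.2)) (by
          rintro (j | q)
          · exact isCond_FC f j
          · exact hYc _ _) (by
          intro Fs
          obtain ⟨w, h1, h2, h3⟩ := happ (Fs.sup (Sum.elim (fun j => j) (fun _ => 0)))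
          refine ⟨w, ?_⟩
          rintro (j | ⟨⟨s', hs'⟩, n⟩) hj
          · apply h1
            exact Finset.le_sup (f := (Sum.elim (fun j => j) (fun _ => 0) :
              ℕ ⊕ ((insert s {s' | s' < s ∧ s' ∈ A} : Set ℕ) × ℕ) → ℕ)) hj
          · rcases hs' with h | h
            · subst h; exact h3 n
            · exact h2 s' h n)
      exact ⟨w, fun j => hw (Sum.inl j),
        fun s' hs' n => hw (Sum.inr (⟨s', Or.inr hs'⟩, n)),
        fun n => hw (Sum.inr (⟨s, Or.inl rfl⟩, n))⟩
    refine ⟨v '' {j | j < c s}, (finite_lt_nat _).image v, ?_⟩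
    rw [hxe, hxe']
    apply TEq.comp
    apply teq_of_finite
    intro B hB hBf
    have : ∀ q : B, ∃ l, v l = q ∧ ∀ j < c s, v j ≠ v l := by
      rintro ⟨q, hq⟩
      rcases hB hq with h | ⟨⟨l, hl⟩, h2⟩
      · exact absurd h (notMem_empty q)
      · exact ⟨l, hl, fun j hj he => h2 ⟨j, hj, he.trans hl⟩⟩
    choose L hL1 hL2 using this
    have := hBf.to_subtype
    obtain ⟨n', hn'⟩ := (finite_range L).bddAbove
    apply TEq.mono _ (hvY s hsA (n' + 1))
    intro q hq
    exact ⟨L ⟨q, hq⟩, ⟨Nat.lt_succ_of_le (hn' (mem_range_self _)), hL2 _⟩, hL1 _⟩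

end Pool.Agent.Sib
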