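import Mathlib

/-!
# Siblings with a given age: the combinatorial framework

A structure in a finite relational language is coded by a map `col : (Fin r → M) → T` with `T`
finite: the colour of an `r`-tuple is its quantifier-free type (including equalities).
-/

namespace Pool.Agent.Sib

open Set

variable {r : ℕ} {M T : Type}

/-- The type of a tuple `u`: the colours of all `r`-tuples of its entries. -/
def tp (col : (Fin r → M) → T) {ι : Type} (u : ι → M) : (Fin r → ι) → T :=
  fun f => col (u ∘ f)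

/-- `x` and `x'` have the same type over the set `B`. -/
def TEq (col : (Fin r → M) → T) (B : Set M) {ι : Type} (x x' : ι → M) : Prop :=
  ∀ f : Fin r → M ⊕ ι, (∀ i b, f i = Sum.inl b → b ∈ B) →
    col (Sum.elim id x ∘ f) = col (Sum.elim id x' ∘ f)

/-- The restriction of `h` to `S` preserves types. -/
def PE (col : (Fin r → M) → T) (S : Set M) (h : M → M) : Prop :=
  ∀ u : Fin r → M, (∀ i, u i ∈ S) → col (h ∘ u) = col u

/-- `h` restricts to an embedding of `S` into `S'`. -/
def Emb (col : (Fin r → M) → T) (S S' : Set M) (h : M → M) : Prop :=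
  (∀ b ∈ S, h b ∈ S') ∧ PE col S h

/-- Every finite tuple has a copy in `N`. -/
def Full (col : (Fin r → M) → T) (N : Set M) : Prop :=
  ∀ (n : ℕ) (t : Fin n → M), ∃ e : Fin n → M, (∀ i, e i ∈ N) ∧ tp col e = tp col t

/-- A condition on `V`-tuples depending only on the type of finitely many of the entries over
finitely many parameters. -/
def IsCond (col : (Fin r → M) → T) {V : Type} (S : Set (V → M)) : Prop :=
  ∃ (A : Set M) (I : Set V), A.Finite ∧ I.Finite ∧
    ∀ v v' : V → M, TEq col A (fun i : I => v i) (fun i : I => v' i) → v ∈ S → v' ∈ S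

/-- Countable saturation. -/
def Sat (col : (Fin r → M) → T) : Prop :=
  ∀ (V J : Type) [Countable V] [Countable J] (S : J → Set (V → M)), (∀ j, IsCond col (S j)) →
    (∀ F : Finset J, ∃ v, ∀ j ∈ F, v ∈ S j) → ∃ v, ∀ j, v ∈ S j

/-- The standing assumptions on the universal domain `M`. -/
structure Dom (col : (Fin r → M) → T) : Prop where
  two_le : 2 ≤ r
  fin : Finite T
  ne : Nonempty M
  eq_of_col : ∀ u v : Fin r → M, col u = col v → ∀ i j, u i = u j → v i = v j
  sat : Sat col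

/-- Germ equivalence over `B` inside `N`: same type over `B` and almost all of `N`. -/
def Gm (col : (Fin r → M) → T) (B N : Set M) {ι : Type} (x x' : ι → M) : Prop :=
  ∃ G : Set M, G.Finite ∧ TEq col (B ∪ (N \ G)) x x'

/-- Similarity over `B` inside `N`: same type over `B` and some copy in `N` of each tuple. -/
def Sim (col : (Fin r → M) → T) (B N : Set M) {ι : Type} (x x' : ι → M) : Prop :=
  ∀ (n : ℕ) (t : Fin n → M), ∃ e : Fin n → M, (∀ i, e i ∈ N) ∧ tp col e = tp col t ∧
    TEq col (B ∪ range e) x x'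

/-- Unboundedly many pairwise germ-inequivalent `κ`-tuples over `a` parameters (finitary form). -/
def Unb (col : (Fin r → M) → T) (a : ℕ) (κ : Type) : Prop :=
  ∀ m L : ℕ, ∃ (p : Fin a → M) (x : Fin m → κ → M) (d : Fin m → Fin m → Fin L → Fin r → M),
    ∀ i j, i ≠ j → (∀ ν, ¬ TEq col (range p ∪ range (d i j ν)) (x i) (x j)) ∧
      ∀ ν ν', ν ≠ ν' → ∀ s s', d i j ν s ≠ d i j ν' s'

/-- `N` has `m` pairwise similar, pairwise not germ-equivalent `κ`-tuples over `a` parameters. -/
def Rich (col : (Fin r → M) → T) (a : ℕ) (κ : Type) (m : ℕ) (N : Set M) : Prop :=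
  ∃ (p : Fin a → M) (x : Fin m → κ → M), (∀ i, p i ∈ N) ∧ (∀ i l, x i l ∈ N) ∧
    ∀ i j, i ≠ j → Sim col (range p) N (x i) (x j) ∧ ¬ Gm col (range p) N (x i) (x j)

/-- There is an invariant, monotone under embeddings, with unbounded finite values. -/
def HasInv (col : (Fin r → M) → T) : Prop :=
  ∃ Inv : ℕ → Set M → Prop,
    (∀ t N N' h, Emb col N N' h → Inv t N → Inv t N') ∧
    (∀ t t' N, t ≤ t' → Inv t' N → Inv t N) ∧
    ∀ m, ∃ N : Set M, N.Countable ∧ Full col N ∧ Inv m N ∧ ∃ t, ¬ Inv t N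

/-- There are finitely many classes of full countable subsets under bi-embeddability. -/
def FinClasses (col : (Fin r → M) → T) : Prop :=
  ∃ (n : ℕ) (R : Fin n → Set M), (∀ i, (R i).Countable ∧ Full col (R i)) ∧
    ∀ N : Set M, N.Countable → Full col N →
      ∃ i, (∃ h, Emb col N (R i) h) ∧ ∃ h, Emb col (R i) N h

/-- `N` is cellular. -/
def CellSet (col : (Fin r → M) → T) (N : Set M) : Prop :=
  ∃ (K : Set M) (n : ℕ) (k : Fin n → ℕ) (c : (Σ i : Fin n, ℕ × Fin (k i)) → M),
    K.Finite ∧ Function.Injective c ∧ Disjoint K (range c) ∧ N = K ∪ range c ∧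
    ∀ (σ : Fin n → Equiv.Perm ℕ) (g : M → M), (∀ b ∈ K, g b = b) →
      (∀ i j l, g (c ⟨i, j, l⟩) = c ⟨i, σ i j, l⟩) → PE col N g

/-! ### The unbounded case -/

/-- The set generated by a configuration over the sequence `v`. -/
def ConfN (v : ℕ → M) {a k m : ℕ} (p : Fin a → M) (x : Fin m → Fin k → M)
    (d : ℕ → (Fin m × Fin m × Fin r) → M) : Set M :=
  range v ∪ range p ∪ (⋃ i, range (x i)) ∪ ⋃ ν, range (d ν)

/-- The configurations of the unbounded case: the `x i` have the same type over `range v` and `p`,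
any two of them are distinguished over `p` by the pairwise disjoint `r`-tuples `d ν (i, j, ·)`,
everything is finitely realised in `range v`, and the `d ν` are order indiscernible over the
rest. -/
structure Conf (col : (Fin r → M) → T) (v : ℕ → M) (a k m : ℕ) (p : Fin a → M)
    (x : Fin m → Fin k → M) (d : ℕ → (Fin m × Fin m × Fin r) → M) : Prop where
  same : ∀ i j, TEq col (range v ∪ range p) (x i) (x j)
  diff : ∀ i j ν, i ≠ j → ¬ TEq col (range p ∪ range (fun s => d ν (i, j, s))) (x i) (x j)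
  disj : ∀ i j, i ≠ j → ∀ ν ν', ν ≠ ν' → ∀ s s', d ν (i, j, s) ≠ d ν' (i, j, s')
  coheir : ∀ (n : ℕ) (y : Fin n → M), (∀ i, y i ∈ ConfN v p x d) → ∀ A : Set M, A.Finite →
    A ⊆ range v → ∃ y' : Fin n → M, (∀ i, y' i ∈ range v) ∧ TEq col A y y'
  indisc : ∀ (ι : Type) [Finite ι] (h h' : ι → ℕ), (∀ i j, h i < h j ↔ h' i < h' j) →
    TEq col (range v ∪ range p ∪ ⋃ i, range (x i))
      (fun s : ι × (Fin m × Fin m × Fin r) => d (h s.1) s.2) (fun s => d (h' s.1) s.2)

/-! ### The bounded case -/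

/-- `x` is free over `B` in `N`: it has copies over `B` in `N` avoiding every finite set. -/
def Free (col : (Fin r → M) → T) (N B : Set M) {ι : Type} (x : ι → M) : Prop :=
  ∀ G : Set M, G.Finite → ∃ x' : ι → M, (∀ i, x' i ∈ N ∧ x' i ∉ G) ∧ TEq col B x x'

/-- The set `z`, as a tuple, is free over `B` in `N`. -/
def FreeS (col : (Fin r → M) → T) (N B z : Set M) : Prop :=
  Free col N B (fun i : z => (i : M))

/-- There are at least `n` free types of `r`-tuples over `B` in `N`. -/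
def Big (col : (Fin r → M) → T) (N B : Set M) (n : ℕ) : Prop :=
  ∃ x : Fin n → Fin r → M, (∀ i, Free col N B (x i)) ∧ ∀ i j, i ≠ j → ¬ TEq col B (x i) (x j)

/-- The germ class of `x` over `B` avoids every finite set. -/
def Typ (col : (Fin r → M) → T) (B : Set M) {ι : Type} (x : ι → M) : Prop :=
  ∀ G : Set M, G.Finite → ∃ x' : ι → M, (∀ i, x' i ∉ G) ∧ Gm col B univ x x'

/-- The context of the bounded case: `Q` has the maximal number `ν` of free types, and `H B` is a
finite set hitting all the atypical `r`-tuples over the finite set `B`. -/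
structure Ctx (col : (Fin r → M) → T) (Q : Set M) (ν : ℕ) (H : Set M → Set M) : Prop where
  dom : Dom col
  unb : ∀ a k, ¬ Unb col a (Fin k)
  Qfin : Q.Finite
  big : Big col univ Q ν
  max : ∀ N B : Set M, B.Finite → ¬ Big col N B (ν + 1)
  Hfin : ∀ B, B.Finite → (H B).Finite
  Hsub : ∀ B, B ⊆ H B
  Htyp : ∀ B, B.Finite → ∀ x : Fin r → M, (∀ i, x i ∉ H B) → Typ col B x

/-- `e` is tight: a small nonempty subset of `Mm`, no proper part of which is free over the rest
(and `Q`). -/
def Tight (col : (Fin r → M) → T) (Q Mm e : Set M) : Prop :=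
  e.Nonempty ∧ e.encard ≤ r ∧ e ⊆ Mm ∧
    ∀ e₁ ⊆ e, e₁.Nonempty → e₁ ≠ e → ¬ FreeS col univ (Q ∪ (e \ e₁)) e₁

/-- `b` is reached from `a` by a chain of `n` tight sets. -/
def Rch (col : (Fin r → M) → T) (Q Mm : Set M) : ℕ → M → M → Prop
  | 0, a, b => a = b
  | n + 1, a, b => ∃ c, Rch col Q Mm n a c ∧ ∃ e, Tight col Q Mm e ∧ c ∈ e ∧ b ∈ e

/-- The distances are bounded. -/
def BddRch (col : (Fin r → M) → T) (Q Mm : Set M) : Prop :=
  ∃ n, ∀ a ∈ Mm, ∀ b, Rch col Q Mm (n + 1) a b → Rch col Q Mm n a b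

/-- Elements of `N` lying in all the copies in `N` of some finite tuple. -/
def Ker (col : (Fin r → M) → T) (N : Set M) : Set M :=
  {b | b ∈ N ∧ ∃ (n : ℕ) (t : Fin n → M), ∀ e : Fin n → M, (∀ i, e i ∈ N) →
    tp col e = tp col t → ∃ i, e i = b}

/-- The invariant of the bounded case. -/
def Kap (col : (Fin r → M) → T) (ν t : ℕ) (N : Set M) : Prop :=
  ∃ (Q' : Set M) (X : Fin t → Set M), Q'.Finite ∧ Q' ⊆ N ∧ Big col N Q' ν ∧
    (∀ i, (X i).Infinite) ∧ (∀ i, X i ⊆ N) ∧ (∀ i, Disjoint (X i) (Ker col N ∪ Q')) ∧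
    (∀ i j, i ≠ j → Disjoint (X i) (X j)) ∧
    (∀ i z, z ⊆ X i → z.Finite → FreeS col N Q' z) ∧
    (∀ i z, z ⊆ X i → z.Finite → z.Nonempty →
      ∃ y, y ⊆ X i \ z ∧ y.Finite ∧ ¬ FreeS col N (Q' ∪ y) z)

/-- A system of finite blocks `E l` over `K ∪ Q`. -/
structure BaseSys (col : (Fin r → M) → T) (Q : Set M) (H : Set M → Set M) (K : Set M)
    (E : ℕ → Set M) : Prop where
  fin : ∀ l, (E l).Finite
  far : ∀ l B, B.Finite → B ⊆ K ∪ Q ∪ (⋃ l' < l, E l') → Disjoint (E l) (H B)
  free : ∀ l B, B.Finite → B ⊆ K ∪ Q ∪ (⋃ l' < l, E l') →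
    FreeS col univ B (E l)
  copy : ∀ (n : ℕ) (t : Fin n → M), ∃ (l : ℕ) (e : Fin n → M), tp col e = tp col t ∧
    ∀ i, e i ∈ K ∪ E l
  rich : ∀ (n : ℕ) (x : Fin n → M), Free col univ Q x → ∀ l₀, ∃ l ≥ l₀, ∃ x' : Fin n → M,
    TEq col Q x x' ∧ ∀ i, x' i ∈ E l

/-- The union of all the strips. -/
def Strips (m : ℕ) (e : Fin m → ℕ → Set M) : Set M := ⋃ s, ⋃ j, e s j

/-- A system of `m` infinite strips. -/
structure StripSys (col : (Fin r → M) → T) (Q Mm : Set M) (m : ℕ) (e : Fin m → ℕ → Set M) :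
    Prop where
  tight : ∀ s j, Tight col Q Mm (e s j)
  inter : ∀ s j, (e s j ∩ e s (j + 1)).Nonempty
  sep : ∀ s s' i j, (s ≠ s' ∨ i + 3 ≤ j) → ∀ e', Tight col Q Mm e' → e' ⊆ Strips m e →
    (e' ∩ e s i).Nonempty → (e' ∩ e s' j).Nonempty → False

/-- The system from which the set with invariant exactly about `m` is built. -/
structure Sys (col : (Fin r → M) → T) (Q : Set M) (H : Set M → Set M) (K : Set M)
    (E : ℕ → Set M) (m : ℕ) (e : Fin m → ℕ → Set M) : Prop where
  base : BaseSys col Q H K E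
  strip : StripSys col Q (H Q)ᶜ m e
  far : ∀ B, B.Finite → B ⊆ K ∪ Q ∪ (⋃ l, E l) → Disjoint (Strips m e) (H B)
  free : ∀ z, z.Finite → z ⊆ Strips m e → FreeS col univ Q z

/-- The set built from a system. -/
def SysN (Q K : Set M) (E : ℕ → Set M) (m : ℕ) (e : Fin m → ℕ → Set M) : Set M :=
  K ∪ Q ∪ (⋃ l, E l) ∪ Strips m e

end Pool.Agent.Sib
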