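import Pool.Agent.Sib.Basic2

/-! # Module KER -/

namespace Pool.Agent.Sib

open Set

variable {r : ℕ} {M T : Type} {col : (Fin r → M) → T}

/-- Copies of tuples with a finite index type. -/
theorem Full.copy {N : Set M} (hN : Full col N) {ι : Type} [Finite ι] (t : ι → M) :
    ∃ e : ι → M, (∀ i, e i ∈ N) ∧ tp col e = tp col t := by
  obtain ⟨n, ⟨φ⟩⟩ := Finite.exists_equiv_fin ι
  obtain ⟨e, h1, h2⟩ := hN n (t ∘ φ.symm)
  refine ⟨e ∘ φ, fun i => h1 _, ?_⟩
  funext f
  have := congrFun h2 (φ ∘ f)
  unfold tp at this ⊢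
  rw [Function.comp_assoc, this]
  congr 1
  funext i
  simp

theorem tp_comp_eq {ι κ : Type} {e t : ι → M} (h : tp col e = tp col t) (g : κ → ι) :
    tp col (e ∘ g) = tp col (t ∘ g) := by
  funext f
  exact congrFun h (g ∘ f)

theorem ker_remove (hD : Dom col) {N G : Set M} (hN : Full col N) (hG : G.Finite)
    (hGK : Disjoint G (Ker col N)) : Full col (N \ G) := by
  classical
  induction G, hG using Set.Finite.induction_on with
  | empty => simpa using hN
  | @insert x G₀ hx hG₀ ih =>
    have hF : Full col (N \ G₀) := ih (hGK.mono_left (subset_insert _ _))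
    have hxK : x ∉ Ker col N := fun h => hGK.le_bot ⟨mem_insert _ _, h⟩
    intro n t
    by_contra hcon
    push Not at hcon
    -- every copy of `t` in `N \ G₀` contains `x`
    have hhit : ∀ e : Fin n → M, (∀ i, e i ∈ N \ G₀) → tp col e = tp col t → ∃ i, e i = x := by
      intro e he1 he2
      by_contra hne
      push Not at hne
      refine hcon e (fun i => ⟨(he1 i).1, ?_⟩) he2
      intro hi
      rcases mem_insert_iff.1 hi with h | h
      · exact hne i h
      · exact (he1 i).2 h
    -- the intersection of the ranges of all copies in `N`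
    let W : Set M := {b | ∀ e : Fin n → M, (∀ i, e i ∈ N) → tp col e = tp col t → ∃ i, e i = b}
    have hxW : x ∉ W := by
      intro hxW
      obtain ⟨e, he1, he2⟩ := hF n t
      obtain ⟨i, hi⟩ := hhit e he1 he2
      exact hxK ⟨hi ▸ (he1 i).1, n, t, hxW⟩
    obtain ⟨e₀, he₀1, he₀2⟩ := hN n t
    have hWfin : W.Finite := (finite_range e₀).subset (fun b hb => hb e₀ he₀1 he₀2)
    have hch : ∀ l : Fin n, ∃ e : Fin n → M, (∀ i, e i ∈ N) ∧ tp col e = tp col t ∧
        (e₀ l ∉ W → ∀ i, e i ≠ e₀ l) := by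
      intro l
      by_cases hl : e₀ l ∈ W
      · exact ⟨e₀, he₀1, he₀2, fun h => absurd hl h⟩
      · have hl' := hl
        simp only [W, mem_ofPred_eq] at hl'
        push Not at hl'
        obtain ⟨e, h1, h2, h3⟩ := hl'
        exact ⟨e, h1, h2, fun _ => h3⟩
    choose E hE1 hE2 hE3 using hch
    -- the big tuple and its copy in `N \ G₀`
    let u : Option (Fin n) × Fin n → M := fun s =>
      match s.1 with
      | none => e₀ s.2
      | some l => E l s.2
    obtain ⟨e', he'1, he'2⟩ := hF.copy u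
    have hcopy : ∀ o : Option (Fin n), tp col (fun i => e' (o, i)) = tp col t := by
      intro o
      have := tp_comp_eq he'2 (fun i : Fin n => (o, i))
      have h2 : tp col (u ∘ fun i : Fin n => (o, i)) = tp col t := by
        rcases o with _ | l
        · exact he₀2
        · exact hE2 l
      exact this.trans h2
    have hx' : ∀ o, ∃ i, e' (o, i) = x := fun o => hhit _ (fun i => he'1 _) (hcopy o)
    have hW' : ∀ b ∈ W, ∀ o, ∃ i, e' (o, i) = b := fun b hb o =>
      hb _ (fun i => (he'1 _).1) (hcopy o)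
    have hall : ∀ b ∈ insert x W, ∀ o, ∃ i, e' (o, i) = b := by
      intro b hb o
      rcases mem_insert_iff.1 hb with rfl | hb
      · exact hx' o
      · exact hW' b hb o
    have hmap : ∀ b ∈ insert x W, ∃ l, e' (none, l) = b ∧ e₀ l ∈ W := by
      intro b hb
      obtain ⟨l, hl⟩ := hall b hb none
      refine ⟨l, hl, ?_⟩
      by_contra hlW
      obtain ⟨i, hi⟩ := hall b hb (some l)
      have h1 : e' (some l, i) = e' (none, l) := by rw [hi, hl]
      have h2 := hD.eq_of_tp he'2 h1
      exact hE3 l hlW i h2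
    have : Nonempty (Fin n) := ⟨(hx' none).choose⟩
    choose! φ hφ1 hφ2 using hmap
    have hle : (insert x W).encard ≤ W.encard := by
      apply encard_le_encard_of_injOn (f := fun b => e₀ (φ b))
      · intro b hb
        exact hφ2 b hb
      · intro b hb b' hb' hbb
        have h2 := hD.eq_of_tp he'2.symm (i := (none, φ b)) (j := (none, φ b')) hbb
        rw [hφ1 b hb, hφ1 b' hb'] at h2
        exact h2
    rw [encard_insert_of_notMem hxW] at hle
    exact absurd hle (not_le.2 (ENat.lt_add_one_iff (by simpa using hWfin) |>.2 le_rfl))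

theorem ker_countable (hD : Dom col) {N : Set M} (hN : Full col N) :
    (Ker col N).Countable := by
  classical
  have := hD.fin
  have hch : ∀ s : (Σ n : ℕ, ((Fin r → Fin n) → T)), ∃ R : Set M, R.Finite ∧
      ∀ b, (∃ t : Fin s.1 → M, tp col t = s.2 ∧ ∀ e : Fin s.1 → M, (∀ i, e i ∈ N) →
        tp col e = tp col t → ∃ i, e i = b) → b ∈ R := by
    rintro ⟨n, τ⟩
    by_cases hτ : ∃ t : Fin n → M, tp col t = τ
    · obtain ⟨t, ht⟩ := hτ
      obtain ⟨e, he1, he2⟩ := hN n t
      refine ⟨range e, finite_range e, ?_⟩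
      rintro b ⟨t', ht', h⟩
      exact h e he1 (he2.trans (ht.trans ht'.symm))
    · refine ⟨∅, finite_empty, ?_⟩
      rintro b ⟨t', ht', -⟩
      exact absurd ⟨t', ht'⟩ hτ
  choose R hR1 hR2 using hch
  have hsub : Ker col N ⊆ ⋃ s, R s := by
    rintro b ⟨-, n, t, h⟩
    exact mem_iUnion.2 ⟨⟨n, tp col t⟩, hR2 ⟨n, tp col t⟩ b ⟨t, rfl, h⟩⟩
  exact (countable_iUnion (fun s => (hR1 s).countable)).mono hsub

theorem ker_univ_subset {N : Set M} (hN : Full col N) : Ker col univ ⊆ Ker col N := by
  rintro b ⟨-, n, t, h⟩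
  obtain ⟨e, he1, he2⟩ := hN n t
  obtain ⟨i, hi⟩ := h e (fun _ => mem_univ _) he2
  exact ⟨hi ▸ he1 i, n, t, fun e _ he => h e (fun _ => mem_univ _) he⟩

end Pool.Agent.Sib
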