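import Pool.Agent.Sib.Basic2

/-!
# The lower bound for the invariant of the set built from a system (module LOWER)
-/

namespace Pool.Agent.Sib

open Set

variable {r : ℕ} {M T : Type} {col : (Fin r → M) → T}
variable {Q : Set M} {ν : ℕ} {H : Set M → Set M}
variable {E : ℕ → Set M} {m : ℕ} {e : Fin m → ℕ → Set M}

/-- The statement of `sys_free_iff` (module SYS), used here as a hypothesis. -/
def SysFreeIff (col : (Fin r → M) → T) (Q : Set M) (E : ℕ → Set M) (m : ℕ)
    (e : Fin m → ℕ → Set M) : Prop :=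
  ∀ {B z : Set M}, Q ⊆ B → B ⊆ SysN Q (Ker col univ) E m e → B.Finite →
    z ⊆ SysN Q (Ker col univ) E m e → z.Finite →
    (FreeS col (SysN Q (Ker col univ) E m e) B z ↔ FreeS col univ B z)

/-! ### Elementary facts on systems -/

theorem strip_subset (s : Fin m) (j : ℕ) : e s j ⊆ Strips m e := by
  intro p hp
  exact mem_iUnion.2 ⟨s, mem_iUnion.2 ⟨j, hp⟩⟩

theorem strips_subset_sysN {K : Set M} : Strips m e ⊆ SysN Q K E m e :=
  fun _ hp => Or.inr hp

theorem q_subset_sysN {K : Set M} : Q ⊆ SysN Q K E m e :=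
  fun _ hp => Or.inl (Or.inl (Or.inr hp))

theorem k_subset_sysN {K : Set M} : K ⊆ SysN Q K E m e :=
  fun _ hp => Or.inl (Or.inl (Or.inl hp))

theorem e_subset_sysN {K : Set M} (l : ℕ) : E l ⊆ SysN Q K E m e :=
  fun _ hp => Or.inl (Or.inr (mem_iUnion.2 ⟨l, hp⟩))

theorem StripSys.fin {Mm : Set M} (hT : StripSys col Q Mm m e) (s : Fin m) (j : ℕ) :
    (e s j).Finite := by
  apply finite_of_encard_le_coe (k := r)
  exact (hT.tight s j).2.1

theorem StripSys.nonempty {Mm : Set M} (hT : StripSys col Q Mm m e) (s : Fin m) (j : ℕ) :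
    (e s j).Nonempty := (hT.tight s j).1

theorem StripSys.sep' {Mm : Set M} (hT : StripSys col Q Mm m e) {s s' : Fin m} {i j : ℕ}
    (h : s ≠ s' ∨ i + 3 ≤ j) {p : M} (hp : p ∈ e s i) : p ∉ e s' j := by
  intro hp'
  exact hT.sep s s' i j h (e s i) (hT.tight s i) (strip_subset s i) ⟨p, hp, hp⟩ ⟨p, hp, hp'⟩

theorem StripSys.infinite {Mm : Set M} (hT : StripSys col Q Mm m e) (s : Fin m) (j₀ : ℕ)
    {z : Set M} (hz : ∀ j, j₀ ≤ j → e s j ⊆ z) : z.Infinite := by
  choose f hf using fun n : ℕ => hT.nonempty s (j₀ + 3 * n)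
  have hinj : Function.Injective f := by
    have key : ∀ n n', n < n' → f n ≠ f n' := by
      intro n n' h he
      exact hT.sep' (Or.inr (by omega : j₀ + 3 * n + 3 ≤ j₀ + 3 * n')) (hf n) (he ▸ hf n')
    intro n n' he
    by_contra hne
    rcases lt_or_gt_of_ne hne with h | h
    · exact key _ _ h he
    · exact key _ _ h he.symm
  exact infinite_of_injective_forall_mem hinj (fun n => hz _ (by omega) (hf n))

theorem Sys.strip_notMem {K : Set M} (hC : Ctx col Q ν H) (hS : Sys col Q H K E m e) {p : M}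
    (hp : p ∈ Strips m e) : p ∉ K ∪ Q ∪ ⋃ l, E l := by
  intro hq
  have h1 := hS.far {p} (finite_singleton p) (by simpa using hq)
  exact disjoint_left.1 h1 hp (hC.Hsub _ (mem_singleton p))

/-! ### The lower bound -/

theorem sys_lower_of (hC : Ctx col Q ν H) (hS : Sys col Q H (Ker col univ) E m e)
    (sys_free_iff : SysFreeIff col Q E m e) :
    Kap col ν m (SysN Q (Ker col univ) E m e) := by
  classical
  have hXs : ∀ s : Fin m, (⋃ j, e s j) ⊆ Strips m e := by
    intro s p hp
    obtain ⟨j, hj⟩ := mem_iUnion.1 hp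
    exact strip_subset s j hj
  refine ⟨Q, fun s => ⋃ j, e s j, hC.Qfin, q_subset_sysN, ?_, ?_, ?_, ?_, ?_, ?_, ?_⟩
  · -- Big
    obtain ⟨x, hx, hxx⟩ := hC.big
    choose l hl x' hx' hx'E using fun i => hS.base.rich r (x i) (hx i) 0
    refine ⟨x', ?_, ?_⟩
    · intro i
      have h1 : Free col univ Q (x' i) := (hx i).congr (hx' i)
      rw [free_iff_range] at h1 ⊢
      refine (sys_free_iff subset_rfl q_subset_sysN hC.Qfin ?_ (finite_range _)).2 h1
      rintro _ ⟨a, rfl⟩
      exact e_subset_sysN _ (hx'E i a)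
    · intro i j hij h
      exact hxx i j hij (((hx' i).trans h).trans (hx' j).symm)
  · intro s
    exact hS.strip.infinite s 0 (fun j _ => subset_iUnion (fun j => e s j) j)
  · intro s
    exact (hXs s).trans strips_subset_sysN
  · intro s
    rw [disjoint_left]
    intro p hp hq
    have hp' := hXs s hp
    have hno := Sys.strip_notMem hC hS hp'
    rcases hq with ⟨-, n, t, hq⟩ | hq
    · obtain ⟨l, u, hu, hul⟩ := hS.base.copy n t
      obtain ⟨i, hi⟩ := hq u (fun i => by
        rcases hul i with h | h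
        · exact k_subset_sysN h
        · exact e_subset_sysN _ h) hu
      apply hno
      rcases hul i with h | h
      · exact Or.inl (Or.inl (hi ▸ h))
      · exact Or.inr (mem_iUnion.2 ⟨l, hi ▸ h⟩)
    · exact hno (Or.inl (Or.inr hq))
  · intro s s' hss
    rw [disjoint_left]
    intro p hp hq
    obtain ⟨i, hi⟩ := mem_iUnion.1 hp
    obtain ⟨j, hj⟩ := mem_iUnion.1 hq
    exact hS.strip.sep' (Or.inl hss) hi hj
  · intro s z hz hzf
    have hz' : z ⊆ Strips m e := hz.trans (hXs s)
    exact (sys_free_iff subset_rfl q_subset_sysN hC.Qfin (hz'.trans strips_subset_sysN)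
      hzf).2 (hS.free z hzf hz')
  · intro s z hz hzf hzn
    have hex : ∃ j, (e s j ∩ z).Nonempty ∧ ¬ e s j ⊆ z := by
      by_contra hno
      push Not at hno
      obtain ⟨p, hp⟩ := hzn
      obtain ⟨j₀, hj₀⟩ := mem_iUnion.1 (hz hp)
      have hall : ∀ j, j₀ ≤ j → e s j ⊆ z := by
        intro j hj
        induction j, hj using Nat.le_induction with
        | base => exact hno j₀ ⟨p, hj₀, hp⟩
        | succ j _ ih =>
          obtain ⟨q, hq1, hq2⟩ := hS.strip.inter s j
          exact hno (j + 1) ⟨q, hq2, ih hq1⟩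
      exact hS.strip.infinite s j₀ hall hzf
    obtain ⟨j, hj1, hj2⟩ := hex
    refine ⟨e s j \ z, ?_, (hS.strip.fin s j).subset sdiff_subset, ?_⟩
    · intro p hp
      exact ⟨mem_iUnion.2 ⟨j, hp.1⟩, hp.2⟩
    · intro hF
      have h1 : FreeS col univ (Q ∪ (e s j \ (e s j ∩ z))) (e s j ∩ z) := by
        rw [sdiff_self_inter]
        exact (hF.mono inter_subset_right).mono_set (subset_univ _)
      refine (hS.strip.tight s j).2.2.2 (e s j ∩ z) inter_subset_left hj1 ?_ h1
      intro h
      exact hj2 (inter_eq_left.1 h)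

end Pool.Agent.Sib
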