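import Pool.Agent.Sib.Sat

/-!
# The infinite Ramsey theorem (module RAMSEY)
-/

namespace Pool.Agent.Sib

open Set Filter SatAux

namespace RamseyAux

variable {T : Type} [Finite T]

/-- iterated ultralimit of the colour of the extensions of a list -/
noncomputable def F (X : List ℕ → T) : ℕ → List ℕ → T
  | 0, l => X l
  | n + 1, l => lim fun s => F X n (l ++ [s])

theorem F_spec (X : List ℕ → T) (n : ℕ) (l : List ℕ) :
    ∀ᶠ s in (UF : Filter ℕ), F X n (l ++ [s]) = F X (n + 1) l :=
  lim_spec fun s => F X n (l ++ [s])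

theorem exists_good (X : List ℕ → T) (k : ℕ) (S : Finset ℕ) :
    ∃ s : ℕ, (∀ a ∈ S, a < s) ∧ ∀ l : List ℕ, l.length < k → (∀ a ∈ l, a ∈ S) →
      F X (k - l.length - 1) (l ++ [s]) = F X (k - l.length) l := by
  have h1 : ∀ᶠ s in (UF : Filter ℕ), ∀ a ∈ S, a < s := by
    have : ∀ᶠ s in (Filter.cofinite : Filter ℕ), ∀ a ∈ S, a < s := by
      rw [Nat.cofinite_eq_atTop]
      refine (Finset.eventually_all S).2 fun a _ => eventually_gt_atTop a
    exact this.filter_mono hyperfilter_le_cofinite
  have hfin : {l : List ℕ | l.length < k ∧ ∀ a ∈ l, a ∈ S}.Finite := by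
    have h2 : {l : List S | l.length < k}.Finite := List.finite_length_lt S k
    refine (h2.image (List.map (fun a : S => (a : ℕ)))).subset ?_
    rintro l ⟨hl, hl2⟩
    refine ⟨l.attachWith (· ∈ S) hl2, by simpa using hl, ?_⟩
    simp
  have h3 : ∀ᶠ s in (UF : Filter ℕ), ∀ l ∈ {l : List ℕ | l.length < k ∧ ∀ a ∈ l, a ∈ S},
      F X (k - l.length - 1) (l ++ [s]) = F X (k - l.length) l := by
    refine hfin.eventually_all.2 ?_
    rintro l ⟨hl, -⟩
    have := F_spec X (k - l.length - 1) l
    have he : k - l.length - 1 + 1 = k - l.length := by omega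
    rwa [he] at this
  obtain ⟨s, hs1, hs2⟩ := (h1.and h3).exists
  exact ⟨s, hs1, fun l hl hl2 => hs2 l ⟨hl, hl2⟩⟩

end RamseyAux

open RamseyAux

theorem ramsey {T : Type} [Finite T] (k : ℕ) (χ : (Fin k → ℕ) → T) :
    ∃ g : ℕ → ℕ, StrictMono g ∧ ∀ h h' : Fin k → ℕ, StrictMono h → StrictMono h' →
      χ (g ∘ h) = χ (g ∘ h') := by
  classical
  let X : List ℕ → T := fun l => χ fun i => l.getD i 0
  choose pick hpick1 hpick2 using exists_good X k
  let St : ℕ → Finset ℕ := fun n => Nat.rec ∅ (fun _ S => insert (pick S) S) n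
  have hSt : ∀ n, St (n + 1) = insert (pick (St n)) (St n) := fun n => rfl
  let g : ℕ → ℕ := fun n => pick (St n)
  have hmem : ∀ n m, m < n → g m ∈ St n := by
    intro n
    induction n with
    | zero => intro m hm; omega
    | succ n ih =>
      intro m hm
      rw [hSt]
      rcases Nat.lt_succ_iff_lt_or_eq.1 hm with h | h
      · exact Finset.mem_insert_of_mem (ih m h)
      · rw [h]; exact Finset.mem_insert_self _ _
  have hg : StrictMono g := fun m n hmn => hpick1 _ _ (hmem n m hmn)
  refine ⟨g, hg, ?_⟩
  have key : ∀ h : Fin k → ℕ, StrictMono h → χ (g ∘ h) = F X k [] := by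
    intro h hh
    have step : ∀ j ≤ k, F X (k - j) ((List.ofFn (g ∘ h)).take j) = F X k [] := by
      intro j
      induction j with
      | zero => intro _; simp
      | succ j ih =>
        intro hj
        have hj' : j < k := by omega
        have h1 : (List.ofFn (g ∘ h)).take (j + 1) =
            (List.ofFn (g ∘ h)).take j ++ [g (h ⟨j, hj'⟩)] := by
          rw [List.take_add_one]
          congr 1
          simp [hj']
        have hlen : ((List.ofFn (g ∘ h)).take j).length = j := by
          simp; omega
        have h2 := hpick2 (St (h ⟨j, hj'⟩)) ((List.ofFn (g ∘ h)).take j) (by rw [hlen]; exact hj')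
          (by
            intro a ha
            rw [List.mem_take_iff_getElem] at ha
            obtain ⟨i, hi, rfl⟩ := ha
            rw [List.getElem_ofFn]
            apply hmem
            apply hh
            rw [Fin.lt_def]
            simp at hi ⊢
            exact hi.1)
        rw [hlen] at h2
        rw [h1, ← ih (by omega), ← h2]
        rfl
    have h3 := step k le_rfl
    rw [Nat.sub_self] at h3
    rw [← h3]
    show χ (g ∘ h) = χ _
    congr 1
    funext i
    simp
  intro h h' hh hh'
  rw [key h hh, key h' hh']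

end Pool.Agent.Sib
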