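import Pool.Agent.Sib.Tight

/-!
# Tightness depends only on the type; uniform local finiteness
-/

namespace Pool.Agent.Sib

open Set

variable {r : ℕ} {M T : Type} {col : (Fin r → M) → T} {Q : Set M} {ν : ℕ} {H : Set M → Set M}

theorem tight_inv (hC : Ctx col Q ν H) {ι : Type} [Finite ι] {x x' : ι → M}
    (h : TEq col (Q ∪ H Q) x x') (ht : Tight col Q (H Q)ᶜ (range x)) :
    Tight col Q (H Q)ᶜ (range x') := by
  classical
  have hD := hC.dom
  obtain ⟨h1, h2, h3, h4⟩ := ht
  have hQH : Q ∪ H Q = H Q := union_eq_self_of_subset_left (hC.Hsub Q)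
  have hxH : ∀ i, x i ∉ H Q := fun i => h3 (mem_range_self i)
  have hxH' : ∀ i, x' i ∉ H Q := by
    intro i hi
    have := (h.mem_iff hD i).2 (Or.inr hi)
    rw [hQH] at this
    exact hxH i this
  have heq : ∀ i j, x i = x j ↔ x' i = x' j := fun i j => h.eq_iff hD i j
  have hQ : TEq col Q x x' := h.mono subset_union_left
  refine ⟨?_, ?_, ?_, ?_⟩
  · obtain ⟨_, i, _⟩ := h1
    exact ⟨x' i, mem_range_self i⟩
  · have hf : x'.FactorsThrough x := fun i j hij => (heq i j).1 hij
    have : range x' = (Function.extend x x' id) '' range x := by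
      rw [← range_comp]
      congr 1
      funext i
      exact (hf.extend_apply id i).symm
    rw [this]
    exact (encard_image_le _ _).trans h2
  · rintro _ ⟨i, rfl⟩
    exact hxH' i
  · intro e₁ he₁ hne₁ hne hF
    let I : Set ι := {i | x' i ∈ e₁}
    have hr1 : range (fun i : I => x' i) = e₁ := by
      ext b
      constructor
      · rintro ⟨i, rfl⟩
        exact i.2
      · intro hb
        obtain ⟨i, rfl⟩ := he₁ hb
        exact ⟨⟨i, hb⟩, rfl⟩
    have hr2 : range (fun i : (Iᶜ : Set ι) => x' i) = range x' \ e₁ := by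
      ext b
      constructor
      · rintro ⟨i, rfl⟩
        exact ⟨mem_range_self _, i.2⟩
      · rintro ⟨⟨i, rfl⟩, hb⟩
        exact ⟨⟨i, hb⟩, rfl⟩
    have hF1 : Free col univ (Q ∪ range (fun i : (Iᶜ : Set ι) => x' i)) (fun i : I => x' i) := by
      rw [free_iff_range, hr1, hr2]
      exact hF
    have hT : TEq col Q (Sum.elim (fun i : I => x' i) (fun i : (Iᶜ : Set ι) => x' i))
        (Sum.elim (fun i : I => x i) (fun i : (Iᶜ : Set ι) => x i)) := by
      have h5 := hQ.symm.comp (Sum.elim (fun i : I => (i : ι)) (fun i : (Iᶜ : Set ι) => (i : ι)))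
      have e1 : ∀ w : ι → M, w ∘ Sum.elim (fun i : I => (i : ι)) (fun i : (Iᶜ : Set ι) => (i : ι)) =
          Sum.elim (fun i : I => w i) (fun i : (Iᶜ : Set ι) => w i) := by
        intro w
        funext s
        rcases s with s | s <;> rfl
      rw [e1, e1] at h5
      exact h5
    have hy : (range (fun i : (Iᶜ : Set ι) => x' i)).encard ≤ r := by
      rw [hr2]
      refine (encard_mono diff_subset).trans ?_
      have hf : x'.FactorsThrough x := fun i j hij => (heq i j).1 hij
      have : range x' = (Function.extend x x' id) '' range x := by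
        rw [← range_comp]
        congr 1
        funext i
        exact (hf.extend_apply id i).symm
      rw [this]
      exact (encard_image_le _ _).trans h2
    have hF2 := ind_inv hC hy (fun i => hxH' i) (fun i => hxH i) hT hF1
    apply h4 (range (fun i : I => x i))
    · rintro _ ⟨i, rfl⟩
      exact mem_range_self _
    · obtain ⟨b, hb⟩ := hne₁
      obtain ⟨i, rfl⟩ := he₁ hb
      exact ⟨x i, ⟨⟨i, hb⟩, rfl⟩⟩
    · intro hall
      apply hne
      apply Subset.antisymm he₁
      rintro _ ⟨j, rfl⟩
      have : x j ∈ range (fun i : I => x i) := by rw [hall]; exact mem_range_self j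
      obtain ⟨i, hi⟩ := this
      rw [← (heq i j).1 hi]
      exact i.2
    · have h6 : FreeS col univ (Q ∪ range (fun i : (Iᶜ : Set ι) => x i))
          (range (fun i : I => x i)) := free_iff_range.1 hF2
      apply h6.mono_base
      apply union_subset_union_right
      rintro _ ⟨⟨j, rfl⟩, hj⟩
      refine ⟨⟨j, fun hjI => hj ⟨⟨j, hjI⟩, rfl⟩⟩, rfl⟩

/-- Uniform bound on the number of tight sets through a point. -/
theorem tight_bound (hC : Ctx col Q ν H) : ∃ n : ℕ, ∀ b,
    {e | Tight col Q (H Q)ᶜ e ∧ b ∈ e}.encard ≤ n := by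
  classical
  have hD := hC.dom
  by_contra hcon
  push Not at hcon
  let V := Option (ℕ × Fin r)
  -- the sets of the family
  let R : ℕ → (V → M) → Set M := fun i v => range (fun s : Fin r => v (some (i, s)))
  let S : (ℕ ⊕ (ℕ × ℕ)) → Set (V → M) := fun j => match j with
    | Sum.inl i => {v | Tight col Q (H Q)ᶜ (R i v) ∧ v none ∈ R i v}
    | Sum.inr (i, j) => {v | i ≠ j → R i v ≠ R j v}
  have hA : (Q ∪ H Q).Finite := hC.Qfin.union (hC.Hfin Q hC.Qfin)
  have hcond : ∀ j, IsCond col (S j) := by
    rintro (i | ⟨i, j⟩)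
    · refine isCond_of_inv (fun s : Option (Fin r) => (s.map (fun s => (i, s)) : V)) hA
        (fun w => Tight col Q (H Q)ᶜ (range (fun s : Fin r => w (some s))) ∧
          w none ∈ range (fun s : Fin r => w (some s))) ?_
      rintro w w' hw ⟨h1, s, hs⟩
      refine ⟨tight_inv hC (hw.comp some) h1, s, ?_⟩
      exact (hw.eq_iff hD (some s) none).1 hs
    · refine isCond_of_inv (fun s : Bool × Fin r => (some (if s.1 then i else j, s.2) : V))
        finite_empty (fun w => i ≠ j → range (fun s : Fin r => w (true, s)) ≠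
          range (fun s : Fin r => w (false, s))) ?_
      intro w w' hw h1 hij h2
      apply h1 hij
      have key : ∀ a a' : Bool, range (fun s : Fin r => w' (a, s)) ⊆
          range (fun s : Fin r => w' (a', s)) → range (fun s : Fin r => w (a, s)) ⊆
          range (fun s : Fin r => w (a', s)) := by
        rintro a a' hsub _ ⟨s, rfl⟩
        obtain ⟨s', hs'⟩ := hsub ⟨s, rfl⟩
        exact ⟨s', (hw.eq_iff hD (a', s') (a, s)).2 hs'⟩
      exact Subset.antisymm (key _ _ h2.subset) (key _ _ h2.superset)
  have hfs : ∀ F : Finset (ℕ ⊕ (ℕ × ℕ)), ∃ v, ∀ j ∈ F, v ∈ S j := by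
    intro F
    obtain ⟨n, hn⟩ : ∃ n : ℕ, ∀ j ∈ F, (match j with
        | Sum.inl i => i < n
        | Sum.inr (i, j) => i < n ∧ j < n) := by
      refine ⟨F.sup (fun j => match j with
        | Sum.inl i => i + 1
        | Sum.inr (i, j) => max i j + 1), ?_⟩
      intro j hj
      have := Finset.le_sup (f := fun j : ℕ ⊕ (ℕ × ℕ) => (match j with
        | Sum.inl i => i + 1
        | Sum.inr (i, j) => max i j + 1 : ℕ)) hj
      rcases j with i | ⟨i, j⟩
      · exact this
      · have h' : max i j + 1 ≤ _ := this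
        exact ⟨lt_of_le_of_lt (le_max_left i j) h', lt_of_le_of_lt (le_max_right i j) h'⟩
    obtain ⟨b, hb⟩ := hcon n
    obtain ⟨E, hE, hEn⟩ := exists_subset_encard_eq hb.le
    have hEf : E.Finite := finite_of_encard_eq_coe hEn
    have := hEf.to_subtype
    have hcard : Nat.card E = n := by
      rw [Nat.card_coe_set_eq, ncard_def, hEn]
      rfl
    have e : Fin n ≃ E := (Finite.equivFinOfCardEq hcard).symm
    have hw : ∀ i : Fin n, ∃ w : Fin r → M, range w = (e i : Set M) := fun i =>
      calc_exists_range_eq (hE (e i).2).1.1 (hE (e i).2).1.2.1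
    choose w hw using hw
    refine ⟨fun o => match o with
      | none => b
      | some (i, s) => if hi : i < n then w ⟨i, hi⟩ s else b, ?_⟩
    intro j hj
    have hjn := hn j hj
    have hR : ∀ i (hi : i < n), R i (fun o => match o with
      | none => b
      | some (i, s) => if hi : i < n then w ⟨i, hi⟩ s else b) = (e ⟨i, hi⟩ : Set M) := by
      intro i hi
      rw [← hw ⟨i, hi⟩]
      simp only [R, dif_pos hi]
    rcases j with i | ⟨i, j⟩
    · have h1 := hE (e ⟨i, hjn⟩).2
      rw [← hR i hjn] at h1
      exact h1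
    · intro hij
      rw [hR i hjn.1, hR j hjn.2]
      intro h
      apply hij
      have := e.injective (Subtype.ext h)
      exact congrArg Fin.val this
  obtain ⟨v, hv⟩ := hD.sat V (ℕ ⊕ (ℕ × ℕ)) S hcond hfs
  have hfin := tight_finite hC (finite_singleton (v none))
  have hinj : Function.Injective (fun i => R i v) := by
    intro i j hij
    by_contra hne
    exact hv (Sum.inr (i, j)) hne hij
  apply infinite_range_of_injective hinj
  apply hfin.subset
  rintro _ ⟨i, rfl⟩
  have := hv (Sum.inl i)
  exact ⟨this.1, ⟨v none, this.2, rfl⟩⟩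

end Pool.Agent.Sib
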