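import Pool.Agent.Sib.Lower
import Pool.Agent.Sib.Ker

/-!
# The upper bound for the invariant of the set built from a system (module UPPER)
-/

namespace Pool.Agent.Sib

open Set

variable {r : ℕ} {M T : Type} {col : (Fin r → M) → T}
variable {Q : Set M} {ν : ℕ} {H : Set M → Set M}
variable {E : ℕ → Set M} {m : ℕ} {e : Fin m → ℕ → Set M}

/-- The blocks are pairwise disjoint. -/
theorem Sys.block_disj {K : Set M} (hC : Ctx col Q ν H) (hS : Sys col Q H K E m e) {l l' : ℕ}
    (h : l' < l) {p : M} (hp : p ∈ E l') : p ∉ E l := by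
  intro hq
  have h1 := hS.base.far l {p} (finite_singleton p) (by
    rw [singleton_subset_iff]
    exact Or.inr (mem_iUnion₂.2 ⟨l', h, hp⟩))
  exact disjoint_left.1 h1 hq (hC.Hsub _ (mem_singleton p))

/-- A finite set meets only finitely many blocks. -/
theorem Sys.finite_blocks {K : Set M} (hC : Ctx col Q ν H) (hS : Sys col Q H K E m e) {A : Set M}
    (hA : A.Finite) : {l | (E l ∩ A).Nonempty}.Finite := by
  have h1 : ∀ p ∈ A, {l | p ∈ E l}.Finite := by
    intro p _
    apply Set.Subsingleton.finite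
    intro l hl l' hl'
    by_contra hne
    rcases lt_or_gt_of_ne hne with h | h
    · exact hS.block_disj hC h hl hl'
    · exact hS.block_disj hC h hl' hl
  refine (hA.biUnion h1).subset ?_
  rintro l ⟨p, hp1, hp2⟩
  exact mem_biUnion hp2 hp1

/-- A finite set meets only finitely many members of a strip. -/
theorem StripSys.exists_bound {Mm : Set M} (hT : StripSys col Q Mm m e) (s : Fin m) {A : Set M}
    (hA : A.Finite) : ∃ a₀, ∀ j, a₀ ≤ j → ∀ p ∈ A, p ∉ e s j := by
  induction A, hA using Set.Finite.induction_on with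
  | empty => exact ⟨0, fun j _ p hp => (hp : False).elim⟩
  | @insert q A hq hA ih =>
    obtain ⟨a₀, ha₀⟩ := ih
    by_cases h : ∃ j, q ∈ e s j
    · obtain ⟨j₀, hj₀⟩ := h
      refine ⟨max a₀ (j₀ + 3), fun j hj p hp => ?_⟩
      rcases hp with rfl | hp
      · exact hT.sep' (Or.inr (le_trans (le_max_right _ _) hj)) hj₀
      · exact ha₀ j (le_trans (le_max_left _ _) hj) p hp
    · push Not at h
      refine ⟨a₀, fun j hj p hp => ?_⟩
      rcases hp with rfl | hp
      · exact h j
      · exact ha₀ j hj p hp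

theorem sys_upper_of (hC : Ctx col Q ν H) (hS : Sys col Q H (Ker col univ) E m e)
    (sys_full : Full col (SysN Q (Ker col univ) E m e))
    (sys_F1 : ∀ {l : ℕ} {z y : Set M}, z ⊆ E l → y ⊆ SysN Q (Ker col univ) E m e \ E l →
      y.Finite → FreeS col univ (Q ∪ y) z)
    (sys_F2 : ∀ {s : Fin m} {a b : ℕ} {z y : Set M}, z.Finite →
      (∀ p ∈ z, ∃ i, a + 3 ≤ i ∧ i + 3 ≤ b ∧ p ∈ e s i) →
      y ⊆ SysN Q (Ker col univ) E m e → (∀ p ∈ y, ∀ j, a ≤ j → j ≤ b → p ∉ e s j) →
      y.Finite → FreeS col univ (Q ∪ y) z)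
    (sys_free_iff : SysFreeIff col Q E m e) :
    ¬ Kap col ν (3 * r * m + 1) (SysN Q (Ker col univ) E m e) := by
  classical
  rintro ⟨Q', X, hQ'f, hQ'N, -, hXinf, hXN, hXK, hXd, -, hXy⟩
  set N := SysN Q (Ker col univ) E m e with hN
  have hKN : Ker col univ ⊆ Ker col N := ker_univ_subset sys_full
  -- the contradiction principle
  have hcontr : ∀ i F, F ⊆ X i → F.Finite → F.Nonempty →
      (∀ y, y ⊆ X i \ F → y.Finite → FreeS col univ (Q ∪ (Q' ∪ y)) F) → False := by
    intro i F hF hFf hFn hall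
    obtain ⟨y, hy, hyf, hyn⟩ := hXy i F hF hFf hFn
    apply hyn
    have h1 := hall y hy hyf
    have hyN : y ⊆ N := (hy.trans sdiff_subset).trans (hXN i)
    have h2 := (sys_free_iff (B := Q ∪ (Q' ∪ y)) (z := F) subset_union_left
      (union_subset q_subset_sysN (union_subset hQ'N hyN))
      (hC.Qfin.union (hQ'f.union hyf)) (hF.trans (hXN i)) hFf).2 h1
    exact h2.mono_base subset_union_right
  -- blocks
  have hblock : ∀ i l, ¬ (E l ∩ Q').Nonempty → ∀ p ∈ X i, p ∉ E l := by
    intro i l hl p hp hpE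
    apply hcontr i (X i ∩ E l) inter_subset_left ((hS.base.fin l).subset inter_subset_right)
      ⟨p, hp, hpE⟩
    intro y hy hyf
    apply sys_F1 inter_subset_right ?_ (hQ'f.union hyf)
    rintro q (hq | hq)
    · exact ⟨hQ'N hq, fun h => hl ⟨q, h, hq⟩⟩
    · exact ⟨hXN i (hy hq).1, fun h => (hy hq).2 ⟨(hy hq).1, h⟩⟩
  -- the part outside the strips is finite
  have hfin : ∀ i, (X i \ Strips m e).Finite := by
    intro i
    have hfb := hS.finite_blocks hC hQ'f
    refine (hC.Qfin.union (hfb.biUnion (t := E) (fun l _ => hS.base.fin l))).subset ?_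
    rintro p ⟨hp, hps⟩
    rcases hXN i hp with ((h | h) | h) | h
    · exact absurd (Or.inl (hKN h)) (disjoint_left.1 (hXK i) hp)
    · exact Or.inl h
    · obtain ⟨l, hl⟩ := mem_iUnion.1 h
      refine Or.inr (mem_biUnion (x := l) ?_ hl)
      by_contra hno
      exact hblock i l hno p hp hl
    · exact absurd h hps
  -- a strip containing infinitely many points of `X i`
  have hstrip : ∀ i, ∃ s : Fin m, (X i ∩ ⋃ j, e s j).Infinite := by
    intro i
    by_contra hno
    push Not at hno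
    apply hXinf i
    refine ((hfin i).union (finite_iUnion hno)).subset ?_
    intro p hp
    by_cases hps : p ∈ Strips m e
    · obtain ⟨s, hs⟩ := mem_iUnion.1 hps
      exact Or.inr (mem_iUnion.2 ⟨s, hp, hs⟩)
    · exact Or.inl ⟨hp, hps⟩
  choose σ hσ using hstrip
  -- windows
  have hwin : ∀ i, ∃ a₀, ∀ a, a₀ ≤ a → ∃ p ∈ X i, ∃ j, a ≤ j ∧ j ≤ a + 2 ∧ p ∈ e (σ i) j := by
    intro i
    by_contra hno
    push Not at hno
    obtain ⟨a₀, ha₀⟩ := hS.strip.exists_bound (σ i) hQ'f
    obtain ⟨a, haa, ha⟩ := hno a₀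
    -- a point beyond `a`
    have hp : ∃ p ∈ X i, ∃ j, a ≤ j ∧ p ∈ e (σ i) j := by
      by_contra hno'
      push Not at hno'
      apply hσ i
      refine ((Set.finite_lt_nat a).biUnion (t := fun j => e (σ i) j)
        (fun j _ => hS.strip.fin (σ i) j)).subset ?_
      rintro p ⟨hp, hpj⟩
      obtain ⟨j, hj⟩ := mem_iUnion.1 hpj
      refine mem_biUnion (x := j) ?_ hj
      by_contra hja
      exact hno' p hp j (not_lt.1 hja) hj
    obtain ⟨p, hpX, j₀, hj₀, hpj₀⟩ := hp
    obtain ⟨c, hcc, hc⟩ := hno (j₀ + 1)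
    -- the finite set
    have hFf : (X i ∩ ⋃ j ∈ Set.Icc a (c + 2), e (σ i) j).Finite :=
      ((finite_Icc a (c + 2)).biUnion (fun j _ => hS.strip.fin (σ i) j)).subset
        inter_subset_right
    apply hcontr i (X i ∩ ⋃ j ∈ Set.Icc a (c + 2), e (σ i) j) inter_subset_left hFf
      ⟨p, hpX, mem_biUnion (x := j₀) ⟨hj₀, by omega⟩ hpj₀⟩
    intro y hy hyf
    apply sys_F2 (s := σ i) (a := a) (b := c + 2) hFf ?_ ?_ ?_ (hQ'f.union hyf)
    · rintro q ⟨hqX, hq⟩
      obtain ⟨j, ⟨hj1, hj2⟩, hj⟩ := mem_iUnion₂.1 hq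
      refine ⟨j, ?_, ?_, hj⟩
      · by_contra hlt
        exact ha q hqX j hj1 (by omega) hj
      · by_contra hlt
        exact hc q hqX j (by omega) (by omega) hj
    · rintro q (hq | hq)
      · exact hQ'N hq
      · exact hXN i (hy hq).1
    · rintro q (hq | hq) j hj1 hj2 hj
      · exact ha₀ j (by omega) q hq hj
      · exact (hy hq).2 ⟨(hy hq).1, mem_biUnion (x := j) ⟨hj1, hj2⟩ hj⟩
  choose a₀ ha₀ using hwin
  -- pigeonhole
  obtain ⟨s, hs⟩ := Fintype.exists_lt_card_fiber_of_mul_lt_card (f := σ) (n := 3 * r) (by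
    simp only [Fintype.card_fin]
    nlinarith)
  let a := Finset.univ.sup a₀
  have hx : ∀ i, ∃ p ∈ X i, ∃ j, a ≤ j ∧ j ≤ a + 2 ∧ p ∈ e (σ i) j := by
    intro i
    exact ha₀ i a (Finset.le_sup (f := a₀) (Finset.mem_univ i))
  choose p hpX j hj1 hj2 hpj using hx
  -- the window
  have hW : (e s a ∪ e s (a + 1) ∪ e s (a + 2)).encard ≤ (3 * r : ℕ) := by
    have h0 := fun j => (hS.strip.tight s j).2.1
    calc (e s a ∪ e s (a + 1) ∪ e s (a + 2)).encard
        ≤ (e s a ∪ e s (a + 1)).encard + (e s (a + 2)).encard := encard_union_le _ _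
      _ ≤ (e s a).encard + (e s (a + 1)).encard + (e s (a + 2)).encard := by
          gcongr; exact encard_union_le _ _
      _ ≤ r + r + r := by gcongr <;> exact h0 _
      _ = (3 * r : ℕ) := by push_cast; ring
  have hinj : Function.Injective p := by
    intro i i' h
    by_contra hne
    exact disjoint_left.1 (hXd i i' hne) (hpX i) (h ▸ hpX i')
  have hsub : p '' {i | σ i = s} ⊆ e s a ∪ e s (a + 1) ∪ e s (a + 2) := by
    rintro _ ⟨i, hi, rfl⟩
    have hi' : σ i = s := hi
    have h1 := hpj i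
    rw [hi'] at h1
    have : j i = a ∨ j i = a + 1 ∨ j i = a + 2 := by
      have := hj1 i
      have := hj2 i
      omega
    rcases this with h | h | h
    · exact Or.inl (Or.inl (h ▸ h1))
    · exact Or.inl (Or.inr (h ▸ h1))
    · exact Or.inr (h ▸ h1)
  have h1 := (encard_le_encard hsub).trans hW
  rw [hinj.encard_image] at h1
  have h2 : {i | σ i = s}.encard = ((Finset.univ.filter (fun i => σ i = s)).card : ℕ) := by
    rw [← Set.encard_coe_eq_coe_finsetCard]
    congr 1
    ext i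
    simp
  rw [h2, Nat.cast_le] at h1
  omega

end Pool.Agent.Sib
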